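import Pool.Agent.H92.M5.AlsC

/-!
# L1, row ALS: all references
-/

set_option autoImplicit false

namespace Pool.M5.A92

open Finset Real
open Pool.Agent.H49.Ent Pool.Agent.H32.Dense Pool.STK Pool.KAF Pool.M5T Pool.M5.ALS

variable {k n : ℕ} {I : Type} [Fintype I] {b : Bas k I} {d : LDat k n I} {J : d.Om → Set ℕ}
  {m : (Fin (n + 1) → d.Om) → ℤ} {ns : ℕ}

theorem qk_zero {A : ℕ} {c : ℝ} (hOK : d.OK b A c) (ω : d.Om) :
    qk d 0 ω = cond d.P d.L (d.L ω) := by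
  have h0 : ∀ ω, d.Ti 0 ω = 0 := by
    intro ω
    unfold LDat.Ti
    have := hOK.hth (d.T ω)
    rw [pow_zero, one_mul, Int.floor_eq_zero_iff]
    exact this
  unfold qk
  have h1 : (fun v => (d.L v, d.Ti 0 v)) = fun v => (d.L v, (0 : ℤ)) := by
    funext v
    rw [h0]
  rw [h1, h0]
  funext v
  unfold Pool.Agent.H49.Ent.cond
  have h2 : law d.P (fun v => (d.L v, (0 : ℤ))) (d.L ω, 0) = law d.P d.L (d.L ω) := by
    unfold law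
    refine Finset.sum_congr rfl fun x _ => ?_
    by_cases h3 : d.L x = d.L ω
    · rw [if_pos h3, if_pos (show (d.L x, (0 : ℤ)) = (d.L ω, 0) by rw [h3])]
    · rw [if_neg h3, if_neg (fun h4 => h3 (Prod.ext_iff.1 h4).1)]
  rw [h2]
  by_cases h3 : d.L v = d.L ω
  · rw [if_pos h3, if_pos (show (d.L v, (0 : ℤ)) = (d.L ω, 0) by rw [h3])]
  · rw [if_neg h3, if_neg (fun h4 => h3 (Prod.ext_iff.1 h4).1)]

theorem near_mean {A k₀ : ℕ} {c ε₈ : ℝ} (hOK : d.OK b A c) (hTC : TC d k₀ ε₈) :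
    Ex d.Qr (fun v => Ex (pk d v) (fun t => Pr (pk d v) {t' | |d.th (d.T t) - d.th (d.T t')| <
      (2 : ℝ) ^ (-(k₀ : ℤ))})) ≤ ε₈ := by
  classical
  refine le_trans (le_of_eq ?_) hTC
  have h1 := Pr_marg (Q4_snd hOK 0) {w : d.Om × d.Om | |d.ta w| < (2 : ℝ) ^ (-(k₀ : ℤ))}
  rw [← h1, ← Ex_ind, Ex_Q4 hOK]
  unfold Ex
  refine Finset.sum_congr rfl fun v _ => ?_
  congr 1
  refine Finset.sum_congr rfl fun ω _ => ?_
  by_cases h2 : d.L ω = d.L (v 0)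
  · congr 1
    beta_reduce
    rw [Pool.KAF.Pr_eq, qk_zero hOK, h2]
    refine Finset.sum_congr rfl fun ω' _ => ?_
    by_cases h3 : |d.th (d.T ω) - d.th (d.T ω')| < (2 : ℝ) ^ (-(k₀ : ℤ))
    · have h4 : |d.th (d.T ω') - d.th (d.T ω)| < (2 : ℝ) ^ (-(k₀ : ℤ)) := by
        rw [abs_sub_comm]
        exact h3
      rw [if_pos (show ω' ∈ {t' | |d.th (d.T ω) - d.th (d.T t')| < (2 : ℝ) ^ (-(k₀ : ℤ))} from h3)]
      rw [if_pos (show (v, ω, ω') ∈ {w : (Fin (n + 1) → d.Om) × (d.Om × d.Om) |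
        w.2 ∈ {w : d.Om × d.Om | |d.ta w| < (2 : ℝ) ^ (-(k₀ : ℤ))}} from h4),
        mul_one]
      rfl
    · have h4 : ¬ |d.th (d.T ω') - d.th (d.T ω)| < (2 : ℝ) ^ (-(k₀ : ℤ)) := by
        rw [abs_sub_comm]
        exact h3
      rw [if_neg (show ¬ ω' ∈ {t' | |d.th (d.T ω) - d.th (d.T t')| < (2 : ℝ) ^ (-(k₀ : ℤ))} from h3)]
      rw [if_neg (show ¬ (v, ω, ω') ∈ {w : (Fin (n + 1) → d.Om) × (d.Om × d.Om) |
        w.2 ∈ {w : d.Om × d.Om | |d.ta w| < (2 : ℝ) ^ (-(k₀ : ℤ))}} from h4),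
        mul_zero]
  · have h3 : pk d v ω = 0 := by
      unfold pk Pool.Agent.H49.Ent.cond
      rw [if_neg h2]
    rw [h3, zero_mul, zero_mul]

/-- Markov for a mean over the references. -/
theorem Pr_gt' {Ω : Type} [Fintype Ω] {p : Ω → ℝ} (hp : ∀ ω, 0 ≤ p ω) (f : Ω → ℝ)
    (hf : ∀ ω, 0 < p ω → 0 ≤ f ω) {a e : ℝ} (ha : 0 < a) (he : Ex p f ≤ e) :
    Pr p {ω | ¬ f ω ≤ a} ≤ e / a := by
  have : {ω | ¬ f ω ≤ a} = {ω | a < f ω} := by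
    ext ω
    simp only [Set.mem_ofPred_eq, not_le]
  rw [this]
  exact Pr_gt hp f hf ha he

open Classical in
/-- **All references.** -/
theorem als_core {A h i₀ a k₀ k'' k₁ k₅ N₀ : ℕ} {c u η θ ν α δ θ₁ ε₈ al e εW : ℝ}
    (hOK : d.OK b A c) (hS : Siz b d ns h m c) (hi₀ : 2 * i₀ ≤ ns)
    (hnest : ∀ s v v', d.GA b m (s + 1) v = d.GA b m (s + 1) v' → d.GA b m s v = d.GA b m s v')
    (hu : 0 < u) (hu1 : u ≤ 1) (hN₀ : 8 / u ≤ N₀) (hSPR : SPR b d m ns a ε₈)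
    (hη : 0 < η) (hη1 : η ≤ 1) (hθ : 0 < θ) (hν : 0 < ν) (hα : 0 < α) (hθ₁ : 0 < θ₁)
    (hδ : 3 * δ < 1) (hc : 2 * θ / η + ν ≤ δ * ((u / 4) ^ 2 / 16))
    (hc2 : n * (2 / u * (α + (δ + (4 * N₀ ^ 2 + 1) * (α / θ)))) + θ₁ + ν < u / 4)
    (hJ1 : Pr d.P {ω | ¬ Jgd d J h u ω} ≤ ε₈) (hTC : TC d k₀ ε₈)
    (hB : Ex d.Qr (fun v => ((Bf b d m ns η v).card : ℝ)) ≤
      2 ^ (k + n) * η * ((d.X - 16 * ns : ℕ) : ℝ))
    (hA : Ex d.Qr (fun v => Ex (pk d v) (fun ω => Af b d J m ns i₀ a k'' k₁ v ω)) ≤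
      al * (((ns - i₀ : ℕ) : ℝ) * ((d.X - 16 * ns : ℕ) : ℝ)))
    (lv : d.Om × d.Om → ℕ) (W : Set ((Fin (n + 1) → d.Om) × (d.Om × d.Om)))
    (hlv : ∀ z ∈ W, lv z.2 ≤ 2 * ns ∧ d.ta z.2 ≠ 0)
    (hW : ∀ i < ns, Pr (d.Q4 i) Wᶜ ≤ εW)
    (hE : ∀ i < ns, Ex (d.Q4 i) (fun z => if z ∈ W then ∑ s ∈ range (d.X - 16 * ns),
      (if s + lv z.2 ∈ Jf d J m ns z.1 z.2.1 then Pr (rk b d m ns s z.1)
        {v' | hk d m a k'' k₁ z.1 * Yk ns a s < |∑ e : Fin n, (d.dt e z.2 / d.ta z.2) *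
          cp b d z.1 v' e - Bp d z.1 (ch b d ns z.1 z.2) v'|} else 0) else 0) ≤ e * d.X)
    (he : 0 ≤ e)
    (hκ : (2 : ℝ) ^ (a + k'' + 1 + k₅) * (n * (n * (2 / (2 : ℝ) ^ (-(k₀ : ℤ))) ^ n) *
      (1 + (14 * N₀ + 2) * (k * 2 ^ a)) + 1) ≤ 2 ^ k₁) :
    ∃ Λ : (Fin (n + 1) → d.Om) → Fin n → Fin k → ℝ, AGR b d m ns k₅ Λ
      (2 * ε₈ / ν + 2 ^ (k + n) * η * 256 / u ^ 2 + 4 * (ε₈ + al / α) + 16 * (n + 1) * ε₈ +
        ε₈ + εW + 2 * e / θ₁) := by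
  obtain ⟨M, hM0, -, hM, hMs⟩ := hSPR
  have h1 := hS.h1
  have h2 := hS.hn
  have h3 := hS.nX
  obtain ⟨X', hX'⟩ : ∃ X' : ℕ, X' = d.X - 16 * ns := ⟨_, rfl⟩
  have hXp : 0 < d.X - 16 * ns := by omega
  have hXr : (0 : ℝ) < ((d.X - 16 * ns : ℕ) : ℝ) := by exact_mod_cast hXp
  have hX2 : (d.X : ℝ) ≤ 2 * ((d.X - 16 * ns : ℕ) : ℝ) := by
    have : d.X ≤ 2 * (d.X - 16 * ns) := by omega
    exact_mod_cast this
  have hn1 : 0 < ns - i₀ := by omega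
  have hn1r : (0 : ℝ) < ((ns - i₀ : ℕ) : ℝ) := by exact_mod_cast hn1
  have hQ := Qr_law hOK
  have hε₈ : 0 ≤ ε₈ := le_trans (Pool.KAF.Pr_nonneg hOK.law.nonneg _) hJ1
  have hpk : ∀ v, 0 < d.Qr v → IsLaw (pk d v) := fun v hv =>
    isLaw_cnd hOK.law d.L (((Qr_pos hOK).1 hv).1 0)
  -- the conditions for a reference
  set P1 : (Fin (n + 1) → d.Om) → Prop := fun v =>
    ∑ s ∈ range (d.X - 16 * ns), M (8 * ns + s) v ≤ ν * ((d.X - 16 * ns : ℕ) : ℝ) with hP1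
  set P2 : (Fin (n + 1) → d.Om) → Prop := fun v =>
    ((Bf b d m ns η v).card : ℝ) ≤ (u / 4) ^ 2 * ((d.X - 16 * ns : ℕ) : ℝ) / 16 with hP2
  set GG : (Fin (n + 1) → d.Om) → Set d.Om := fun v =>
    {ω | Jgd d J h u ω ∧ Af b d J m ns i₀ a k'' k₁ v ω ≤
      α * (((ns - i₀ : ℕ) : ℝ) * ((d.X - 16 * ns : ℕ) : ℝ))} with hGG
  set P3 : (Fin (n + 1) → d.Om) → Prop := fun v => Pr (pk d v) (GG v)ᶜ ≤ 1 / 4 with hP3
  set P4 : (Fin (n + 1) → d.Om) → Prop := fun v =>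
    Ex (pk d v) (fun t => Pr (pk d v) {t' | |d.th (d.T t) - d.th (d.T t')| <
      (2 : ℝ) ^ (-(k₀ : ℤ))}) ≤ 1 / (16 * (n + 1)) with hP4
  -- the probabilities
  have p1 : Pr d.Qr {v | ¬ P1 v} ≤ 2 * ε₈ / ν := by
    have e1 : Ex d.Qr (fun v => ∑ s ∈ range (d.X - 16 * ns), M (8 * ns + s) v) ≤ ε₈ * d.X := by
      refine le_trans (le_of_eq ?_) hMs
      rw [Finset.sum_Ico_eq_sum_range, show d.X - 8 * ns - 8 * ns = d.X - 16 * ns by omega]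
      unfold Ex
      simp only [Finset.mul_sum]
      exact Finset.sum_comm
    refine (Pr_gt' hQ.nonneg _ (fun v _ => Finset.sum_nonneg fun s _ => hM0 _ _)
      (mul_pos hν hXr) e1).trans ?_
    rw [div_le_div_iff₀ (mul_pos hν hXr) hν]
    have := mul_le_mul_of_nonneg_left hX2 hε₈
    have := mul_le_mul_of_nonneg_right this hν.le
    linarith
  have p2 : Pr d.Qr {v | ¬ P2 v} ≤ 2 ^ (k + n) * η * 256 / u ^ 2 := by
    refine (Pr_gt' hQ.nonneg _ (fun v _ => Nat.cast_nonneg _) (by positivity) hB).trans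
      (le_of_eq ?_)
    field_simp
    ring
  have hAf0 : ∀ v, 0 < d.Qr v → ∀ ω, 0 < pk d v ω → 0 ≤ Af b d J m ns i₀ a k'' k₁ v ω := by
    intro v hv ω hω
    have hω' : 0 < d.P ω := ((cond_pos_iff hOK.law.nonneg d.L (d.L (v 0)) ω).1 hω).1
    unfold Af
    refine Finset.sum_nonneg fun i _ => Finset.sum_nonneg fun s _ => ?_
    split_ifs
    · exact Ex_nonneg (isLaw_cnd hOK.law (fun v => (d.L v, d.Ti (i₀ + i) v)) hω').nonneg
        fun t _ => Pool.KAF.Pr_nonneg (rk_law b d m ns hOK s hv).nonneg _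
    · exact le_rfl
  have p3 : Pr d.Qr {v | ¬ P3 v} ≤ 4 * (ε₈ + al / α) := by
    have e1 : Ex d.Qr (fun v => Pr (pk d v) (GG v)ᶜ) ≤ ε₈ + al / α := by
      have e2 : Ex d.Qr (fun v => Pr (pk d v) {ω | ¬ Jgd d J h u ω}) ≤ ε₈ := by
        refine le_trans (le_of_eq ?_) hJ1
        rw [← Ex_ind, ← Ex_base hOK]
        unfold Ex
        refine Finset.sum_congr rfl fun v _ => ?_
        congr 1
        have h5 := Ex_ind (pk d v) {ω | ¬ Jgd d J h u ω}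
        unfold Ex at h5
        exact h5.symm
      have e3 : Ex d.Qr (fun v => Ex (pk d v) (fun ω => Af b d J m ns i₀ a k'' k₁ v ω) /
          (α * (((ns - i₀ : ℕ) : ℝ) * ((d.X - 16 * ns : ℕ) : ℝ)))) ≤ al / α := by
        have e4 : Ex d.Qr (fun v => Ex (pk d v) (fun ω => Af b d J m ns i₀ a k'' k₁ v ω) /
            (α * (((ns - i₀ : ℕ) : ℝ) * ((d.X - 16 * ns : ℕ) : ℝ)))) =
            Ex d.Qr (fun v => Ex (pk d v) (fun ω => Af b d J m ns i₀ a k'' k₁ v ω)) /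
            (α * (((ns - i₀ : ℕ) : ℝ) * ((d.X - 16 * ns : ℕ) : ℝ))) := by
          unfold Ex
          rw [Finset.sum_div]
          exact Finset.sum_congr rfl fun v _ => by ring
        rw [e4, div_le_div_iff₀ (by positivity) hα]
        have := mul_le_mul_of_nonneg_right hA hα.le
        linarith
      refine le_trans ?_ (add_le_add e2 e3)
      rw [← Ex_add]
      refine Ex_mono hQ.nonneg fun v hv => ?_
      have hp := hpk v hv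
      have e5 : Pr (pk d v) (GG v)ᶜ ≤ Pr (pk d v) {ω | ¬ Jgd d J h u ω} +
          Pr (pk d v) {ω | ¬ Af b d J m ns i₀ a k'' k₁ v ω ≤
            α * (((ns - i₀ : ℕ) : ℝ) * ((d.X - 16 * ns : ℕ) : ℝ))} := by
        refine Pr_or hp.nonneg fun ω _ hω => ?_
        by_cases h6 : Jgd d J h u ω
        · exact Or.inr fun h7 => hω ⟨h6, h7⟩
        · exact Or.inl h6
      have e6 := Pr_gt' hp.nonneg (fun ω => Af b d J m ns i₀ a k'' k₁ v ω) (hAf0 v hv)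
        (a := α * (((ns - i₀ : ℕ) : ℝ) * ((d.X - 16 * ns : ℕ) : ℝ))) (by positivity)
        (le_refl (Ex (pk d v) (fun ω => Af b d J m ns i₀ a k'' k₁ v ω)))
      linarith
    refine (Pr_gt' hQ.nonneg _ (fun v hv => Pool.KAF.Pr_nonneg (hpk v hv).nonneg _)
      (by norm_num) e1).trans (le_of_eq ?_)
    ring
  have p4 : Pr d.Qr {v | ¬ P4 v} ≤ 16 * (n + 1) * ε₈ := by
    refine (Pr_gt' hQ.nonneg _ (fun v hv => Ex_nonneg (hpk v hv).nonneg fun t _ =>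
      Pool.KAF.Pr_nonneg (hpk v hv).nonneg _) (by positivity) (near_mean hOK hTC)).trans
      (le_of_eq ?_)
    field_simp
  -- the linear maps
  have hex : ∀ v, ∃ La : Fin n → Fin k → ℝ, 0 < d.Qr v → P1 v → P2 v → P3 v → P4 v →
      ∀ (w : d.Om × d.Om) (j : ℕ) (h₁ : ℝ), Jgd d J h u w.1 → j ≤ 2 * ns →
      ∑ s ∈ Finset.Ico (ns - i₀) (d.X - 16 * ns - (ns - i₀)),
        (if s + j ∈ Jf d J m ns v w.1 then Pr (rk b d m ns s v) {v' | h₁ * Yk ns a s <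
          |∑ e : Fin n, (d.dt e w / d.ta w) * cp b d v v' e - Bp d v (ch b d ns v w) v'|}
          else 0) ≤ θ₁ * ((d.X - 16 * ns : ℕ) : ℝ) →
      ‖ch b d ns v w - ∑ e, (d.dt e w / d.ta w) • La e‖ ≤
        (n * (n * (2 / (2 : ℝ) ^ (-(k₀ : ℤ))) ^ n)) * (hk d m a k'' k₁ v +
          (14 * N₀ + 2) * hk d m a k'' k₁ v * (k * 2 ^ a)) + h₁ := by
    intro v
    by_cases h4 : 0 < d.Qr v ∧ P1 v ∧ P2 v ∧ P3 v ∧ P4 v
    · obtain ⟨hv, q1, q2, q3, q4⟩ := h4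
      obtain ⟨La, hLa⟩ := line_v (J := J) hOK hS hi₀ hnest hu hu1 hN₀ M hM0 hv
        (fun s hs ξ hξ => hM s hs v hv ξ hξ) hη hη1 hθ hδ hc hc2 q1 q2 q3 q4
      exact ⟨La, fun _ _ _ _ _ => hLa⟩
    · exact ⟨fun _ _ => 0, fun a1 a2 a3 a4 a5 => absurd ⟨a1, a2, a3, a4, a5⟩ h4⟩
  choose La hLa using hex
  refine ⟨La, fun i hi => ?_⟩
  have hQ4 := Q4_law hOK i
  -- the exceptional sets
  set F : (Fin (n + 1) → d.Om) × (d.Om × d.Om) → ℝ := fun z => if z ∈ W then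
    ∑ s ∈ range (d.X - 16 * ns), (if s + lv z.2 ∈ Jf d J m ns z.1 z.2.1 then
      Pr (rk b d m ns s z.1) {v' | hk d m a k'' k₁ z.1 * Yk ns a s <
        |∑ e : Fin n, (d.dt e z.2 / d.ta z.2) * cp b d z.1 v' e -
          Bp d z.1 (ch b d ns z.1 z.2) v'|} else 0) else 0 with hF
  have hF0 : ∀ z, 0 < d.Q4 i z → 0 ≤ F z := by
    intro z hu'
    have hv := (Q4_pos hOK hu').1
    simp only [hF]
    split_ifs with h4
    · refine Finset.sum_nonneg fun s _ => ?_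
      split_ifs
      · exact Pool.KAF.Pr_nonneg (rk_law b d m ns hOK s hv).nonneg _
      · exact le_rfl
    · exact le_rfl
  have p5 : Pr (d.Q4 i) {z | ¬ F z ≤ θ₁ * ((d.X - 16 * ns : ℕ) : ℝ)} ≤ 2 * e / θ₁ := by
    refine (Pr_gt' hQ4.nonneg F hF0 (mul_pos hθ₁ hXr) (hE i hi)).trans ?_
    rw [div_le_div_iff₀ (mul_pos hθ₁ hXr) hθ₁]
    have := mul_le_mul_of_nonneg_left hX2 he
    have := mul_le_mul_of_nonneg_right this hθ₁.le
    linarith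
  have p6 : Pr (d.Q4 i) {z | ¬ Jgd d J h u z.2.1} ≤ ε₈ := by
    have h4 := Pr_marg (Q4_snd hOK i) {w : d.Om × d.Om | ¬ Jgd d J h u w.1}
    have h5 := Pr_marg (Qp_fst hOK i) {ω : d.Om | ¬ Jgd d J h u ω}
    refine le_trans (le_of_eq ?_) hJ1
    rw [← h5]
    exact h4
  have p7 : ∀ (P : (Fin (n + 1) → d.Om) → Prop), Pr (d.Q4 i) {z | ¬ P z.1} =
      Pr d.Qr {v | ¬ P v} := fun P => Pr_marg (Q4_fst hOK i) {v | ¬ P v}
  -- union
  have hun : Pr (d.Q4 i) {z | (2 : ℝ) ^ (-(m z.1 + k₅)) * |d.ta z.2| <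
      ‖fun j => d.gr b (8 * ns) z j - ∑ a, d.dt a z.2 * La z.1 a j‖} ≤
      Pr (d.Q4 i) {z | ¬ P1 z.1} + (Pr (d.Q4 i) {z | ¬ P2 z.1} + (Pr (d.Q4 i) {z | ¬ P3 z.1} +
      (Pr (d.Q4 i) {z | ¬ P4 z.1} + (Pr (d.Q4 i) {z | ¬ Jgd d J h u z.2.1} + (Pr (d.Q4 i) Wᶜ +
      Pr (d.Q4 i) {z | ¬ F z ≤ θ₁ * ((d.X - 16 * ns : ℕ) : ℝ)}))))) := by
    refine (Pr_or hQ4.nonneg (B := {z | ¬ P1 z.1}) (C := {z | ¬ P2 z.1 ∨ ¬ P3 z.1 ∨ ¬ P4 z.1 ∨
      ¬ Jgd d J h u z.2.1 ∨ z ∉ W ∨ ¬ F z ≤ θ₁ * ((d.X - 16 * ns : ℕ) : ℝ)}) ?_).trans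
      (add_le_add le_rfl ?_)
    · intro z hu' hbad
      by_contra hcon
      simp only [Set.mem_ofPred_eq, not_or, not_not] at hcon
      obtain ⟨q1, q2, q3, q4, q5, q6, q7⟩ := hcon
      have hv := (Q4_pos hOK hu').1
      obtain ⟨hl1, hl2⟩ := hlv z q6
      have h4 := hLa z.1 hv q1 q2 q3 q4 z.2 (lv z.2) (hk d m a k'' k₁ z.1) q5 hl1 (by
        refine le_trans ?_ q7
        simp only [hF]
        rw [if_pos q6]
        refine Finset.sum_le_sum_of_subset_of_nonneg (fun s hs => ?_) fun s _ _ => ?_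
        · have := mem_Ico.1 hs
          exact mem_range.2 (by omega)
        · split_ifs
          · exact Pool.KAF.Pr_nonneg (rk_law b d m ns hOK s hv).nonneg _
          · exact le_rfl)
      have h5 : (n * (n * (2 / (2 : ℝ) ^ (-(k₀ : ℤ))) ^ n)) * (hk d m a k'' k₁ z.1 +
          (14 * N₀ + 2) * hk d m a k'' k₁ z.1 * (k * 2 ^ a)) + hk d m a k'' k₁ z.1 ≤
          (2 : ℝ) ^ (-(m z.1 + k₅)) := by
        have e1 : (n * (n * (2 / (2 : ℝ) ^ (-(k₀ : ℤ))) ^ n)) * (hk d m a k'' k₁ z.1 +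
          (14 * N₀ + 2) * hk d m a k'' k₁ z.1 * (k * 2 ^ a)) + hk d m a k'' k₁ z.1 =
          hk d m a k'' k₁ z.1 * (n * (n * (2 / (2 : ℝ) ^ (-(k₀ : ℤ))) ^ n) *
            (1 + (14 * N₀ + 2) * (k * 2 ^ a)) + 1) := by ring
        rw [e1]
        have e2 : hk d m a k'' k₁ z.1 = (2 : ℝ) ^ (-(m z.1 + k₅) - k₁) *
            (2 : ℝ) ^ (a + k'' + 1 + k₅) := by
          unfold hk
          rw [← zpow_natCast (2 : ℝ) (a + k'' + 1 + k₅), ← zpow_add₀ (by norm_num)]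
          congr 1
          push_cast
          ring
        rw [e2, mul_assoc]
        refine (mul_le_mul_of_nonneg_left hκ (by positivity)).trans (le_of_eq ?_)
        rw [← zpow_natCast (2 : ℝ) k₁, ← zpow_add₀ (by norm_num)]
        congr 1
        ring
      have h6 : (fun j => d.gr b (8 * ns) z j - ∑ a, d.dt a z.2 * La z.1 a j) =
          d.ta z.2 • (ch b d ns z.1 z.2 - ∑ e, (d.dt e z.2 / d.ta z.2) • La z.1 e) := by
        funext j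
        rw [Pi.smul_apply, Pi.sub_apply, Finset.sum_apply, smul_eq_mul, mul_sub, Finset.mul_sum]
        unfold ch
        congr 1
        · field_simp
        · refine Finset.sum_congr rfl fun e _ => ?_
          rw [Pi.smul_apply, smul_eq_mul]
          field_simp
      have hbad' : (2 : ℝ) ^ (-(m z.1 + k₅)) * |d.ta z.2| <
          ‖fun j => d.gr b (8 * ns) z j - ∑ a, d.dt a z.2 * La z.1 a j‖ := hbad
      rw [h6, norm_smul, Real.norm_eq_abs] at hbad'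
      have h7 := mul_le_mul_of_nonneg_left (h4.trans h5) (abs_nonneg (d.ta z.2))
      linarith
    refine (Pr_or hQ4.nonneg (B := {z | ¬ P2 z.1}) (C := {z | ¬ P3 z.1 ∨ ¬ P4 z.1 ∨
      ¬ Jgd d J h u z.2.1 ∨ z ∉ W ∨ ¬ F z ≤ θ₁ * ((d.X - 16 * ns : ℕ) : ℝ)})
      fun _ _ h => h).trans (add_le_add le_rfl ?_)
    refine (Pr_or hQ4.nonneg (B := {z | ¬ P3 z.1}) (C := {z | ¬ P4 z.1 ∨
      ¬ Jgd d J h u z.2.1 ∨ z ∉ W ∨ ¬ F z ≤ θ₁ * ((d.X - 16 * ns : ℕ) : ℝ)})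
      fun _ _ h => h).trans (add_le_add le_rfl ?_)
    refine (Pr_or hQ4.nonneg (B := {z | ¬ P4 z.1}) (C := {z | ¬ Jgd d J h u z.2.1 ∨ z ∉ W ∨
      ¬ F z ≤ θ₁ * ((d.X - 16 * ns : ℕ) : ℝ)}) fun _ _ h => h).trans (add_le_add le_rfl ?_)
    refine (Pr_or hQ4.nonneg (B := {z | ¬ Jgd d J h u z.2.1}) (C := {z | z ∉ W ∨
      ¬ F z ≤ θ₁ * ((d.X - 16 * ns : ℕ) : ℝ)}) fun _ _ h => h).trans (add_le_add le_rfl ?_)
    exact Pr_or hQ4.nonneg (B := Wᶜ) (C := {z | ¬ F z ≤ θ₁ * ((d.X - 16 * ns : ℕ) : ℝ)})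
      fun _ _ h => h
  refine hun.trans ?_
  rw [p7, p7, p7, p7]
  have := hW i hi
  linarith

end Pool.M5.A92
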