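import Pool.Agent.H20.M5.Geo
import Pool.Agent.H92.M5.AlsG

/-!
# L1, row ALS: small subcells, heavy rows, constants
-/

set_option autoImplicit false

namespace Pool.M5.A92

open Finset Real
open Pool.Agent.H49.Ent Pool.Agent.H32.Dense Pool.STK Pool.KAF Pool.M5T Pool.M5.ALS

variable {k n : ℕ} {I : Type} [Fintype I] {b : Bas k I} {d : LDat k n I} {J : d.Om → Set ℕ}
  {m : (Fin (n + 1) → d.Om) → ℤ} {ns : ℕ}

/-- (B) The small subcells are rare. -/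
theorem Bf_mean {A : ℕ} {c η : ℝ} (hOK : d.OK b A c) (hη : 0 ≤ η) :
    Ex d.Qr (fun v => ((Bf b d m ns η v).card : ℝ)) ≤
      2 ^ (k + n) * η * ((d.X - 16 * ns : ℕ) : ℝ) := by
  classical
  have hQ := Qr_law hOK
  have e1 : Ex d.Qr (fun v => ((Bf b d m ns η v).card : ℝ)) =
      ∑ s ∈ range (d.X - 16 * ns), Pr d.Qr {v |
        law d.Qr (d.GA b m (8 * ns + s + 1)) (d.GA b m (8 * ns + s + 1) v) <
          η * law d.Qr (d.GA b m (8 * ns + s)) (d.GA b m (8 * ns + s) v)} := by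
    have e2 : ∀ v, ((Bf b d m ns η v).card : ℝ) = ∑ s ∈ range (d.X - 16 * ns),
        (if v ∈ {v | law d.Qr (d.GA b m (8 * ns + s + 1)) (d.GA b m (8 * ns + s + 1) v) <
          η * law d.Qr (d.GA b m (8 * ns + s)) (d.GA b m (8 * ns + s) v)} then (1 : ℝ) else 0) := by
      intro v
      unfold Bf
      rw [Finset.card_filter]
      push_cast
      exact Finset.sum_congr rfl fun s _ => rfl
    unfold Ex
    simp only [e2, Finset.mul_sum]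
    rw [Finset.sum_comm]
    refine Finset.sum_congr rfl fun s _ => ?_
    exact Ex_ind d.Qr _
  rw [e1]
  refine (Finset.sum_le_sum fun s _ => ratio hQ (d.GA b m (8 * ns + s))
    (d.GA b m (8 * ns + s + 1)) (dgA b d m (8 * ns + s)) _ (dgA_mem b d m (8 * ns + s))
    (fun v v' h => GA_nest b d m h) (fun v v' h h' => GA_sub b d m h h') η hη).trans ?_
  rw [Finset.sum_const, card_range, nsmul_eq_mul, dg_card]
  push_cast
  linarith

/-- The heavy rows. -/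
theorem J1_Jgd {h : ℕ} {u ε₈ : ℝ} (hP : IsLaw d.P) (hJ : (d.toR b).J1 J h u ε₈ ∅) :
    Pr d.P {ω | ¬ Jgd d J h u ω} ≤ ε₈ := by
  classical
  refine le_trans ?_ hJ
  refine Pr_mono hP.nonneg fun ω _ hω => ?_
  by_contra hcon
  refine hω fun j hj => ?_
  by_contra hc2
  exact hcon ⟨j, fun h => h.elim, hj, not_le.1 hc2⟩

theorem AGR_mono {k₅ : ℕ} {Λ : (Fin (n + 1) → d.Om) → Fin n → Fin k → ℝ} {ε ε' : ℝ}
    (h : AGR b d m ns k₅ Λ ε) (hε : ε ≤ ε') : AGR b d m ns k₅ Λ ε' :=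
  fun i hi => (h i hi).trans hε

/-- RowA for a smaller precision. -/
theorem RowA_le {A k' k₁ k₂ : ℕ} {c e e' : ℝ} (hOK : d.OK b A c) (h : RowA b d J m ns k' k₁ e)
    (hk : k₂ ≤ k₁) (he : e ≤ e') : RowA b d J m ns k' k₂ e' := by
  classical
  intro i hi q W hq hW
  refine le_trans ?_ ((h i hi q W hq hW).trans
    (mul_le_mul_of_nonneg_right he (Nat.cast_nonneg d.X)))
  refine Finset.sum_le_sum fun s _ => ?_
  refine Ex_mono (Q4_law hOK i).nonneg fun u hu => ?_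
  by_cases h1 : u ∈ {u | u ∈ W ∧ 0 ≤ (s : ℤ) + q u ∧ ((s : ℤ) + q u).toNat ∈ J u.2.1}
  · rw [Set.indicator_of_mem h1, Set.indicator_of_mem h1]
    refine Pr_mono (fun v => cond_nonneg (Qr_law hOK).nonneg _ _ v) fun v _ hv => ?_
    refine le_trans (zpow_le_zpow_right₀ (by norm_num : (1 : ℝ) ≤ 2) ?_) hv
    have : (k₂ : ℤ) ≤ k₁ := by exact_mod_cast hk
    linarith
  · rw [Set.indicator_of_notMem h1, Set.indicator_of_notMem h1]

/-- The constants. -/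
theorem consts (k n : ℕ) {u ε₉ : ℝ} (hu : 0 < u) (hu1 : u ≤ 1) (hε₉ : 0 < ε₉) :
    ∃ (N₀ : ℕ) (η θ ν α δ θ₁ : ℝ), 8 / u ≤ N₀ ∧ 0 < η ∧ η ≤ 1 ∧ 0 < θ ∧ 0 < ν ∧ 0 < α ∧
      0 < θ₁ ∧ 3 * δ < 1 ∧ 2 * θ / η + ν ≤ δ * ((u / 4) ^ 2 / 16) ∧
      n * (2 / u * (α + (δ + (4 * N₀ ^ 2 + 1) * (α / θ)))) + θ₁ + ν < u / 4 ∧
      2 ^ (k + n) * η * 256 / u ^ 2 ≤ ε₉ / 8 := by
  obtain ⟨N₀, hN₀⟩ := exists_nat_ge (8 / u)
  have hnn : (0 : ℝ) ≤ n := Nat.cast_nonneg n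
  have hn1 : (0 : ℝ) < (n : ℝ) + 1 := by positivity
  -- delta
  obtain ⟨δ, hδ⟩ : ∃ δ : ℝ, δ = u ^ 2 / (64 * (n + 1)) := ⟨_, rfl⟩
  have hδ0 : 0 < δ := by rw [hδ]; positivity
  have hδ1 : n * (2 / u * δ) ≤ u / 32 := by
    have e1 : n * (2 / u * δ) = u / 32 * (n / (n + 1)) := by
      rw [hδ]
      field_simp
      ring
    rw [e1]
    have e2 : (n : ℝ) / (n + 1) ≤ 1 := by
      rw [div_le_one hn1]
      linarith
    nlinarith
  have hδ2 : 3 * δ < 1 := by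
    rw [hδ]
    have e1 : u ^ 2 ≤ 1 := by nlinarith
    have e2 : u ^ 2 / (64 * ((n : ℝ) + 1)) ≤ 1 / 64 := by
      rw [div_le_div_iff₀ (by positivity) (by norm_num)]
      nlinarith
    linarith
  -- eta
  obtain ⟨η, hη⟩ : ∃ η : ℝ, η = min 1 (ε₉ * u ^ 2 / (2048 * 2 ^ (k + n))) := ⟨_, rfl⟩
  have hη0 : 0 < η := by rw [hη]; positivity
  have hη1 : η ≤ 1 := by rw [hη]; exact min_le_left _ _
  have hη2 : η ≤ ε₉ * u ^ 2 / (2048 * 2 ^ (k + n)) := by rw [hη]; exact min_le_right _ _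
  -- nu
  obtain ⟨ν, hν⟩ : ∃ ν : ℝ, ν = δ * ((u / 4) ^ 2 / 32) := ⟨_, rfl⟩
  have hν0 : 0 < ν := by rw [hν]; positivity
  have hν1 : ν ≤ u / 32 := by
    rw [hν]
    have e1 : (u / 4) ^ 2 / 32 ≤ u / 32 := by nlinarith
    have e2 : 0 ≤ (u / 4) ^ 2 / 32 := by positivity
    nlinarith
  -- theta
  obtain ⟨θ, hθ⟩ : ∃ θ : ℝ, θ = η * (δ * ((u / 4) ^ 2 / 64)) := ⟨_, rfl⟩
  have hθ0 : 0 < θ := by rw [hθ]; positivity
  -- alpha
  have hK : (0 : ℝ) < n * (2 / u) * (1 + (4 * N₀ ^ 2 + 1) / θ) + 1 := by positivity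
  obtain ⟨α, hα⟩ : ∃ α : ℝ, α = u / 32 / (n * (2 / u) * (1 + (4 * N₀ ^ 2 + 1) / θ) + 1) :=
    ⟨_, rfl⟩
  have hα0 : 0 < α := by rw [hα]; positivity
  have hα1 : n * (2 / u) * (1 + (4 * N₀ ^ 2 + 1) / θ) * α ≤ u / 32 := by
    have e1 : (n * (2 / u) * (1 + (4 * N₀ ^ 2 + 1) / θ) + 1) * α = u / 32 := by
      rw [hα]
      field_simp
    nlinarith
  refine ⟨N₀, η, θ, ν, α, δ, u / 16, hN₀, hη0, hη1, hθ0, hν0, hα0, by positivity, hδ2, ?_, ?_, ?_⟩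
  · have e1 : 2 * θ / η = δ * ((u / 4) ^ 2 / 32) := by
      rw [hθ]
      field_simp
      ring
    rw [e1, hν]
    apply le_of_eq
    ring
  · have e1 : n * (2 / u * (α + (δ + (4 * N₀ ^ 2 + 1) * (α / θ)))) =
        n * (2 / u) * (1 + (4 * N₀ ^ 2 + 1) / θ) * α + n * (2 / u * δ) := by
      field_simp
      ring
    rw [e1]
    linarith
  · have e1 : 2 ^ (k + n) * η * 256 / u ^ 2 ≤
        2 ^ (k + n) * (ε₉ * u ^ 2 / (2048 * 2 ^ (k + n))) * 256 / u ^ 2 := by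
      gcongr
    refine e1.trans (le_of_eq ?_)
    field_simp
    ring

end Pool.M5.A92
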