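import Pool.Agent.H20.M5.Eff
import Pool.Agent.H92.M5.AlsB

/-!
# L1, row ALS
-/

set_option autoImplicit false

namespace Pool.M5.A92

open Finset Real
open Pool.Agent.H49.Ent Pool.Agent.H32.Dense Pool.STK Pool.KAF Pool.M5T Pool.M5.ALS

/-- **ALS**: the pairs at all scales agree. -/
theorem als_thm : ALSStmt := by
  classical
  intro k n u ε₉ hu hu1 hε₉
  obtain ⟨N₀, η, θ, ν, α, δ, θ₁, hN₀, hη0, hη1, hθ0, hν0, hα0, hθ₁, hδ, hc, hc2, hη2⟩ :=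
    consts k n hu hu1 hε₉
  have hC1 : (0 : ℝ) < 2 / ν + 4 + 4 * (((n : ℝ) + 1) ^ 2 + 3) / α + 16 * (n + 1) + 1 +
    ((n : ℝ) + 1) ^ 2 + 2 := by positivity
  obtain ⟨ε₈, hε₈⟩ : ∃ ε₈ : ℝ, ε₈ = ε₉ / (4 * (2 / ν + 4 + 4 * (((n : ℝ) + 1) ^ 2 + 3) / α +
    16 * (n + 1) + 1 + ((n : ℝ) + 1) ^ 2 + 2)) := ⟨_, rfl⟩
  have hε₈0 : 0 < ε₈ := by rw [hε₈]; positivity
  have hε₈1 : ε₈ * (2 / ν + 4 + 4 * (((n : ℝ) + 1) ^ 2 + 3) / α + 16 * (n + 1) + 1 +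
    ((n : ℝ) + 1) ^ 2 + 2) = ε₉ / 4 := by
    rw [hε₈]
    field_simp
  have hC2 : (0 : ℝ) < 8 / α + 2 / θ₁ := by positivity
  obtain ⟨e₀, he₀⟩ : ∃ e₀ : ℝ, e₀ = ε₉ / (4 * (8 / α + 2 / θ₁)) := ⟨_, rfl⟩
  have he₀0 : 0 < e₀ := by rw [he₀]; positivity
  have he₀1 : e₀ * (8 / α + 2 / θ₁) = ε₉ / 4 := by
    rw [he₀]
    field_simp
  refine ⟨ε₈, hε₈0, fun k₀ a k'' k₅ A => ?_⟩
  obtain ⟨k₁₀, hk₁₀⟩ := pow_unbounded_of_one_lt ((2 : ℝ) ^ (a + k'' + 1 + k₅) *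
    (n * (n * (2 / (2 : ℝ) ^ (-(k₀ : ℤ))) ^ n) * (1 + (14 * N₀ + 2) * (k * 2 ^ a)) + 1))
    (by norm_num : (1 : ℝ) < 2)
  refine ⟨k₁₀, max (8 * (k₁₀ + 3 * n + 1)) (N2.Cr n k₀), e₀, he₀0, ?_⟩
  intro I _ b d J m ns h k' k₁ e c hOK hS hns hk' hk₁ hk₁n he hR hJ1 hSPR hNLC hTA hTB hTC
  have g1 : 8 * (k₁₀ + 3 * n + 1) ≤ ns := (le_max_left _ _).trans hns
  have g2 : N2.Cr n k₀ ≤ ns := (le_max_right _ _).trans hns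
  have hR' := RowA_le (k₂ := k₁₀) hOK hR hk₁ he
  obtain ⟨Λ, hΛ⟩ := als_core (k'' := k'') (i₀ := k₁₀ + 3 * n + 1) (k₁ := k₁₀) (k₅ := k₅) hOK hS
    (by omega) (fun s v v' h => GA_nest b d m h) hu hu1 hN₀ hSPR hη0 hη1 hθ0 hν0 hα0 hθ₁ hδ hc
    hc2 (J1_Jgd hOK.law hJ1) hTC (Bf_mean hOK hη0.le)
    (Af_mean hOK hS g2 hk' (hk₁.trans hk₁n) le_rfl (by omega) hR' he₀0.le hNLC hTA hTB hTC)
    (lv d) (gW b d m ns k₀ a) (fun z hz => lv_le hz)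
    (fun i hi => gW_mean hOK hS hNLC hTA hTC hi)
    (fun i hi => eff hOK hS g2 hk' (hk₁.trans hk₁n) hR' hi) he₀0.le hk₁₀.le
  refine ⟨Λ, AGR_mono hΛ ?_⟩
  have e1 : 2 * ε₈ / ν + 2 ^ (k + n) * η * 256 / u ^ 2 +
      4 * (ε₈ + (2 * e₀ + ((n + 1) ^ 2 + 3) * ε₈) / α) + 16 * (n + 1) * ε₈ +
        ε₈ + ((n + 1) ^ 2 + 2) * ε₈ + 2 * e₀ / θ₁ =
      ε₈ * (2 / ν + 4 + 4 * (((n : ℝ) + 1) ^ 2 + 3) / α + 16 * (n + 1) + 1 +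
        ((n : ℝ) + 1) ^ 2 + 2) + e₀ * (8 / α + 2 / θ₁) + 2 ^ (k + n) * η * 256 / u ^ 2 := by
    ring
  rw [e1, hε₈1, he₀1]
  linarith

end Pool.M5.A92
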