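import Pool.Agent.H21.M5.SprgA
import Pool.Agent.H92.M5.AlsG

/-!
# The row SPRG of the pure part of M5
-/

set_option autoImplicit false

namespace Pool.M5.SG92

open Finset Real
open Pool.Agent.H49.Ent Pool.Agent.H32.Dense Pool.STK Pool.KAF
open Pool.M5.N2 Pool.M5.ALS Pool.M5.A92 Pool.M5T Pool.M5.SG

variable {k n : ℕ} {I : Type} [Fintype I] {b : Bas k I} {d : LDat k n I}

/-- The pairs of one line. -/
theorem Pr_pairs {A : ℕ} {c : ℝ} (hOK : d.OK b A c) (i : ℕ) (v : Fin (n + 1) → d.Om)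
    (E : Set (d.Om × d.Om)) :
    Pr (cond (d.Qp i) (fun w => d.L w.1) (d.L (v 0))) E =
      Ex (pk d v) (fun ω => Pr (qk d i ω) {ω' | (ω, ω') ∈ E}) := by
  classical
  rw [← Ex_ind]
  unfold Ex
  rw [Fintype.sum_prod_type]
  refine Finset.sum_congr rfl fun ω _ => ?_
  beta_reduce
  have h1 := Ex_ind (qk d i ω) {ω' | (ω, ω') ∈ E}
  rw [← h1]
  unfold Ex
  rw [Finset.mul_sum]
  refine Finset.sum_congr rfl fun ω' _ => ?_
  have h2 : (if (ω, ω') ∈ E then (1 : ℝ) else 0) =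
      (if ω' ∈ {ω' | (ω, ω') ∈ E} then (1 : ℝ) else 0) := by
    by_cases h : (ω, ω') ∈ E
    · rw [if_pos h, if_pos (show ω' ∈ {ω' | (ω, ω') ∈ E} from h)]
    · rw [if_neg h, if_neg (show ¬ ω' ∈ {ω' | (ω, ω') ∈ E} from h)]
  rw [h2, ← mul_assoc]
  congr 1
  have h3 := law_Qp hOK i (d.L (v 0))
  unfold pk qk Pool.Agent.H49.Ent.cond
  rw [h3]
  unfold LDat.Qp Pool.Agent.H32.Dense.dbl glue
  by_cases h : d.L ω = d.L (v 0)
  · rw [if_pos h, if_pos h]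
    by_cases h' : (d.L ω, d.Ti i ω) = (d.L ω', d.Ti i ω')
    · rw [if_pos h', if_pos h'.symm]
      ring
    · rw [if_neg h', if_neg (fun h'' => h' h''.symm)]
      ring
  · rw [if_neg h, if_neg h, zero_mul]

theorem G1_eq {A : ℕ} {c : ℝ} (hOK : d.OK b A c) (m : (Fin (n + 1) → d.Om) → ℤ) (ns : ℕ)
    (v : Fin (n + 1) → d.Om) :
    d.fq b (8 * ns) ns v ((2 : ℝ) ^ (1 - m v)) = G1 b d m ns v := by
  unfold LDat.fq G1
  exact Finset.sum_congr rfl fun i _ => Pr_pairs hOK i v _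

/-- The mean over the references of an event of pairs. -/
theorem Ex_pairs {A : ℕ} {c : ℝ} (hOK : d.OK b A c) (i : ℕ) (E : Set (d.Om × d.Om)) :
    Ex d.Qr (fun v => Ex (pk d v) (fun ω => Pr (qk d i ω) {ω' | (ω, ω') ∈ E})) =
      Pr (d.Qp i) E := by
  classical
  rw [← Pr_marg (Q4_snd hOK i) E, ← Ex_ind, Ex_Q4 hOK]
  unfold Ex
  refine Finset.sum_congr rfl fun v _ => ?_
  congr 1
  refine Finset.sum_congr rfl fun ω _ => ?_
  congr 1
  have h1 := Ex_ind (qk d i ω) {ω' | (ω, ω') ∈ E}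
  beta_reduce
  rw [← h1]
  unfold Ex
  refine Finset.sum_congr rfl fun ω' _ => ?_
  congr 1

/-- The sum of the heavy rows which are hit. -/
theorem Fh_sum {A : ℕ} {c e : ℝ} (hOK : d.OK b A c) {ns h k' k₁ k₀ : ℕ}
    {m : (Fin (n + 1) → d.Om) → ℤ} {J : d.Om → Set ℕ} (hS : Siz b d ns h m c)
    (hCr : Cr n k₀ ≤ ns) (hk' : k + 2 * n + 6 ≤ k') (hR : RowA b d J m ns k' k₁ e) {i : ℕ}
    (hi : i < ns) :
    ∑ s ∈ Finset.Ico (8 * ns) (d.X - 8 * ns), Ex (d.Q4 i) (Fh b d J m ns k₀ k₁ i s) ≤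
      e * d.X := by
  classical
  have h1 := hR i (by omega) (fun u => m u.1 + i) (Wp b d m ns k₀) (by
    intro u u' _ _ g1 g2 g3 g4 g5
    refine ⟨by show m u.1 + (i : ℤ) = m u'.1 + i; rw [g4], ?_⟩
    unfold Wp
    simp only [Set.mem_ofPred_eq]
    rw [sep_congr (k₀ := k₀) g1, ta_congr g2 g3, gr_congr g1 g2 g3 g5, g4]) (by
    intro u v s hu _ hW hs hG
    have hTi := (Qp_pos hOK (Q4_pos hOK hu).2.1).2.2.2
    exact dZ_le hOK hS hCr hs hk' hW (Pool.M5.SG.ta_le hTi) hG)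
  refine le_trans (le_of_eq ?_) h1
  refine Finset.sum_congr rfl fun s _ => ?_
  congr 1
  funext u
  unfold Fh
  by_cases h2 : u ∈ Wp b d m ns k₀ ∧ 0 ≤ (s : ℤ) + (m u.1 + i) ∧
      ((s : ℤ) + (m u.1 + i)).toNat ∈ J u.2.1
  · rw [if_pos h2, Set.indicator_of_mem (show u ∈ {u | u ∈ Wp b d m ns k₀ ∧
      0 ≤ (s : ℤ) + (m u.1 + i) ∧ ((s : ℤ) + (m u.1 + i)).toNat ∈ J u.2.1} from h2)]
    rfl
  · rw [if_neg h2, Set.indicator_of_notMem (show ¬ u ∈ {u | u ∈ Wp b d m ns k₀ ∧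
      0 ≤ (s : ℤ) + (m u.1 + i) ∧ ((s : ℤ) + (m u.1 + i)).toNat ∈ J u.2.1} from h2)]

end Pool.M5.SG92

namespace Pool.M5

open Finset Real
open Pool.Agent.H49.Ent Pool.Agent.H32.Dense Pool.STK Pool.KAF
open Pool.M5.N2 Pool.M5.ALS Pool.M5.A92 Pool.M5T Pool.M5.SG Pool.M5.SG92

/-- **SPRG** from SPAN. -/
theorem sprg_of (hSPAN : SPANStmt) : SPRGStmt := by
  classical
  intro k n u ε hu hu1 hε
  refine ⟨ε / (64 * (n + 1)), by positivity, fun k₀ => ?_⟩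
  obtain ⟨B, i₀, hB, hSP⟩ := hSPAN n k₀
  refine ⟨B, hB, fun K e' he' => ⟨ε * u / 1024, ε * u * e' / 1024, by positivity, by positivity,
    fun k'' A => ⟨k'' + K + 1, Cr n k₀ + 4 * i₀ + k'' + 64, ?_⟩⟩⟩
  intro I _ b d J m ns h k' k₁ e c hOK hS hns hk' hk₁ hk₁n he hR hJ1 hfq hTA hTB hTC
  have hQ := Qr_law hOK
  have h1 := hS.h1
  have h2 := hS.hn
  have h3 := hS.nX
  have hns0 : (0 : ℝ) < ns := by exact_mod_cast (show 0 < ns by omega)
  have hX0 : (0 : ℝ) ≤ d.X := Nat.cast_nonneg _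
  have hpk : ∀ v, 0 < d.Qr v → IsLaw (pk d v) := fun v hv =>
    isLaw_cnd hOK.law d.L (((Qr_pos hOK).1 hv).1 0)
  have hqk : ∀ v, 0 < d.Qr v → ∀ i ω, 0 < pk d v ω → IsLaw (qk d i ω) := by
    intro v _ i ω hω
    exact isLaw_cnd hOK.law (fun v => (d.L v, d.Ti i v))
      ((cond_pos_iff hOK.law.nonneg d.L (d.L (v 0)) ω).1 hω).1
  -- the exceptional references
  have p1 : Pr d.Qr {v | u / 32 * ns < G1 b d m ns v} ≤ ε * u / 1024 := by
    refine le_trans (le_of_eq ?_) hfq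
    congr 1
    ext v
    rw [Set.mem_ofPred_eq, Set.mem_ofPred_eq, G1_eq hOK]
  have p2 : Pr d.Qr {v | 1 / 64 < Pr (pk d v) (Jb b d J h u)} ≤ (ε * u / 1024) / (1 / 64) := by
    refine Pr_gt hQ.nonneg _ (fun v hv => Pool.KAF.Pr_nonneg (hpk v hv).nonneg _)
      (by norm_num) ?_
    refine le_trans (le_of_eq ?_) hJ1
    show _ = Pr d.P (Jb b d J h u)
    rw [← Ex_ind d.P (Jb b d J h u), ← Ex_base hOK]
    unfold Ex
    refine Finset.sum_congr rfl fun v _ => ?_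
    congr 1
    have h5 := Ex_ind (pk d v) (Jb b d J h u)
    unfold Ex at h5
    exact h5.symm
  have p3 : Pr d.Qr {v | u / 128 * ns < G3 d ns k'' v} ≤
      (ε * u / 1024 * ns) / (u / 128 * ns) := by
    refine Pr_gt hQ.nonneg _ (fun v hv => ?_) (by positivity) ?_
    · unfold G3
      exact Finset.sum_nonneg fun i _ => Ex_nonneg (hpk v hv).nonneg fun ω hω =>
        Pool.KAF.Pr_nonneg (hqk v hv i ω hω).nonneg _
    · have e1 : Ex d.Qr (G3 d ns k'') = ∑ i ∈ range ns,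
          Pr (d.Qp i) {w | |d.ta w| < (2 : ℝ) ^ (-((i : ℤ) + k''))} := by
        unfold G3
        have e2 : ∀ i, Pr (d.Qp i) {w | |d.ta w| < (2 : ℝ) ^ (-((i : ℤ) + k''))} =
            Ex d.Qr (fun v => Ex (pk d v) (fun ω => Pr (qk d i ω)
              {ω' | |d.ta (ω, ω')| < (2 : ℝ) ^ (-((i : ℤ) + k''))})) := fun i =>
          (Ex_pairs hOK i {w | |d.ta w| < (2 : ℝ) ^ (-((i : ℤ) + k''))}).symm
        simp only [e2]
        unfold Ex
        simp only [Finset.mul_sum]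
        rw [Finset.sum_comm]
      rw [e1]
      have e3 := hTB 0 ns (by omega) (by omega)
      rw [Finset.range_eq_Ico]
      refine e3.trans (le_of_eq ?_)
      push_cast
      ring
  have p4 : Pr d.Qr {v | 1 / (16 * ((n : ℝ) + 1)) < G4 d k₀ v} ≤
      (ε / (64 * (n + 1))) / (1 / (16 * (n + 1))) := by
    refine Pr_gt hQ.nonneg _ (fun v hv => ?_) (by positivity) (near_mean hOK hTC)
    exact Ex_nonneg (hpk v hv).nonneg fun ω _ => Pool.KAF.Pr_nonneg (hpk v hv).nonneg _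
  have hFh0 : ∀ i s z, 0 < d.Q4 i z → 0 ≤ Fh b d J m ns k₀ k₁ i s z := by
    intro i s z _
    unfold Fh hit
    split_ifs
    · exact Pool.KAF.Pr_nonneg (fun v' => cond_nonneg hQ.nonneg _ _ v') _
    · exact le_rfl
  have hG5 : ∀ s, Ex d.Qr (G5 b d J m ns k₀ k₁ s) =
      ∑ i ∈ range ns, Ex (d.Q4 i) (Fh b d J m ns k₀ k₁ i s) := by
    intro s
    unfold G5
    have e2 : ∀ i, Ex (d.Q4 i) (Fh b d J m ns k₀ k₁ i s) =
        Ex d.Qr (fun v => Ex (pk d v) (fun ω => Ex (qk d i ω)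
          (fun ω' => Fh b d J m ns k₀ k₁ i s (v, (ω, ω'))))) := fun i => Ex_Q4 hOK i _
    simp only [e2]
    unfold Ex
    simp only [Finset.mul_sum]
    rw [Finset.sum_comm]
  have hG50 : ∀ s v, 0 < d.Qr v → 0 ≤ G5 b d J m ns k₀ k₁ s v := by
    intro s v hv
    unfold G5
    refine Finset.sum_nonneg fun i _ => Ex_nonneg (hpk v hv).nonneg fun ω hω =>
      Ex_nonneg (hqk v hv i ω hω).nonneg fun ω' _ => ?_
    unfold Fh hit
    split_ifs
    · exact Pool.KAF.Pr_nonneg (fun v' => cond_nonneg hQ.nonneg _ _ v') _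
    · exact le_rfl
  have p5 : ∀ s, Pr d.Qr {v | u / 128 * e' * ns < G5 b d J m ns k₀ k₁ s v} ≤
      Ex d.Qr (G5 b d J m ns k₀ k₁ s) / (u / 128 * e' * ns) := fun s =>
    Pr_gt hQ.nonneg _ (fun v hv => hG50 s v hv) (by positivity) le_rfl
  have p5s : ∑ s ∈ Finset.Ico (8 * ns) (d.X - 8 * ns),
      Pr d.Qr {v | u / 128 * e' * ns < G5 b d J m ns k₀ k₁ s v} ≤ ε / 8 * d.X := by
    refine (Finset.sum_le_sum fun s _ => p5 s).trans ?_
    rw [← Finset.sum_div]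
    have e1 : ∑ s ∈ Finset.Ico (8 * ns) (d.X - 8 * ns), Ex d.Qr (G5 b d J m ns k₀ k₁ s) ≤
        ns * (e * d.X) := by
      simp only [hG5]
      rw [Finset.sum_comm]
      refine (Finset.sum_le_sum fun i hi => Fh_sum hOK hS (by omega) hk' hR
        (mem_range.1 hi)).trans (le_of_eq ?_)
      rw [Finset.sum_const, card_range, nsmul_eq_mul]
    rw [div_le_iff₀ (by positivity)]
    refine e1.trans ?_
    have e2 : e * d.X ≤ ε * u * e' / 1024 * d.X := mul_le_mul_of_nonneg_right he hX0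
    refine (mul_le_mul_of_nonneg_left e2 hns0.le).trans (le_of_eq ?_)
    ring
  -- the cells
  have hcell : ∀ s ∈ Finset.Ico (8 * ns) (d.X - 8 * ns), Pr d.Qr {v | d.sep k₀ v ∧
      ¬ Pool.SLO.Gd B d.Qr (d.lb m) d.yv (d.bv b m k₀) K e' s v} ≤
      Pr d.Qr {v | u / 32 * ns < G1 b d m ns v} +
      (Pr d.Qr {v | 1 / 64 < Pr (pk d v) (Jb b d J h u)} +
      (Pr d.Qr {v | u / 128 * ns < G3 d ns k'' v} +
      (Pr d.Qr {v | 1 / (16 * ((n : ℝ) + 1)) < G4 d k₀ v} +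
      Pr d.Qr {v | u / 128 * e' * ns < G5 b d J m ns k₀ k₁ s v}))) := by
    intro s hs
    have hs' := mem_Ico.1 hs
    refine (Pr_or hQ.nonneg (B := {v | u / 32 * ns < G1 b d m ns v})
      (C := {v | 1 / 64 < Pr (pk d v) (Jb b d J h u) ∨ u / 128 * ns < G3 d ns k'' v ∨
        1 / (16 * ((n : ℝ) + 1)) < G4 d k₀ v ∨ u / 128 * e' * ns < G5 b d J m ns k₀ k₁ s v})
      ?_).trans (add_le_add le_rfl ?_)
    · intro v hv hbad
      by_contra hcon
      simp only [Set.mem_ofPred_eq, not_or, not_lt] at hcon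
      obtain ⟨q1, q2, q3, q4, q5⟩ := hcon
      exact hbad.2 (one_cell hSP b d J m A ns h k₁ k'' K s u e' c hOK hS hu he' (by omega)
        (by omega) hk₁ hk₁n hs'.1 hs'.2 v hv hbad.1 q1 q2 q3 q4 q5)
    refine (Pr_or hQ.nonneg (B := {v | 1 / 64 < Pr (pk d v) (Jb b d J h u)})
      (C := {v | u / 128 * ns < G3 d ns k'' v ∨
        1 / (16 * ((n : ℝ) + 1)) < G4 d k₀ v ∨ u / 128 * e' * ns < G5 b d J m ns k₀ k₁ s v})
      fun _ _ h => h).trans (add_le_add le_rfl ?_)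
    refine (Pr_or hQ.nonneg (B := {v | u / 128 * ns < G3 d ns k'' v})
      (C := {v | 1 / (16 * ((n : ℝ) + 1)) < G4 d k₀ v ∨
        u / 128 * e' * ns < G5 b d J m ns k₀ k₁ s v})
      fun _ _ h => h).trans (add_le_add le_rfl ?_)
    exact Pr_or hQ.nonneg (B := {v | 1 / (16 * ((n : ℝ) + 1)) < G4 d k₀ v})
      (C := {v | u / 128 * e' * ns < G5 b d J m ns k₀ k₁ s v}) fun _ _ h => h
  refine (Finset.sum_le_sum hcell).trans ?_
  rw [Finset.sum_add_distrib, Finset.sum_add_distrib, Finset.sum_add_distrib,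
    Finset.sum_add_distrib, Finset.sum_const, Finset.sum_const, Finset.sum_const,
    Finset.sum_const, Nat.card_Ico, nsmul_eq_mul, nsmul_eq_mul, nsmul_eq_mul, nsmul_eq_mul]
  have hcard : ((d.X - 8 * ns - 8 * ns : ℕ) : ℝ) ≤ d.X := by
    exact_mod_cast (show d.X - 8 * ns - 8 * ns ≤ d.X by omega)
  have hcard0 : (0 : ℝ) ≤ ((d.X - 8 * ns - 8 * ns : ℕ) : ℝ) := Nat.cast_nonneg _
  have q1 : Pr d.Qr {v | u / 32 * ns < G1 b d m ns v} ≤ ε / 8 := by
    refine p1.trans ?_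
    nlinarith
  have q2 : Pr d.Qr {v | 1 / 64 < Pr (pk d v) (Jb b d J h u)} ≤ ε / 8 := by
    refine p2.trans ?_
    have : ε * u / 1024 / (1 / 64) = ε * u / 16 := by ring
    rw [this]
    nlinarith
  have q3 : Pr d.Qr {v | u / 128 * ns < G3 d ns k'' v} ≤ ε / 8 := by
    refine p3.trans (le_of_eq ?_)
    field_simp
    ring
  have q4 : Pr d.Qr {v | 1 / (16 * ((n : ℝ) + 1)) < G4 d k₀ v} ≤ ε / 4 := by
    refine p4.trans (le_of_eq ?_)
    field_simp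
    ring
  have r : ∀ {x y : ℝ}, 0 ≤ y → x ≤ y → ((d.X - 8 * ns - 8 * ns : ℕ) : ℝ) * x ≤ d.X * y := by
    intro x y hy hxy
    exact (mul_le_mul_of_nonneg_left hxy hcard0).trans (mul_le_mul_of_nonneg_right hcard hy)
  have r1 := r (by positivity) q1
  have r2 := r (by positivity) q2
  have r3 := r (by positivity) q3
  have r4 := r (by positivity) q4
  nlinarith

end Pool.M5
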