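import Pool.Agent.H54.M5.Span
import Pool.Agent.H92.M5.Sprg

/-!
# The row SPRG of the pure part of M5: conclusion
-/

set_option autoImplicit false

namespace Pool.M5

/-- **SPRG**: in most cells there are `n` spanning forms which are almost constant. -/
theorem sprg_thm : SPRGStmt := sprg_of span_thm

end Pool.M5
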