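import Mathlib.LinearAlgebra.Lagrange
import Mathlib.Data.Real.Basic
import Mathlib.Analysis.Normed.Ring.Lemmas

/-!
# Interpolation at separated nodes, bounded coefficients
-/

set_option autoImplicit false

namespace Pool.M5

open Finset Polynomial

/-- Coefficients of a product of linear factors. -/
theorem coeff_prod_le {ι : Type*} (s : Finset ι) (α β : ι → ℝ) (K : ℝ) (hK : 0 ≤ K)
    (hα : ∀ i ∈ s, |α i| ≤ K) (hβ : ∀ i ∈ s, |β i| ≤ 1) (a : ℕ) :
    |(∏ i ∈ s, (C (α i) * (X - C (β i)))).coeff a| ≤ (2 * K) ^ s.card := by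
  classical
  induction s using Finset.induction_on generalizing a with
  | empty =>
    rw [Finset.prod_empty, Finset.card_empty, pow_zero, coeff_one]
    split_ifs <;> norm_num
  | insert i s hi ih =>
    rw [Finset.prod_insert hi, Finset.card_insert_of_notMem hi]
    set q := ∏ j ∈ s, (C (α j) * (X - C (β j))) with hq
    have ih' := ih (fun j hj => hα j (mem_insert_of_mem hj)) fun j hj => hβ j (mem_insert_of_mem hj)
    have h1 : (C (α i) * (X - C (β i)) * q).coeff a =
        α i * ((X * q).coeff a - β i * q.coeff a) := by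
      rw [mul_assoc, coeff_C_mul, sub_mul, coeff_sub, coeff_C_mul]
    rw [h1, abs_mul]
    have h2 : |(X * q).coeff a| ≤ (2 * K) ^ s.card := by
      cases a with
      | zero =>
        rw [coeff_X_mul_zero, abs_zero]
        positivity
      | succ a =>
        rw [coeff_X_mul]
        exact ih' a
    have h3 : |β i * q.coeff a| ≤ (2 * K) ^ s.card := by
      rw [abs_mul]
      have g1 := mul_le_mul (hβ i (mem_insert_self i s)) (ih' a) (abs_nonneg _) zero_le_one
      rwa [one_mul] at g1
    have h4 := abs_sub ((X * q).coeff a) (β i * q.coeff a)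
    have h5 : |(X * q).coeff a - β i * q.coeff a| ≤ 2 * (2 * K) ^ s.card := by linarith
    calc |α i| * |(X * q).coeff a - β i * q.coeff a| ≤ K * (2 * (2 * K) ^ s.card) :=
          mul_le_mul (hα i (mem_insert_self i s)) h5 (abs_nonneg _) hK
      _ = (2 * K) ^ (s.card + 1) := by ring

/-- The coefficients of the interpolation at `n` separated nodes. -/
theorem exists_coeffs (n : ℕ) (t : Fin n → ℝ) (κ : ℝ) (hκ : 0 < κ) (hκ1 : κ ≤ 1)
    (ht : ∀ i, |t i| ≤ 1) (hsep : ∀ i j, i ≠ j → κ ≤ |t i - t j|) :
    ∃ γ : Fin n → Fin n → ℝ, (∀ p a, |γ p a| ≤ (2 / κ) ^ n) ∧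
      ∀ a b : Fin n, ∑ p, γ p a * t p ^ (b : ℕ) = if a = b then 1 else 0 := by
  classical
  have hinj : Set.InjOn t (univ : Finset (Fin n)) := by
    intro i _ j _ hij
    by_contra hne
    have := hsep i j hne
    rw [hij, sub_self, abs_zero] at this
    linarith
  refine ⟨fun p a => (Lagrange.basis univ t p).coeff a, fun p a => ?_, fun a b => ?_⟩
  · have h1 := coeff_prod_le ((univ : Finset (Fin n)).erase p) (fun j => (t p - t j)⁻¹) t κ⁻¹
      (by positivity) (fun j hj => by
        rw [abs_inv]
        exact inv_anti₀ hκ (hsep p j (ne_of_mem_erase hj).symm)) (fun j _ => ht j) a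
    have h2 : Lagrange.basis univ t p =
        ∏ j ∈ (univ : Finset (Fin n)).erase p, (C ((t p - t j)⁻¹) * (X - C (t j))) := rfl
    show |(Lagrange.basis univ t p).coeff a| ≤ (2 / κ) ^ n
    rw [h2]
    refine h1.trans ?_
    have h3 : 2 * κ⁻¹ = 2 / κ := by ring
    rw [h3]
    refine pow_le_pow_right₀ ?_ ?_
    · rw [le_div_iff₀ hκ]
      linarith
    · refine (card_erase_le).trans ?_
      rw [card_univ, Fintype.card_fin]
  · have h1 : (X : ℝ[X]) ^ (b : ℕ) =
        Lagrange.interpolate univ t (fun p => eval (t p) (X ^ (b : ℕ))) := by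
      refine Lagrange.eq_interpolate (f := (X : ℝ[X]) ^ (b : ℕ)) hinj ?_
      rw [degree_X_pow, card_univ, Fintype.card_fin]
      exact_mod_cast b.isLt
    have h2 := congrArg (fun q => coeff q (a : ℕ)) h1
    simp only [Lagrange.interpolate_apply, finsetSum_coeff, coeff_C_mul, eval_pow, eval_X,
      coeff_X_pow] at h2
    rw [Finset.sum_congr rfl fun p _ => mul_comm _ _, ← h2]
    by_cases hab : a = b
    · rw [if_pos hab, if_pos (by rw [hab])]
    · rw [if_neg hab, if_neg (fun h => hab (Fin.ext h))]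

end Pool.M5
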