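import Pool.Agent.H92.M5.Tools

/-!
# Density of the heavy rows, shifted
-/

set_option autoImplicit false

namespace Pool.M5

open Finset Real
open Pool.Agent.H49.Ent Pool.Agent.H32.Dense Pool.STK Pool.KAF Pool.M5T

open Classical in
/-- Density of the rows in all long intervals, shifted by an integer. -/
theorem dens_shift {S : Set ℕ} {h X : ℕ} {u : ℝ} (hu : 0 ≤ u) (hh : 1 ≤ h)
    (hS : ∀ j : ℕ, (j + 2) * h ≤ X →
      u * h ≤ (Set.ncard {r | r ∈ S ∧ j * h ≤ r ∧ r < (j + 1) * h} : ℝ))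
    (M : ℤ) (hM : 0 ≤ M) (R₁ R₂ : ℕ) (h12 : R₁ + 4 * h ≤ R₂) (hX : M + R₂ + h ≤ X) :
    u / 2 * ((R₂ : ℝ) - R₁) ≤
      (((Finset.Ico R₁ R₂).filter (fun j : ℕ => (M + (j : ℤ)).toNat ∈ S)).card : ℝ) := by
  obtain ⟨N, hN⟩ : ∃ N : ℕ, (N : ℤ) = M := ⟨M.toNat, Int.toNat_of_nonneg hM⟩
  have h4 := dens (S := S) (X := X) hu hh hS (N + R₁) (N + R₂) (by omega) (by omega)
  have h5 : ((N + R₂ : ℕ) : ℝ) - ((N + R₁ : ℕ) : ℝ) = (R₂ : ℝ) - R₁ := by push_cast; ring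
  rw [h5] at h4
  refine h4.trans ?_
  have h6 : ((Finset.Ico (N + R₁) (N + R₂)).filter (· ∈ S)).card ≤
      ((Finset.Ico R₁ R₂).filter (fun j : ℕ => (M + (j : ℤ)).toNat ∈ S)).card := by
    refine Finset.card_le_card_of_injOn (fun r => r - N) ?_ ?_
    · intro r hr
      obtain ⟨g1, g2⟩ := mem_filter.1 hr
      have g3 := mem_Ico.1 g1
      refine mem_filter.2 ⟨mem_Ico.2 ⟨show R₁ ≤ r - N by omega, show r - N < R₂ by omega⟩, ?_⟩
      have g4 : (M + ((r - N : ℕ) : ℤ)).toNat = r := by omega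
      show (M + ((r - N : ℕ) : ℤ)).toNat ∈ S
      rw [g4]
      exact g2
    · intro r hr r' hr' hrr
      have g3 := mem_Ico.1 (mem_filter.1 hr).1
      have g4 := mem_Ico.1 (mem_filter.1 hr').1
      have g5 : r - N = r' - N := hrr
      omega
  exact_mod_cast h6

end Pool.M5
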