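import Pool.Agent.H48.M5.Stmts

/-!
# L1, row ALS: definitions
-/

set_option autoImplicit false

namespace Pool.M5

open Finset Real
open Pool.Agent.H49.Ent Pool.Agent.H32.Dense Pool.STK Pool.KAF

namespace ALS

variable {k n : ℕ} {I : Type} [Fintype I] (b : Bas k I) (d : LDat k n I) (J : d.Om → Set ℕ)
  (m : (Fin (n + 1) → d.Om) → ℤ) (ns : ℕ)

/-- The copies in the cell. -/
noncomputable def rk (s : ℕ) (v : Fin (n + 1) → d.Om) : (Fin (n + 1) → d.Om) → ℝ :=
  cond d.Qr (d.GA b m (8 * ns + s)) (d.GA b m (8 * ns + s) v)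

/-- The samples of the line. -/
noncomputable def pk (v : Fin (n + 1) → d.Om) : d.Om → ℝ := cond d.P d.L (d.L (v 0))

/-- The partners at the scale `i`. -/
noncomputable def qk (i : ℕ) (ω : d.Om) : d.Om → ℝ :=
  cond d.P (fun v => (d.L v, d.Ti i v)) (d.L ω, d.Ti i ω)

/-- The spread of the tangential position. -/
noncomputable def Yk (a s : ℕ) : ℝ := (2 : ℝ) ^ (-(((8 * ns + s : ℕ) : ℤ) + a))

/-- The value of a covector at the displacement of a copy. -/
noncomputable def Bp (v : Fin (n + 1) → d.Om) (ξ : Fin k → ℝ) (v' : Fin (n + 1) → d.Om) : ℝ :=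
  ∑ j, ξ j * (d.yR (d.L (v' 0)) j - d.yR (d.L (v 0)) j)

/-- The displacement of the unknown numbers of a copy. -/
noncomputable def cp (v v' : Fin (n + 1) → d.Om) (a : Fin n) : ℝ := d.cs b v' a - d.cs b v a

/-- The slope of a pair. -/
noncomputable def ch (v : Fin (n + 1) → d.Om) (w : d.Om × d.Om) : Fin k → ℝ :=
  fun j => d.gr b (8 * ns) (v, w) j / d.ta w

/-- The heavy rows of the base, shifted by the label. -/
def Jf (v : Fin (n + 1) → d.Om) (ω : d.Om) : Set ℕ :=
  {j | (((8 * ns + j : ℕ) : ℤ) + m v).toNat ∈ J ω}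

/-- The precision of the slopes. -/
noncomputable def hk (a k'' k₁ : ℕ) (v : Fin (n + 1) → d.Om) : ℝ :=
  (2 : ℝ) ^ ((a : ℤ) + k'' + 1 - m v - k₁)

end ALS

end Pool.M5
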