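import Pool.Agent.H70.K2.AVG


/-!
# Pairs of samples as kernels, blocks of rows, cells and their subcells (copy of helper20, own namespace)
-/

set_option autoImplicit false

namespace Pool.M5T

open Finset Real
open Pool.Agent.H49.Ent Pool.Agent.H32.Dense Pool.STK Pool.KAF

section

variable {Ω S T : Type} [Fintype Ω]

/-- Two copies: one after the other. -/
theorem Ex_dbl {p : Ω → ℝ} (W : Ω → T) (f : Ω × Ω → ℝ) :
    Ex (dbl p W) f = Ex p (fun ω => Ex (cond p W (W ω)) (fun ω' => f (ω, ω'))) := by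
  classical
  unfold Ex
  rw [Fintype.sum_prod_type]
  refine Finset.sum_congr rfl fun ω _ => ?_
  rw [Finset.mul_sum]
  refine Finset.sum_congr rfl fun ω' _ => ?_
  unfold Pool.Agent.H32.Dense.dbl glue Pool.Agent.H49.Ent.cond
  by_cases h : W ω = W ω'
  · rw [if_pos h, if_pos h.symm]
    ring
  · rw [if_neg h, if_neg (fun h' => h h'.symm)]
    ring

theorem Ex_ind (p : Ω → ℝ) (E : Set Ω) [DecidablePred (· ∈ E)] :
    Ex p (fun ω => if ω ∈ E then (1 : ℝ) else 0) = Pr p E := by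
  rw [Pool.KAF.Pr_eq]
  unfold Ex
  refine Finset.sum_congr rfl fun ω _ => ?_
  by_cases h : ω ∈ E
  · simp only [if_pos h, mul_one]
  · simp only [if_neg h, mul_zero]

theorem Pr_dbl {p : Ω → ℝ} (W : Ω → T) (E : Set (Ω × Ω)) :
    Pr (dbl p W) E = Ex p (fun ω => Pr (cond p W (W ω)) {ω' | (ω, ω') ∈ E}) := by
  classical
  rw [← Ex_ind, Ex_dbl]
  unfold Ex
  refine Finset.sum_congr rfl fun ω _ => ?_
  congr 1
  have h := Ex_ind (cond p W (W ω)) {ω' | (ω, ω') ∈ E}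
  unfold Ex at h
  exact h

theorem Ex_mono' {p : Ω → ℝ} (hp : ∀ ω, 0 ≤ p ω) {f g : Ω → ℝ} (h : ∀ ω, 0 < p ω → f ω ≤ g ω) :
    Ex p f ≤ Ex p g := Ex_mono hp h

theorem isLaw_cnd {p : Ω → ℝ} (hp : IsLaw p) (c : Ω → S) {ω : Ω} (hω : 0 < p ω) :
    IsLaw (cond p c (c ω)) :=
  ⟨fun v => cond_nonneg hp.nonneg c _ v, sum_cond p c (law_pos hp.nonneg c hω).ne'⟩

/-- Markov. -/
theorem Pr_gt {p : Ω → ℝ} (hp : ∀ ω, 0 ≤ p ω) (f : Ω → ℝ) (hf : ∀ ω, 0 < p ω → 0 ≤ f ω)
    {a e : ℝ} (ha : 0 < a) (he : Ex p f ≤ e) : Pr p {ω | a < f ω} ≤ e / a := by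
  classical
  rw [le_div_iff₀ ha, Pool.KAF.Pr_eq]
  refine le_trans ?_ he
  unfold Ex
  rw [Finset.sum_mul]
  refine Finset.sum_le_sum fun ω _ => ?_
  rcases (hp ω).eq_or_lt with h0 | h0
  · rw [← h0]
    simp
  by_cases h : a < f ω
  · rw [if_pos (show ω ∈ {ω | a < f ω} from h)]
    exact mul_le_mul_of_nonneg_left h.le h0.le
  · rw [if_neg (show ω ∉ {ω | a < f ω} from h), zero_mul]
    exact mul_nonneg h0.le (hf ω h0)

/-- Union bound for two events. -/
theorem Pr_or {p : Ω → ℝ} (hp : ∀ ω, 0 ≤ p ω) {A B C : Set Ω}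
    (h : ∀ ω, 0 < p ω → ω ∈ A → ω ∈ B ∨ ω ∈ C) : Pr p A ≤ Pr p B + Pr p C := by
  classical
  rw [Pool.KAF.Pr_eq, Pool.KAF.Pr_eq, Pool.KAF.Pr_eq, ← Finset.sum_add_distrib]
  refine Finset.sum_le_sum fun ω _ => ?_
  rcases (hp ω).eq_or_lt with h0 | h0
  · rw [← h0]
    simp
  by_cases h1 : ω ∈ A
  · rw [if_pos h1]
    rcases h ω h0 h1 with h2 | h2
    · rw [if_pos h2]
      split_ifs <;> linarith
    · rw [if_pos h2]
      split_ifs <;> linarith
  · rw [if_neg h1]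
    split_ifs <;> linarith

/-- The event of the first sample of a pair. -/
theorem Pr_dbl_fst {p : Ω → ℝ} (hp : IsLaw p) (W : Ω → T) (E : Set Ω) :
    Pr (dbl p W) {w | w.1 ∈ E} = Pr p E := by
  classical
  rw [Pr_dbl, ← Ex_ind]
  unfold Ex
  refine Finset.sum_congr rfl fun ω _ => ?_
  rcases (hp.nonneg ω).eq_or_lt with h0 | h0
  · rw [← h0, zero_mul, zero_mul]
  congr 1
  beta_reduce
  rw [Pool.KAF.Pr_eq]
  by_cases h : ω ∈ E
  · simp only [Set.mem_ofPred_eq, if_pos h]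
    exact (isLaw_cnd hp W h0).sum_one
  · simp only [Set.mem_ofPred_eq, if_neg h]
    exact Finset.sum_const_zero

end

/-! ### blocks of rows -/

open Classical in
theorem dens_blocks (S : Set ℕ) (h j₁ : ℕ) (c : ℝ) :
    ∀ k : ℕ, (∀ j, j₁ ≤ j → j < j₁ + k →
      c ≤ (((Finset.Ico (j * h) ((j + 1) * h)).filter (· ∈ S)).card : ℝ)) →
    k * c ≤ (((Finset.Ico (j₁ * h) ((j₁ + k) * h)).filter (· ∈ S)).card : ℝ) := by
  intro k
  induction k with
  | zero =>
    intro _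
    simp
  | succ k ih =>
    intro hk
    have h1 := ih fun j hj hj' => hk j hj (by omega)
    have h2 := hk (j₁ + k) (by omega) (by omega)
    have h3 : (Finset.Ico (j₁ * h) ((j₁ + (k + 1)) * h)).filter (· ∈ S) =
        (Finset.Ico (j₁ * h) ((j₁ + k) * h)).filter (· ∈ S) ∪
        (Finset.Ico ((j₁ + k) * h) ((j₁ + k + 1) * h)).filter (· ∈ S) := by
      rw [← Finset.filter_union, Finset.Ico_union_Ico_eq_Ico (Nat.mul_le_mul_right _ (by omega))
        (Nat.mul_le_mul_right _ (by omega))]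
      rfl
    have h4 : Disjoint ((Finset.Ico (j₁ * h) ((j₁ + k) * h)).filter (· ∈ S))
        ((Finset.Ico ((j₁ + k) * h) ((j₁ + k + 1) * h)).filter (· ∈ S)) := by
      rw [Finset.disjoint_left]
      intro x hx hx'
      have a1 := Finset.mem_Ico.1 (Finset.mem_filter.1 hx).1
      have a2 := Finset.mem_Ico.1 (Finset.mem_filter.1 hx').1
      omega
    rw [h3, Finset.card_union_of_disjoint h4]
    push_cast
    linarith

open Classical in
/-- Density of the rows in all long intervals. -/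
theorem dens {S : Set ℕ} {h X : ℕ} {u : ℝ} (hu : 0 ≤ u) (hh : 1 ≤ h)
    (hS : ∀ j : ℕ, (j + 2) * h ≤ X →
      u * h ≤ (Set.ncard {r | r ∈ S ∧ j * h ≤ r ∧ r < (j + 1) * h} : ℝ))
    (R₁ R₂ : ℕ) (h12 : R₁ + 4 * h ≤ R₂) (hX : R₂ + h ≤ X) :
    u / 2 * ((R₂ : ℝ) - R₁) ≤ (((Finset.Ico R₁ R₂).filter (· ∈ S)).card : ℝ) := by
  have hnc : ∀ j : ℕ, (Set.ncard {r | r ∈ S ∧ j * h ≤ r ∧ r < (j + 1) * h} : ℝ) =
      (((Finset.Ico (j * h) ((j + 1) * h)).filter (· ∈ S)).card : ℝ) := by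
    intro j
    have : {r | r ∈ S ∧ j * h ≤ r ∧ r < (j + 1) * h} =
        (((Finset.Ico (j * h) ((j + 1) * h)).filter (· ∈ S) : Finset ℕ) : Set ℕ) := by
      ext r
      simp only [Set.mem_ofPred_eq, Finset.coe_filter, Finset.mem_Ico]
      tauto
    rw [this, Set.ncard_coe_finset]
  obtain ⟨j₁, hj₁⟩ : ∃ j₁, j₁ = R₁ / h + 1 := ⟨_, rfl⟩
  obtain ⟨j₂, hj₂⟩ : ∃ j₂, j₂ = R₂ / h := ⟨_, rfl⟩
  have e1 : R₁ < j₁ * h := by
    rw [hj₁]
    exact Nat.lt_mul_of_div_lt (Nat.lt_succ_self _) hh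
  have e2 : j₁ * h ≤ R₁ + h := by
    rw [hj₁, Nat.add_mul, one_mul]
    exact Nat.add_le_add_right (Nat.div_mul_le_self _ _) _
  have e3 : j₂ * h ≤ R₂ := by
    rw [hj₂]
    exact Nat.div_mul_le_self _ _
  have e4 : R₂ < (j₂ + 1) * h := by
    rw [hj₂]
    exact Nat.lt_mul_of_div_lt (Nat.lt_succ_self _) hh
  have e5 : j₁ ≤ j₂ := by
    by_contra hc
    have : (j₂ + 1) * h ≤ j₁ * h := Nat.mul_le_mul_right _ (by omega)
    omega
  obtain ⟨k, hk⟩ := Nat.exists_eq_add_of_le e5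
  have h1 := dens_blocks S h j₁ (u * h) k fun j hj hj' => by
    rw [← hnc]
    refine hS j ?_
    have : (j + 2) * h ≤ (j₂ + 1) * h := Nat.mul_le_mul_right _ (by omega)
    have e6 : (j₂ + 1) * h = j₂ * h + h := by ring
    omega
  have h2 : (((Finset.Ico (j₁ * h) ((j₁ + k) * h)).filter (· ∈ S)).card : ℝ) ≤
      (((Finset.Ico R₁ R₂).filter (· ∈ S)).card : ℝ) := by
    have : (Finset.Ico (j₁ * h) ((j₁ + k) * h)).filter (· ∈ S) ⊆
        (Finset.Ico R₁ R₂).filter (· ∈ S) := by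
      intro x hx
      obtain ⟨a1, a2⟩ := Finset.mem_filter.1 hx
      rw [Finset.mem_Ico, ← hk] at a1
      exact Finset.mem_filter.2 ⟨Finset.mem_Ico.2 ⟨by omega, by omega⟩, a2⟩
    exact_mod_cast Finset.card_le_card this
  refine le_trans ?_ (h1.trans h2)
  have e7 : (R₂ : ℝ) < (j₂ + 1) * h := by exact_mod_cast e4
  have e8 : (j₁ : ℝ) * h ≤ R₁ + h := by exact_mod_cast e2
  have e9 : (j₂ : ℝ) = j₁ + k := by exact_mod_cast hk
  have e10 : (R₁ : ℝ) + 4 * h ≤ R₂ := by exact_mod_cast h12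
  have e11 : ((R₂ : ℝ) - R₁) / 2 ≤ k * h := by
    rw [e9] at e7
    have : ((j₁ : ℝ) + k + 1) * h = j₁ * h + k * h + h := by ring
    rw [this] at e7
    linarith
  have e12 := mul_le_mul_of_nonneg_left e11 hu
  linarith

/-! ### cells and subcells -/

section

variable {Ω S T B : Type} [Fintype Ω]

/-- Small subcells are rare. -/
theorem ratio {p : Ω → ℝ} (hp : IsLaw p) (G : Ω → S) (G' : Ω → T) (o : Ω → B) (F : Finset B)
    (ho : ∀ ω, o ω ∈ F) (h1 : ∀ ω ω', G' ω = G' ω' → G ω = G ω')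
    (h2 : ∀ ω ω', G ω = G ω' → o ω = o ω' → G' ω = G' ω') (η : ℝ) (hη : 0 ≤ η) :
    Pr p {ω | law p G' (G' ω) < η * law p G (G ω)} ≤ F.card * η := by
  classical
  set E : Set Ω := {ω | law p G' (G' ω) < η * law p G (G ω)} with hE
  have hone : Ex p (fun _ => (F.card : ℝ) * η) = F.card * η := Ex_const hp.sum_one _
  have htower : Pr p E = Ex p (fun ω => Pr (cond p G (G ω)) E) := by
    rw [← Ex_ind p E]
    have e2 : Ex (dbl p G) (fun w => if w.2 ∈ E then (1 : ℝ) else 0) =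
        Ex p (fun ω => if ω ∈ E then (1 : ℝ) else 0) :=
      Marg.ex (dbl_snd (b := G) hp.nonneg) (fun ω => if ω ∈ E then (1 : ℝ) else 0)
    rw [← e2, Ex_dbl]
    unfold Ex
    refine Finset.sum_congr rfl fun ω _ => ?_
    congr 1
    have h := Ex_ind (cond p G (G ω)) E
    unfold Ex at h
    exact h
  rw [htower, ← hone]
  refine Ex_mono hp.nonneg fun ω hω => ?_
  have hl := isLaw_cnd hp G hω
  have hlaw : 0 < law p G (G ω) := law_pos hp.nonneg G hω
  have e1 : Pr (cond p G (G ω)) E ≤ ∑ b ∈ F, Pr (cond p G (G ω)) {v | o v = b ∧ v ∈ E} := by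
    have : ∀ b, Pr (cond p G (G ω)) {v | o v = b ∧ v ∈ E} =
        ∑ v, if o v = b ∧ v ∈ E then cond p G (G ω) v else 0 := fun b => Pool.KAF.Pr_eq _ _
    simp only [this]
    rw [Finset.sum_comm, Pool.KAF.Pr_eq]
    refine Finset.sum_le_sum fun v _ => ?_
    have hv := hl.nonneg v
    have h3 : (if o v = o v ∧ v ∈ E then cond p G (G ω) v else 0) ≤
        ∑ b ∈ F, if o v = b ∧ v ∈ E then cond p G (G ω) v else 0 :=
      Finset.single_le_sum (f := fun b => if o v = b ∧ v ∈ E then cond p G (G ω) v else 0)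
        (fun b _ => by split_ifs; exacts [hv, le_rfl]) (ho v)
    simpa using h3
  refine e1.trans ?_
  have e2 : ∀ b ∈ F, Pr (cond p G (G ω)) {v | o v = b ∧ v ∈ E} ≤ η := by
    intro b _
    by_cases hex : ∃ v₀, 0 < cond p G (G ω) v₀ ∧ o v₀ = b ∧ v₀ ∈ E
    · obtain ⟨v₀, hv0, hb, hvE⟩ := hex
      have hv1 := (cond_pos_iff hp.nonneg G (G ω) v₀).1 hv0
      have e3 : Pr (cond p G (G ω)) {v | o v = b ∧ v ∈ E} ≤ law p G' (G' v₀) / law p G (G ω) := by
        rw [Pool.KAF.Pr_eq]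
        unfold law
        rw [Finset.sum_div]
        refine Finset.sum_le_sum fun v _ => ?_
        by_cases h3 : o v = b ∧ v ∈ E
        · rw [if_pos (show v ∈ {v | o v = b ∧ v ∈ E} from h3)]
          unfold Pool.Agent.H49.Ent.cond
          by_cases h4 : G v = G ω
          · rw [if_pos h4]
            have h5 : G' v = G' v₀ := h2 _ _ (h4.trans hv1.2.symm) (h3.1.trans hb.symm)
            rw [if_pos h5]
            exact le_rfl
          · rw [if_neg h4]
            refine div_nonneg ?_ hlaw.le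
            split_ifs
            exacts [hp.nonneg v, le_rfl]
        · rw [if_neg (show v ∉ {v | o v = b ∧ v ∈ E} from h3)]
          refine div_nonneg ?_ hlaw.le
          split_ifs
          exacts [hp.nonneg v, le_rfl]
      refine e3.trans ?_
      rw [div_le_iff₀ hlaw]
      have h6 : law p G' (G' v₀) < η * law p G (G v₀) := hvE
      rw [hv1.2] at h6
      exact h6.le
    · refine le_trans (le_of_eq ?_) hη
      rw [Pool.KAF.Pr_eq]
      refine Finset.sum_eq_zero fun v _ => ?_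
      by_cases h3 : v ∈ {v | o v = b ∧ v ∈ E}
      · rw [if_pos h3]
        by_contra h4
        exact hex ⟨v, lt_of_le_of_ne (hl.nonneg v) (Ne.symm h4), h3⟩
      · rw [if_neg h3]
  refine (Finset.sum_le_sum e2).trans ?_
  rw [Finset.sum_const, nsmul_eq_mul]

end

end Pool.M5T
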