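import Pool.Agent.H87.SLO.Tup
import Pool.Agent.H92.M5.AlsD
import Pool.Agent.H92.M5.Tools

/-!
# L1, row ALS: the disintegration of the pairs
-/

set_option autoImplicit false

namespace Pool.M5.A92

open Finset Real
open Pool.Agent.H49.Ent Pool.Agent.H32.Dense Pool.STK Pool.KAF Pool.M5T Pool.M5.ALS

variable {k n : ℕ} {I : Type} [Fintype I] (b : Bas k I) (d : LDat k n I)

/-! ### Disintegration -/

section dis

variable {A : ℕ} {c : ℝ}

theorem Qr_eq : d.Qr = Pool.SLO.tup d.P d.L n := by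
  classical
  funext v
  rw [Pool.SLO.tup_eq]
  unfold LDat.Qr
  rfl

variable {b d}

theorem Qr_pos (hOK : d.OK b A c) {v : Fin (n + 1) → d.Om} :
    0 < d.Qr v ↔ (∀ j, 0 < d.P (v j)) ∧ ∀ j, d.L (v j) = d.L (v 0) := by
  rw [Qr_eq]
  exact Pool.SLO.tup_pos_iff hOK.law.nonneg d.L n v

theorem Qr_law (hOK : d.OK b A c) : IsLaw d.Qr := by
  rw [Qr_eq]
  exact Pool.SLO.tup_isLaw hOK.law d.L n

theorem law_Qr (hOK : d.OK b A c) (z : d.Lam) :
    law d.Qr (fun v => d.L (v 0)) z = law d.P d.L z := by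
  rw [Qr_eq]
  exact Pool.SLO.tup_law hOK.law.nonneg d.L n z

theorem Qp_law (hOK : d.OK b A c) (i : ℕ) : IsLaw (d.Qp i) :=
  ⟨fun w => dbl_nonneg hOK.law.nonneg w, Pool.KAL.FRM.dbl_sum hOK.law _⟩

theorem Qp_pos (hOK : d.OK b A c) {i : ℕ} {w : d.Om × d.Om} (hw : 0 < d.Qp i w) :
    0 < d.P w.1 ∧ 0 < d.P w.2 ∧ d.L w.1 = d.L w.2 ∧ d.Ti i w.1 = d.Ti i w.2 := by
  obtain ⟨h1, h2, h3⟩ := (glue_pos_iff (Z₁ := fun ω => (d.L ω, d.Ti i ω))
    (Z₂ := fun ω => (d.L ω, d.Ti i ω)) hOK.law.nonneg hOK.law.nonneg w).1 hw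
  exact ⟨h1, h2, (Prod.ext_iff.1 h3).1, (Prod.ext_iff.1 h3).2⟩

theorem Qp_fst (hOK : d.OK b A c) (i : ℕ) : Marg (d.Qp i) d.P (fun w => w.1) :=
  marg_fst (Z₁ := fun ω => (d.L ω, d.Ti i ω)) (Z₂ := fun ω => (d.L ω, d.Ti i ω)) hOK.law.nonneg
    fun _ => rfl

theorem law_Qp (hOK : d.OK b A c) (i : ℕ) (z : d.Lam) :
    law (d.Qp i) (fun w => d.L w.1) z = law d.P d.L z := (Qp_fst hOK i).law d.L z

theorem Q4_fst (hOK : d.OK b A c) (i : ℕ) : Marg (d.Q4 i) d.Qr (fun u => u.1) :=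
  marg_fst (Qr_law hOK).nonneg fun z => by rw [law_Qr hOK, law_Qp hOK]

theorem Q4_snd (hOK : d.OK b A c) (i : ℕ) : Marg (d.Q4 i) (d.Qp i) (fun u => u.2) :=
  marg_snd (Qp_law hOK i).nonneg fun z => by rw [law_Qr hOK, law_Qp hOK]

theorem Q4_law (hOK : d.OK b A c) (i : ℕ) : IsLaw (d.Q4 i) :=
  ⟨fun u => glue_nonneg (Qr_law hOK).nonneg (Qp_law hOK i).nonneg u,
    by rw [(Q4_fst hOK i).sum]; exact (Qr_law hOK).sum_one⟩

theorem Q4_pos (hOK : d.OK b A c) {i : ℕ} {u : (Fin (n + 1) → d.Om) × (d.Om × d.Om)}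
    (hu : 0 < d.Q4 i u) : 0 < d.Qr u.1 ∧ 0 < d.Qp i u.2 ∧ d.L (u.1 0) = d.L u.2.1 :=
  (glue_pos_iff (Z₁ := fun v : Fin (n + 1) → d.Om => d.L (v 0)) (Z₂ := fun w : d.Om × d.Om => d.L w.1)
    (Qr_law hOK).nonneg (Qp_law hOK i).nonneg u).1 hu

theorem Pr_marg {Ω' Ω : Type} [Fintype Ω'] [Fintype Ω] {q : Ω' → ℝ} {p : Ω → ℝ} {pr : Ω' → Ω}
    (h : Marg q p pr) (E : Set Ω) : Pr q {w | pr w ∈ E} = Pr p E := by
  classical
  rw [← Ex_ind q, ← Ex_ind p, ← h.ex]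
  rfl

/-- The expectation over the references and the pairs. -/
theorem Ex_Q4 (hOK : d.OK b A c) (i : ℕ) (F : (Fin (n + 1) → d.Om) × (d.Om × d.Om) → ℝ) :
    Ex (d.Q4 i) F = Ex d.Qr (fun v => Ex (pk d v) (fun ω => Ex (qk d i ω)
      (fun ω' => F (v, (ω, ω'))))) := by
  classical
  unfold Ex
  rw [Fintype.sum_prod_type]
  refine Finset.sum_congr rfl fun v _ => ?_
  rw [Fintype.sum_prod_type, Finset.mul_sum]
  refine Finset.sum_congr rfl fun ω _ => ?_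
  rw [Finset.mul_sum, Finset.mul_sum]
  refine Finset.sum_congr rfl fun ω' _ => ?_
  unfold LDat.Q4 LDat.Qp pk qk Pool.Agent.H32.Dense.dbl glue Pool.Agent.H49.Ent.cond
  simp only [law_Qr hOK]
  by_cases h : d.L (v 0) = d.L ω
  · rw [if_pos h, if_pos h.symm, h]
    by_cases h' : (d.L ω, d.Ti i ω) = (d.L ω', d.Ti i ω')
    · rw [if_pos h', if_pos h'.symm]
      ring
    · rw [if_neg h', if_neg (fun h'' => h' h''.symm)]
      ring
  · rw [if_neg h, if_neg (fun h' => h h'.symm)]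
    ring

/-- The expectation over the references and the bases. -/
theorem Ex_base (hOK : d.OK b A c) (f : d.Om → ℝ) :
    Ex d.Qr (fun v => Ex (pk d v) f) = Ex d.P f := by
  classical
  have h1 := Ex_Q4 hOK 0 (fun u => f u.2.1)
  have h2 : Ex (d.Q4 0) (fun u => f u.2.1) = Ex d.P f := by
    have h3 := (Q4_snd hOK 0).ex (fun w => f w.1)
    have h4 := (Qp_fst hOK 0).ex f
    rw [h3, h4]
  rw [← h2, h1]
  unfold Ex
  refine Finset.sum_congr rfl fun v _ => ?_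
  congr 1
  refine Finset.sum_congr rfl fun ω _ => ?_
  show pk d v ω * f ω = pk d v ω * ∑ ω', qk d 0 ω ω' * f ω
  by_cases h5 : 0 < pk d v ω
  · have h6 : 0 < d.P ω := ((cond_pos_iff hOK.law.nonneg d.L (d.L (v 0)) ω).1 h5).1
    have h7 : IsLaw (qk d 0 ω) := isLaw_cnd hOK.law (fun v => (d.L v, d.Ti 0 v)) h6
    rw [← Finset.sum_mul, h7.sum_one, one_mul]
  · have h6 : pk d v ω = 0 := le_antisymm (not_lt.1 h5) (cond_nonneg hOK.law.nonneg _ _ _)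
    rw [h6, zero_mul, zero_mul]

end dis

end Pool.M5.A92
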