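import Pool.Agent.H92.M5.AGR

/-!
# L1: every depth, and the label of the line

`every_depth`: if the slopes of the partners of a base agree with `La` and the forms are atomic at
the rows of `J`, then the form with the slope `La` is atomic at nearly every depth.
`combineV`: forms which are atomic at one common depth satisfy the linear relations of their
unknown parts.
-/

set_option autoImplicit false

namespace Pool.M5

open Finset Real
open Pool.Agent.H49.Ent Pool.Agent.H32.Dense Pool.STK Pool.KAF Pool.OC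

/-- The form with the common slope is atomic at nearly every depth. -/
theorem every_depth {T D E : Type} [Fintype T] [Fintype D] [NormedAddCommGroup E]
    (B' : E → D → ℝ) (hB' : ∀ a b d, B' (a - b) d = B' a d - B' b d) (n X : ℕ) (hn : 0 < n)
    (u : ℝ) (hu : 0 < u) (J S : Finset ℕ) (hS : ∀ s ∈ S, s < X)
    (hd : ∀ s ∈ S, u * n ≤ ((range n).filter (fun i => s + i ∈ J)).card)
    (q : ℕ → T → ℝ) (hq : ∀ i < n, IsLaw (q i)) (r : ℕ → D → ℝ) (hr : ∀ s < X, IsLaw (r s))
    (χ : ℕ → T → E) (db : D → ℝ) (Y : ℕ → ℝ) (h H R : ℝ)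
    (hR : ∀ s < X, ∀ d, 0 < r s d → ∀ ξ, |B' ξ d| ≤ ‖ξ‖ * (R * Y s)) (hRY : ∀ s, 0 ≤ R * Y s)
    (La : E) (A F : ℝ)
    (hA : ∑ i ∈ range n, ∑ s ∈ range X, (if s + i ∈ J then
      Ex (q i) (fun t => Pr (r s) {d | h * Y s < |db d - B' (χ i t) d|}) else 0) ≤ A)
    (hF : ∑ i ∈ range n, Pr (q i) {t | H < ‖χ i t - La‖} ≤ F) :
    ∑ s ∈ S, Pr (r s) {d | (h + H * R) * Y s < |db d - B' La d|} ≤ (A + X * F) / (u * n) := by
  classical
  have hnr : (0 : ℝ) < n := by exact_mod_cast hn
  rw [le_div_iff₀ (by positivity)]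
  -- one scale
  have h1 : ∀ i < n, ∀ s < X, Pr (r s) {d | (h + H * R) * Y s < |db d - B' La d|} ≤
      Ex (q i) (fun t => Pr (r s) {d | h * Y s < |db d - B' (χ i t) d|}) +
        Pr (q i) {t | H < ‖χ i t - La‖} := by
    intro i hi s hs
    have hqi := hq i hi
    have hrs := hr s hs
    have h2 : ∀ t, Pr (r s) {d | (h + H * R) * Y s < |db d - B' La d|} ≤
        Pr (r s) {d | h * Y s < |db d - B' (χ i t) d|} +
          (if H < ‖χ i t - La‖ then (1 : ℝ) else 0) := by
      intro t
      by_cases hH : H < ‖χ i t - La‖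
      · rw [if_pos hH]
        have g1 := Pool.KAF.Pr_le_one hrs {d | (h + H * R) * Y s < |db d - B' La d|}
        have g2 := Pool.KAF.Pr_nonneg hrs.nonneg {d | h * Y s < |db d - B' (χ i t) d|}
        linarith
      · rw [if_neg hH, add_zero]
        refine Pool.KAF.Pr_mono hrs.nonneg ?_
        intro d hd0 hd1
        simp only [Set.mem_ofPred_eq] at hd1 ⊢
        have g1 := hR s hs d hd0 (χ i t - La)
        have g2 : ‖χ i t - La‖ * (R * Y s) ≤ H * (R * Y s) :=
          mul_le_mul_of_nonneg_right (not_lt.1 hH) (hRY s)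
        have g3 : db d - B' La d = (db d - B' (χ i t) d) + B' (χ i t - La) d := by
          rw [hB']
          ring
        have g4 := abs_add_le (db d - B' (χ i t) d) (B' (χ i t - La) d)
        rw [← g3] at g4
        have g5 : (h + H * R) * Y s = h * Y s + H * (R * Y s) := by ring
        linarith
    have e1 : Pr (q i) {t | H < ‖χ i t - La‖} =
        Ex (q i) (fun t => if H < ‖χ i t - La‖ then (1 : ℝ) else 0) := by
      rw [Pool.KAF.Pr_eq]
      unfold Ex
      refine Finset.sum_congr rfl fun t _ => ?_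
      beta_reduce
      by_cases hH : H < ‖χ i t - La‖
      · rw [if_pos (show t ∈ {t | H < ‖χ i t - La‖} from hH), if_pos hH, mul_one]
      · rw [if_neg (show t ∉ {t | H < ‖χ i t - La‖} from hH), if_neg hH, mul_zero]
    rw [e1]
    have e2 : Pr (r s) {d | (h + H * R) * Y s < |db d - B' La d|} =
        ∑ t, q i t * Pr (r s) {d | (h + H * R) * Y s < |db d - B' La d|} := by
      rw [← Finset.sum_mul, hqi.sum_one, one_mul]
    rw [e2]
    unfold Ex
    rw [← Finset.sum_add_distrib]
    refine Finset.sum_le_sum fun t _ => ?_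
    rw [← mul_add]
    exact mul_le_mul_of_nonneg_left (h2 t) (hqi.nonneg t)
  have hf0 : ∀ i < n, 0 ≤ Pr (q i) {t | H < ‖χ i t - La‖} := fun i hi =>
    Pool.KAF.Pr_nonneg (hq i hi).nonneg _
  have hp0 : ∀ s < X, 0 ≤ Pr (r s) {d | (h + H * R) * Y s < |db d - B' La d|} := fun s hs =>
    Pool.KAF.Pr_nonneg (hr s hs).nonneg _
  rw [Finset.sum_mul]
  calc ∑ s ∈ S, Pr (r s) {d | (h + H * R) * Y s < |db d - B' La d|} * (u * n)
      ≤ ∑ s ∈ S, ∑ i ∈ range n, (if s + i ∈ J then
          Pr (r s) {d | (h + H * R) * Y s < |db d - B' La d|} else 0) := by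
        refine Finset.sum_le_sum fun s hs => ?_
        rw [← Finset.sum_filter, Finset.sum_const, nsmul_eq_mul, mul_comm]
        exact mul_le_mul_of_nonneg_right (hd s hs) (hp0 s (hS s hs))
    _ ≤ ∑ s ∈ S, ∑ i ∈ range n, ((if s + i ∈ J then
          Ex (q i) (fun t => Pr (r s) {d | h * Y s < |db d - B' (χ i t) d|}) else 0) +
          Pr (q i) {t | H < ‖χ i t - La‖}) := by
        refine Finset.sum_le_sum fun s hs => Finset.sum_le_sum fun i hi => ?_
        have g1 := h1 i (mem_range.1 hi) s (hS s hs)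
        have g2 := hf0 i (mem_range.1 hi)
        split_ifs
        · exact g1
        · linarith
    _ ≤ ∑ s ∈ range X, ∑ i ∈ range n, ((if s + i ∈ J then
          Ex (q i) (fun t => Pr (r s) {d | h * Y s < |db d - B' (χ i t) d|}) else 0) +
          Pr (q i) {t | H < ‖χ i t - La‖}) := by
        refine Finset.sum_le_sum_of_subset_of_nonneg (fun s hs => mem_range.2 (hS s hs)) ?_
        intro s hs _
        refine Finset.sum_nonneg fun i hi => add_nonneg ?_ (hf0 i (mem_range.1 hi))
        split_ifs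
        · exact Ex_nonneg (hq i (mem_range.1 hi)).nonneg fun t _ =>
            Pool.KAF.Pr_nonneg (hr s (mem_range.1 hs)).nonneg _
        · exact le_rfl
    _ ≤ A + X * F := by
        simp only [Finset.sum_add_distrib]
        rw [Finset.sum_comm]
        refine add_le_add hA ?_
        rw [Finset.sum_const, card_range, nsmul_eq_mul]
        exact mul_le_mul_of_nonneg_left hF (Nat.cast_nonneg X)

/-- Forms which are atomic at one common depth satisfy the linear relations of their unknown
parts. -/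
theorem combineV {D E ι κ : Type} [Fintype ι] [Fintype κ] [Fintype D] [NormedAddCommGroup E]
    [NormedSpace ℝ E] (B' : E → D → ℝ) (hadd : ∀ a b d, B' (a + b) d = B' a d + B' b d)
    (hsmul : ∀ (x : ℝ) a d, B' (x • a) d = x * B' a d) (c : D → κ → ℝ) (e : ι → κ → ℝ)
    (La : ι → E) (v : κ → ℝ) (χ : E) (W : ι → ℝ) (hv : ∀ j, v j = ∑ p, W p * e p j) (B₀ : ℝ)
    (hW : ∑ p, |W p| ≤ B₀) {r : D → ℝ} (hr : IsLaw r) (y : ℝ) (hy : 0 < y) (h h₁ : ℝ)
    (hh : 0 ≤ h) (b : ℝ) (hb : ∀ ξ : E, Pr r {d | |B' ξ d| < ‖ξ‖ * y} ≤ b)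
    (hsum : ∑ p, Pr r {d | h * y < |∑ j, e p j * c d j - B' (La p) d|} +
      Pr r {d | h₁ * y < |∑ j, v j * c d j - B' χ d|} + b < 1) :
    ‖χ - ∑ p, W p • La p‖ ≤ B₀ * h + h₁ := by
  classical
  -- a copy outside all exceptional sets
  obtain ⟨d, hd1, hd2, hd3⟩ : ∃ d, (∀ p, ¬ h * y < |∑ j, e p j * c d j - B' (La p) d|) ∧
      ¬ h₁ * y < |∑ j, v j * c d j - B' χ d| ∧
      ¬ |B' (χ - ∑ p, W p • La p) d| < ‖χ - ∑ p, W p • La p‖ * y := by
    by_contra hcon
    push Not at hcon
    have h1 : (1 : ℝ) ≤ ∑ p, Pr r {d | h * y < |∑ j, e p j * c d j - B' (La p) d|} +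
        Pr r {d | h₁ * y < |∑ j, v j * c d j - B' χ d|} +
        Pr r {d | |B' (χ - ∑ p, W p • La p) d| < ‖χ - ∑ p, W p • La p‖ * y} := by
      simp only [Pool.KAF.Pr_eq]
      rw [Finset.sum_comm, ← hr.sum_one, ← Finset.sum_add_distrib, ← Finset.sum_add_distrib]
      refine Finset.sum_le_sum fun d _ => ?_
      have hr0 := hr.nonneg d
      have hs0 : 0 ≤ ∑ p, (if d ∈ {d | h * y < |∑ j, e p j * c d j - B' (La p) d|} then r d
          else 0) := Finset.sum_nonneg fun p _ => by split_ifs <;> linarith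
      by_cases h2 : d ∈ {d | h₁ * y < |∑ j, v j * c d j - B' χ d|}
      · rw [if_pos h2]
        split_ifs <;> linarith
      by_cases h3 : d ∈ {d | |B' (χ - ∑ p, W p • La p) d| < ‖χ - ∑ p, W p • La p‖ * y}
      · rw [if_pos h3]
        split_ifs <;> linarith
      by_cases h4 : ∃ p, h * y < |∑ j, e p j * c d j - B' (La p) d|
      · obtain ⟨p, hp⟩ := h4
        have h5 : r d ≤ ∑ p, (if d ∈ {d | h * y < |∑ j, e p j * c d j - B' (La p) d|} then r d
            else 0) := by
          refine le_trans (le_of_eq ?_) (Finset.single_le_sum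
            (f := fun p => if d ∈ {d | h * y < |∑ j, e p j * c d j - B' (La p) d|} then r d
              else 0) (fun p _ => by
                show (0 : ℝ) ≤ if d ∈ {d | h * y < |∑ j, e p j * c d j - B' (La p) d|} then r d
                  else 0
                split_ifs <;> linarith) (mem_univ p))
          show r d = if d ∈ {d | h * y < |∑ j, e p j * c d j - B' (La p) d|} then r d else 0
          rw [if_pos (show d ∈ {d | h * y < |∑ j, e p j * c d j - B' (La p) d|} from hp)]
        split_ifs <;> linarith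
      · push Not at h4
        exact absurd (hcon d h4 (not_lt.1 h2)) h3
    have h2 := hb (χ - ∑ p, W p • La p)
    linarith
  have hd1' : ∀ p, |∑ j, e p j * c d j - B' (La p) d| ≤ h * y := fun p => not_lt.1 (hd1 p)
  have hd2' : |∑ j, v j * c d j - B' χ d| ≤ h₁ * y := not_lt.1 hd2
  have hd3' := not_lt.1 hd3
  have hzero : ∀ d, B' 0 d = 0 := fun d => by
    have := hsmul 0 0 d
    rwa [zero_smul, zero_mul] at this
  have hBsum : ∀ (s : Finset ι), B' (∑ p ∈ s, W p • La p) d = ∑ p ∈ s, W p * B' (La p) d := by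
    intro s
    induction s using Finset.induction_on with
    | empty => simp [hzero]
    | insert p s hp ih => rw [Finset.sum_insert hp, Finset.sum_insert hp, hadd, hsmul, ih]
  have hneg : B' (χ - ∑ p, W p • La p) d = B' χ d - ∑ p, W p * B' (La p) d := by
    rw [sub_eq_add_neg, ← neg_one_smul ℝ, hadd, hsmul, hBsum]
    ring
  have hv' : ∑ j, v j * c d j = ∑ p, W p * ∑ j, e p j * c d j := by
    simp only [hv, Finset.sum_mul, Finset.mul_sum]
    rw [Finset.sum_comm]
    refine Finset.sum_congr rfl fun p _ => Finset.sum_congr rfl fun j _ => by ring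
  have key : B' (χ - ∑ p, W p • La p) d =
      ∑ p, W p * (∑ j, e p j * c d j - B' (La p) d) - (∑ j, v j * c d j - B' χ d) := by
    rw [hneg, hv']
    simp only [mul_sub, Finset.sum_sub_distrib]
    ring
  have h1 : |∑ p, W p * (∑ j, e p j * c d j - B' (La p) d)| ≤ B₀ * (h * y) := by
    calc _ ≤ ∑ p, |W p * (∑ j, e p j * c d j - B' (La p) d)| := Finset.abs_sum_le_sum_abs _ _
      _ ≤ ∑ p, |W p| * (h * y) := Finset.sum_le_sum fun p _ => by
          rw [abs_mul]
          exact mul_le_mul_of_nonneg_left (hd1' p) (abs_nonneg _)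
      _ = (∑ p, |W p|) * (h * y) := by rw [Finset.sum_mul]
      _ ≤ _ := mul_le_mul_of_nonneg_right hW (by positivity)
  have h2 := abs_sub (∑ p, W p * (∑ j, e p j * c d j - B' (La p) d))
    (∑ j, v j * c d j - B' χ d)
  rw [← key] at h2
  have h3 : ‖χ - ∑ p, W p • La p‖ * y ≤ (B₀ * h + h₁) * y := by
    have : (B₀ * h + h₁) * y = B₀ * (h * y) + h₁ * y := by ring
    linarith
  exact le_of_mul_le_mul_right h3 hy

end Pool.M5
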