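import Pool.Agent.H92.M5.Tools
import Pool.Agent.H92.M5.AGRC
import Pool.Agent.H92.M5.Lag

/-!
# L1, row ALS: the kernel for one reference

`base_thm`: at one base the form with the common slope is atomic at nearly every depth.
`exists_sep`: separated good bases. `line_thm`: one linear map for all pairs of the line.
-/

set_option autoImplicit false

namespace Pool.M5

open Finset Real
open Pool.Agent.H49.Ent Pool.Agent.H32.Dense Pool.STK Pool.KAF Pool.OC Pool.M5T

open Classical in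
/-- **One base.** -/
theorem base_thm {T D E : Type} [Fintype T] [Fintype D] [NormedAddCommGroup E]
    (B' : E → D → ℝ) (hB' : ∀ a b d, B' (a - b) d = B' a d - B' b d) (n X N₀ : ℕ)
    (hn : 2 ≤ n) (hnX : 32 * n ≤ X) (u : ℝ) (hu : 0 < u) (hu1 : u ≤ 1) (hN₀ : 8 / u ≤ N₀)
    (Jr : Set ℕ) (hJr : ∀ R₁ R₂ : ℕ, R₁ + n ≤ R₂ → R₂ ≤ X →
      u / 2 * ((R₂ : ℝ) - R₁) ≤ (((Finset.Ico R₁ R₂).filter (· ∈ Jr)).card : ℝ))
    (q : ℕ → T → ℝ) (hq : ∀ i < n, IsLaw (q i)) (r : ℕ → D → ℝ) (hr : ∀ s < X, IsLaw (r s))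
    (χ : ℕ → T → E) (db : D → ℝ) (Y : ℕ → ℝ) (hY : ∀ s, 0 < Y s)
    (hY2 : ∀ s, Y s ≤ 2 * Y (s + 1)) (h : ℝ) (hh : 0 ≤ h) (R : ℝ) (hR0 : 0 ≤ R)
    (hR : ∀ s < X, ∀ d, 0 < r s d → ∀ ξ, |B' ξ d| ≤ ‖ξ‖ * (R * Y s))
    (Bg : Finset ℕ) (η : ℝ) (hη : 0 < η) (hη1 : η ≤ 1)
    (hBg : ∀ s, s + 1 < X → s ∉ Bg → ∀ d, η * r (s + 1) d ≤ r s d)
    (hBgc : (Bg.card : ℝ) ≤ (u / 4) ^ 2 * X / 16)
    (b : ℕ → ℝ) (ν α θ δ : ℝ) (hθ : 0 < θ) (hδ : 3 * δ < 1)
    (hA : ∑ i ∈ range n, ∑ s ∈ range X, (if s + i ∈ Jr ∧ n ≤ s + i ∧ s + i < X then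
      Ex (q i) (fun t => Pr (r s) {d | h * Y s < |db d - B' (χ i t) d|}) else 0) ≤ α * (n * X))
    (hb0 : ∀ s < X, 0 ≤ b s)
    (hb : ∀ s < X, ∀ ξ : E, Pr (r s) {d | |B' ξ d| < ‖ξ‖ * Y s} ≤ b s)
    (hN : ∑ s ∈ range X, b s ≤ ν * X)
    (hc : 2 * θ / η + ν ≤ δ * ((u / 4) ^ 2 / 16)) :
    ∃ La : E, ∑ s ∈ Finset.Ico n (X - n),
      Pr (r s) {d | (h + (14 * N₀ + 2) * h * R) * Y s < |db d - B' La d|} ≤
        2 / u * (α + (δ + (4 * N₀ ^ 2 + 1) * (α / θ))) * X := by
  have hXp : 0 < X := by omega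
  have hXr : (0 : ℝ) < X := by exact_mod_cast hXp
  have hnr : (0 : ℝ) < n := by exact_mod_cast (show 0 < n by omega)
  set J : Finset ℕ := (Finset.Ico n X).filter (· ∈ Jr) with hJ
  have hmem : ∀ x, x ∈ J ↔ (x ∈ Jr ∧ n ≤ x ∧ x < X) := by
    intro x
    rw [hJ, mem_filter, mem_Ico]
    tauto
  have hA' : ∑ i ∈ range n, ∑ s ∈ range X, (if s + i ∈ J then
      Ex (q i) (fun t => Pr (r s) {d | h * Y s < |db d - B' (χ i t) d|}) else 0) ≤
        α * (n * X) := by
    refine le_trans (le_of_eq ?_) hA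
    refine Finset.sum_congr rfl fun i _ => Finset.sum_congr rfl fun s _ => ?_
    simp only [hmem]
  obtain ⟨La, hLa⟩ := als_oneV B' hB' n X N₀ hXp (u / 4) (by positivity) (by linarith)
    (by
      have : 2 / (u / 4) = 8 / u := by field_simp; norm_num
      rw [this]
      exact hN₀) (by omega) J (fun j hj => by
        have := (hmem j).1 hj
        exact this.2) (by
        have h1 := hJr n X (by omega) le_rfl
        have h2 : u / 4 * X ≤ u / 2 * ((X : ℝ) - n) := by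
          have h3 : (32 * n : ℝ) ≤ X := by exact_mod_cast hnX
          nlinarith
        exact h2.trans h1) q hq r hr χ db Y hY hY2 h hh Bg η hη hη1 hBg hBgc b
    (α * (n * X)) (ν * X) θ δ hθ hδ hA' hb0 hb hN (by
      have h1 := mul_le_mul_of_nonneg_right hc hXr.le
      have e1 : (2 * θ / η + ν) * X = 2 * θ / η * X + ν * X := by ring
      have e2 : δ * ((u / 4) ^ 2 / 16) * X = δ * ((u / 4) ^ 2 / 16 * X) := by ring
      rw [e1, e2] at h1
      exact h1)
  refine ⟨La, ?_⟩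
  have hF : ∑ i ∈ range n, Pr (q i) {t | (14 * N₀ + 2) * h < ‖χ i t - La‖} ≤
      (δ + (4 * N₀ ^ 2 + 1) * (α / θ)) * n := by
    refine hLa.trans (le_of_eq ?_)
    have e1 : α * (n * X) / (θ * X) = α / θ * n := by field_simp
    rw [e1]
    ring
  have h1 := every_depth B' hB' n X (by omega) (u / 2) (by positivity) J (Finset.Ico n (X - n))
    (fun s hs => by
      have := mem_Ico.1 hs
      omega) (fun s hs => by
      obtain ⟨hs1, hs2⟩ := mem_Ico.1 hs
      have h2 := hJr s (s + n) le_rfl (by omega)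
      have h3 : ((s + n : ℕ) : ℝ) - s = n := by push_cast; ring
      rw [h3] at h2
      refine h2.trans ?_
      have h4 : ((Finset.Ico s (s + n)).filter (· ∈ Jr)).card ≤
          ((range n).filter (fun i => s + i ∈ J)).card := by
        refine Finset.card_le_card_of_injOn (fun x => x - s) ?_ ?_
        · intro x hx
          obtain ⟨g1, g2⟩ := mem_filter.1 hx
          have g3 := mem_Ico.1 g1
          refine mem_filter.2 ⟨mem_range.2 (show x - s < n by omega), ?_⟩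
          show s + (x - s) ∈ J
          rw [show s + (x - s) = x by omega]
          exact (hmem x).2 ⟨g2, by omega, by omega⟩
        · intro x hx y hy hxy
          have g3 := mem_Ico.1 (mem_filter.1 hx).1
          have g4 := mem_Ico.1 (mem_filter.1 hy).1
          have g5 : x - s = y - s := hxy
          omega
      exact_mod_cast h4) q hq r hr χ db Y h ((14 * N₀ + 2) * h) R hR
    (fun s => mul_nonneg hR0 (hY s).le) La (α * (n * X))
    ((δ + (4 * N₀ ^ 2 + 1) * (α / θ)) * n) hA' hF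
  refine h1.trans (le_of_eq ?_)
  field_simp

/-- Separated good points. -/
theorem exists_sep {T : Type} [Fintype T] {p : T → ℝ} (hp : IsLaw p) (G : Set T)
    (hG : Pr p Gᶜ ≤ 1 / 4) (near : T → T → Prop) (n : ℕ)
    (hnear : Ex p (fun t => Pr p {t' | near t t'}) ≤ 1 / (16 * (n + 1))) :
    ∀ k ≤ n, ∃ g : Fin k → T, (∀ i, g i ∈ G ∧ 0 < p (g i)) ∧
      ∀ i j : Fin k, i < j → ¬ near (g i) (g j) := by
  classical
  have hn1 : (0 : ℝ) < n + 1 := by positivity
  -- points with few near points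
  set F : Set T := {t | 1 / (2 * ((n : ℝ) + 1)) < Pr p {t' | near t t'}} with hF
  have hFp : Pr p F ≤ 1 / 8 := by
    have h1 := Pr_gt hp.nonneg (fun t => Pr p {t' | near t t'})
      (fun t _ => Pool.KAF.Pr_nonneg hp.nonneg _) (a := 1 / (2 * ((n : ℝ) + 1))) (by positivity)
      hnear
    refine h1.trans (le_of_eq ?_)
    field_simp
    norm_num
  intro k
  induction k with
  | zero =>
    intro _
    exact ⟨Fin.elim0, fun i => i.elim0, fun i => i.elim0⟩
  | succ k ih =>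
    intro hk
    -- we strengthen: all points outside `F`
    have key : ∀ k ≤ n, ∃ g : Fin k → T, (∀ i, g i ∈ G ∧ 0 < p (g i) ∧ g i ∉ F) ∧
        ∀ i j : Fin k, i < j → ¬ near (g i) (g j) := by
      intro k
      induction k with
      | zero =>
        intro _
        exact ⟨Fin.elim0, fun i => i.elim0, fun i => i.elim0⟩
      | succ k ih' =>
        intro hk'
        obtain ⟨g, hg1, hg2⟩ := ih' (by omega)
        -- a new point
        obtain ⟨t, ht0, htG, htF, htn⟩ : ∃ t, 0 < p t ∧ t ∈ G ∧ t ∉ F ∧ ∀ i, ¬ near (g i) t := by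
          by_contra hcon
          push Not at hcon
          have h1 : (1 : ℝ) ≤ Pr p Gᶜ + Pr p F + ∑ i, Pr p {t' | near (g i) t'} := by
            simp only [Pool.KAF.Pr_eq]
            rw [Finset.sum_comm, ← Finset.sum_add_distrib, ← Finset.sum_add_distrib]
            refine le_trans hp.sum_one.ge (Finset.sum_le_sum fun t _ => ?_)
            have hs0 : 0 ≤ ∑ i, (if t ∈ {t' | near (g i) t'} then p t else 0) :=
              Finset.sum_nonneg fun i _ => by
                have := hp.nonneg t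
                split_ifs <;> linarith
            have hp0 := hp.nonneg t
            rcases hp0.eq_or_lt with h0 | h0
            · rw [← h0] at hs0 ⊢
              split_ifs <;> linarith
            by_cases h2 : t ∈ G
            · by_cases h3 : t ∈ F
              · rw [if_pos h3]
                split_ifs <;> linarith
              · obtain ⟨i, hi⟩ := hcon t h0 h2 h3
                have h5 : p t ≤ ∑ i, (if t ∈ {t' | near (g i) t'} then p t else 0) := by
                  refine le_trans (le_of_eq ?_) (Finset.single_le_sum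
                    (f := fun i => if t ∈ {t' | near (g i) t'} then p t else 0)
                    (fun i _ => by
                      show (0 : ℝ) ≤ if t ∈ {t' | near (g i) t'} then p t else 0
                      split_ifs <;> linarith) (mem_univ i))
                  show p t = if t ∈ {t' | near (g i) t'} then p t else 0
                  rw [if_pos (show t ∈ {t' | near (g i) t'} from hi)]
                split_ifs <;> linarith
            · rw [if_pos (show t ∈ Gᶜ from h2)]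
              split_ifs <;> linarith
          have h2 : ∑ i, Pr p {t' | near (g i) t'} ≤ ∑ _i : Fin k, 1 / (2 * ((n : ℝ) + 1)) :=
            Finset.sum_le_sum fun i _ => not_lt.1 (hg1 i).2.2
          rw [Finset.sum_const, card_univ, Fintype.card_fin, nsmul_eq_mul] at h2
          have h3 : (k : ℝ) * (1 / (2 * ((n : ℝ) + 1))) ≤ 1 / 2 := by
            rw [mul_one_div, div_le_div_iff₀ (by positivity) (by norm_num)]
            have : (k : ℝ) + 1 ≤ n := by exact_mod_cast hk'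
            linarith
          linarith
        refine ⟨Fin.snoc g t, ?_, ?_⟩
        · intro i
          refine Fin.lastCases ?_ (fun j => ?_) i
          · rw [Fin.snoc_last]
            exact ⟨htG, ht0, htF⟩
          · rw [Fin.snoc_castSucc]
            exact hg1 j
        · intro i j
          refine Fin.lastCases ?_ (fun j' => ?_) j
          · refine Fin.lastCases (fun hij => absurd hij (lt_irrefl _)) (fun i' _ => ?_) i
            rw [Fin.snoc_last, Fin.snoc_castSucc]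
            exact htn i'
          · refine Fin.lastCases (fun hij => ?_) (fun i' hij => ?_) i
            · exact absurd hij (not_lt.2 (Fin.le_last _))
            · rw [Fin.snoc_castSucc, Fin.snoc_castSucc]
              exact hg2 i' j' (by simpa using hij)
    obtain ⟨g, hg1, hg2⟩ := key (k + 1) hk
    exact ⟨g, fun i => ⟨(hg1 i).1, (hg1 i).2.1⟩, hg2⟩

open Classical in
/-- **One line.** All pairs of the line which are atomic at most of their depths have slopes given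
by one linear map `La`. -/
theorem line_thm {T D E : Type} [Fintype T] [Fintype D] [NormedAddCommGroup E] [NormedSpace ℝ E]
    (B' : E → D → ℝ) (hadd : ∀ a b d, B' (a + b) d = B' a d + B' b d)
    (hsmul : ∀ (x : ℝ) a d, B' (x • a) d = x * B' a d) (nu k₀ n X N₀ : ℕ) (c : D → Fin nu → ℝ)
    (th : T → ℝ) (hth : ∀ t, |th t| ≤ 1) (p₁ : T → ℝ) (hp₁ : IsLaw p₁) (G : Set T)
    (hG : Pr p₁ Gᶜ ≤ 1 / 4)
    (hnear : Ex p₁ (fun t => Pr p₁ {t' | |th t - th t'| < (2 : ℝ) ^ (-(k₀ : ℤ))}) ≤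
      1 / (16 * (nu + 1)))
    (hn : 2 ≤ n) (hnX : 32 * n ≤ X) (u : ℝ) (hu : 0 < u) (hu1 : u ≤ 1) (hN₀ : 8 / u ≤ N₀)
    (Jr : T → Set ℕ) (hJr : ∀ w ∈ G, 0 < p₁ w → ∀ R₁ R₂ : ℕ, R₁ + n ≤ R₂ → R₂ ≤ X →
      u / 2 * ((R₂ : ℝ) - R₁) ≤ (((Finset.Ico R₁ R₂).filter (· ∈ Jr w)).card : ℝ))
    (q : ℕ → T → T → ℝ) (hq : ∀ i < n, ∀ w, 0 < p₁ w → IsLaw (q i w)) (r : ℕ → D → ℝ)
    (hr : ∀ s < X, IsLaw (r s)) (χ : T → T → E) (Y : ℕ → ℝ) (hY : ∀ s, 0 < Y s)
    (hY2 : ∀ s, Y s ≤ 2 * Y (s + 1)) (h : ℝ) (hh : 0 ≤ h) (R : ℝ) (hR0 : 0 ≤ R)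
    (hR : ∀ s < X, ∀ d, 0 < r s d → ∀ ξ, |B' ξ d| ≤ ‖ξ‖ * (R * Y s))
    (Bg : Finset ℕ) (η : ℝ) (hη : 0 < η) (hη1 : η ≤ 1)
    (hBg : ∀ s, s + 1 < X → s ∉ Bg → ∀ d, η * r (s + 1) d ≤ r s d)
    (hBgc : (Bg.card : ℝ) ≤ (u / 4) ^ 2 * X / 16)
    (b : ℕ → ℝ) (ν α θ δ θ₁ : ℝ) (hθ : 0 < θ) (hδ : 3 * δ < 1)
    (hA : ∀ w ∈ G, 0 < p₁ w →
      ∑ i ∈ range n, ∑ s ∈ range X, (if s + i ∈ Jr w ∧ n ≤ s + i ∧ s + i < X then
        Ex (q i w) (fun t => Pr (r s) {d | h * Y s <
          |∑ a : Fin nu, (((a : ℕ) : ℝ) + 1) * th w ^ (a : ℕ) * c d a - B' (χ w t) d|}) else 0) ≤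
      α * (n * X))
    (hb0 : ∀ s < X, 0 ≤ b s)
    (hb : ∀ s < X, ∀ ξ : E, Pr (r s) {d | |B' ξ d| < ‖ξ‖ * Y s} ≤ b s)
    (hN : ∑ s ∈ range X, b s ≤ ν * X)
    (hc : 2 * θ / η + ν ≤ δ * ((u / 4) ^ 2 / 16))
    (hc2 : nu * (2 / u * (α + (δ + (4 * N₀ ^ 2 + 1) * (α / θ)))) + θ₁ + ν < u / 4) :
    ∃ La : Fin nu → E, ∀ (Jw : Set ℕ),
      u / 2 * ((X : ℝ) - 2 * n) ≤ (((Finset.Ico n (X - n)).filter (· ∈ Jw)).card : ℝ) →
      ∀ (vv : Fin nu → ℝ), (∀ a : Fin nu, |vv a| ≤ ((a : ℕ) : ℝ) + 1) → ∀ (χ' : E) (h₁ : ℝ),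
      ∑ s ∈ Finset.Ico n (X - n), (if s ∈ Jw then
        Pr (r s) {d | h₁ * Y s < |∑ a, vv a * c d a - B' χ' d|} else 0) ≤ θ₁ * X →
      ‖χ' - ∑ a, vv a • La a‖ ≤
        (nu * (nu * (2 / (2 : ℝ) ^ (-(k₀ : ℤ))) ^ nu)) * (h + (14 * N₀ + 2) * h * R) + h₁ := by
  have hXp : 0 < X := by omega
  have hXr : (0 : ℝ) < X := by exact_mod_cast hXp
  have hsub : ∀ a b d, B' (a - b) d = B' a d - B' b d := by
    intro a b d
    rw [sub_eq_add_neg, ← neg_one_smul ℝ b, hadd, hsmul]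
    ring
  set κ : ℝ := (2 : ℝ) ^ (-(k₀ : ℤ)) with hκ
  have hκ0 : 0 < κ := by positivity
  have hκ1 : κ ≤ 1 := by
    rw [hκ, zpow_neg, zpow_natCast]
    exact inv_le_one_of_one_le₀ (one_le_pow₀ (by norm_num))
  -- separated good bases
  obtain ⟨g, hg1, hg2⟩ := exists_sep hp₁ G hG (fun t t' => |th t - th t'| < κ) nu hnear nu le_rfl
  have hsep : ∀ i j, i ≠ j → κ ≤ |th (g i) - th (g j)| := by
    intro i j hij
    rcases lt_or_gt_of_ne hij with h1 | h1
    · exact not_lt.1 (hg2 i j h1)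
    · rw [abs_sub_comm]
      exact not_lt.1 (hg2 j i h1)
  obtain ⟨γ, hγ1, hγ2⟩ := exists_coeffs nu (fun i => th (g i)) κ hκ0 hκ1 (fun i => hth _) hsep
  -- the slopes at the bases
  have hbase : ∀ p : Fin nu, ∃ L : E, ∑ s ∈ Finset.Ico n (X - n),
      Pr (r s) {d | (h + (14 * N₀ + 2) * h * R) * Y s <
        |∑ a : Fin nu, (((a : ℕ) : ℝ) + 1) * th (g p) ^ (a : ℕ) * c d a - B' L d|} ≤
        2 / u * (α + (δ + (4 * N₀ ^ 2 + 1) * (α / θ))) * X := fun p =>
    base_thm B' hsub n X N₀ hn hnX u hu hu1 hN₀ (Jr (g p)) (hJr _ (hg1 p).1 (hg1 p).2)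
      (fun i => q i (g p)) (fun i hi => hq i hi _ (hg1 p).2) r hr (fun _ t => χ (g p) t)
      (fun d => ∑ a : Fin nu, (((a : ℕ) : ℝ) + 1) * th (g p) ^ (a : ℕ) * c d a) Y hY hY2 h hh R
      hR0 hR Bg η hη hη1 hBg hBgc b ν α θ δ hθ hδ (hA _ (hg1 p).1 (hg1 p).2) hb0 hb hN hc
  choose L hL using hbase
  refine ⟨fun a => ∑ p, (γ p a / (((a : ℕ) : ℝ) + 1)) • L p, ?_⟩
  intro Jw hJw vv hvv χ' h₁ hw
  set h' : ℝ := h + (14 * N₀ + 2) * h * R with hh'
  have hh'0 : 0 ≤ h' := by positivity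
  -- the weights
  set W : Fin nu → ℝ := fun p => ∑ a : Fin nu, γ p a * (vv a / (((a : ℕ) : ℝ) + 1)) with hW
  set e : Fin nu → Fin nu → ℝ := fun p a => (((a : ℕ) : ℝ) + 1) * th (g p) ^ (a : ℕ) with he
  have hpos : ∀ a : Fin nu, (0 : ℝ) < ((a : ℕ) : ℝ) + 1 := fun a => by positivity
  have hv : ∀ j, vv j = ∑ p, W p * e p j := by
    intro j
    have h1 : ∑ p, W p * e p j = ∑ a : Fin nu, (vv a / (((a : ℕ) : ℝ) + 1)) *
        ((((j : ℕ) : ℝ) + 1) * ∑ p, γ p a * th (g p) ^ (j : ℕ)) := by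
      simp only [hW, he, Finset.sum_mul, Finset.mul_sum]
      rw [Finset.sum_comm]
      refine Finset.sum_congr rfl fun a _ => Finset.sum_congr rfl fun p _ => by ring
    rw [h1, Finset.sum_eq_single j]
    · rw [hγ2 j j, if_pos rfl]
      have := (hpos j).ne'
      field_simp
    · intro a _ ha
      rw [hγ2 a j, if_neg ha]
      ring
    · intro h2
      exact absurd (mem_univ j) h2
  have hWsum : ∑ p, |W p| ≤ nu * (nu * (2 / κ) ^ nu) := by
    have h1 : ∀ p, |W p| ≤ nu * (2 / κ) ^ nu := by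
      intro p
      calc |W p| ≤ ∑ a : Fin nu, |γ p a * (vv a / (((a : ℕ) : ℝ) + 1))| :=
            Finset.abs_sum_le_sum_abs _ _
        _ ≤ ∑ _a : Fin nu, (2 / κ) ^ nu := by
            refine Finset.sum_le_sum fun a _ => ?_
            rw [abs_mul, abs_div, abs_of_pos (hpos a)]
            have h2 : |vv a| / (((a : ℕ) : ℝ) + 1) ≤ 1 := by
              rw [div_le_one (hpos a)]
              exact hvv a
            have h3 := mul_le_mul (hγ1 p a) h2 (div_nonneg (abs_nonneg _) (hpos a).le)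
              (by positivity)
            rwa [mul_one] at h3
        _ = nu * (2 / κ) ^ nu := by
            rw [Finset.sum_const, card_univ, Fintype.card_fin, nsmul_eq_mul]
    calc ∑ p, |W p| ≤ ∑ _p : Fin nu, (nu : ℝ) * (2 / κ) ^ nu := Finset.sum_le_sum fun p _ => h1 p
      _ = _ := by rw [Finset.sum_const, card_univ, Fintype.card_fin, nsmul_eq_mul]
  have hLa : ∑ a, vv a • ∑ p, (γ p a / (((a : ℕ) : ℝ) + 1)) • L p = ∑ p, W p • L p := by
    simp only [hW, Finset.smul_sum, Finset.sum_smul, smul_smul]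
    rw [Finset.sum_comm]
    refine Finset.sum_congr rfl fun p _ => Finset.sum_congr rfl fun a _ => ?_
    congr 1
    ring
  show ‖χ' - ∑ a, vv a • ∑ p, (γ p a / (((a : ℕ) : ℝ) + 1)) • L p‖ ≤ _
  rw [hLa]
  -- a common depth
  set S : Finset ℕ := (Finset.Ico n (X - n)).filter (· ∈ Jw) with hS
  have hScard : u / 4 * X ≤ S.card := by
    refine le_trans ?_ hJw
    have h3 : (32 * n : ℝ) ≤ X := by exact_mod_cast hnX
    nlinarith
  have hSX : ∀ s ∈ S, s < X := fun s hs => by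
    have := mem_Ico.1 (mem_filter.1 hs).1
    omega
  obtain ⟨s, hs, hlt⟩ : ∃ s ∈ S, ∑ p, Pr (r s) {d | h' * Y s < |∑ j, e p j * c d j - B' (L p) d|} +
      Pr (r s) {d | h₁ * Y s < |∑ j, vv j * c d j - B' χ' d|} + b s < 1 := by
    by_contra hcon
    push Not at hcon
    have h1 : (S.card : ℝ) ≤ ∑ s ∈ S, (∑ p, Pr (r s) {d | h' * Y s <
        |∑ j, e p j * c d j - B' (L p) d|} +
        Pr (r s) {d | h₁ * Y s < |∑ j, vv j * c d j - B' χ' d|} + b s) := by
      rw [← mul_one (S.card : ℝ), ← nsmul_eq_mul, ← Finset.sum_const]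
      exact Finset.sum_le_sum hcon
    rw [Finset.sum_add_distrib, Finset.sum_add_distrib] at h1
    have h2 : ∑ s ∈ S, ∑ p, Pr (r s) {d | h' * Y s < |∑ j, e p j * c d j - B' (L p) d|} ≤
        nu * (2 / u * (α + (δ + (4 * N₀ ^ 2 + 1) * (α / θ))) * X) := by
      rw [Finset.sum_comm]
      calc ∑ p, ∑ s ∈ S, Pr (r s) {d | h' * Y s < |∑ j, e p j * c d j - B' (L p) d|}
          ≤ ∑ _p : Fin nu, 2 / u * (α + (δ + (4 * N₀ ^ 2 + 1) * (α / θ))) * X := by
            refine Finset.sum_le_sum fun p _ => le_trans ?_ (hL p)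
            refine Finset.sum_le_sum_of_subset_of_nonneg (filter_subset _ _) fun s hs _ => ?_
            refine Pool.KAF.Pr_nonneg (hr s ?_).nonneg _
            have := mem_Ico.1 hs
            omega
        _ = _ := by rw [Finset.sum_const, card_univ, Fintype.card_fin, nsmul_eq_mul]
    have h3 : ∑ s ∈ S, Pr (r s) {d | h₁ * Y s < |∑ j, vv j * c d j - B' χ' d|} ≤ θ₁ * X := by
      rw [hS, Finset.sum_filter]
      exact hw
    have h4 : ∑ s ∈ S, b s ≤ ν * X := by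
      refine le_trans ?_ hN
      exact Finset.sum_le_sum_of_subset_of_nonneg (fun s hs => mem_range.2 (hSX s hs))
        fun s hs _ => hb0 s (mem_range.1 hs)
    have h5 := mul_lt_mul_of_pos_right hc2 hXr
    have e1 : (nu * (2 / u * (α + (δ + (4 * N₀ ^ 2 + 1) * (α / θ)))) + θ₁ + ν) * X =
      nu * (2 / u * (α + (δ + (4 * N₀ ^ 2 + 1) * (α / θ))) * X) + θ₁ * X + ν * X := by ring
    rw [e1] at h5
    linarith
  exact combineV B' hadd hsmul c e L vv χ' W hv _ hWsum (hr s (hSX s hs)) (Y s) (hY s) h' h₁ hh'0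
    (b s) (hb s (hSX s hs)) hlt

end Pool.M5
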