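import Pool.Agent.H29.M5.Zr
import Pool.Agent.H92.M5.AlsE
import Pool.Agent.H92.M5.AlsF
import Pool.Agent.H92.M5.Line

/-!
# L1, row ALS: one reference
-/

set_option autoImplicit false

namespace Pool.M5.A92

open Finset Real
open Pool.Agent.H49.Ent Pool.Agent.H32.Dense Pool.STK Pool.KAF Pool.M5T Pool.M5.ALS

variable {k n : ℕ} {I : Type} [Fintype I] (b : Bas k I) (d : LDat k n I) (J : d.Om → Set ℕ)
  (m : (Fin (n + 1) → d.Om) → ℤ) (ns : ℕ)

/-- Many heavy rows in all blocks. -/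
def Jgd (h : ℕ) (u : ℝ) (ω : d.Om) : Prop :=
  ∀ j : ℕ, (j + 2) * h ≤ d.X →
    u * h ≤ (Set.ncard {r | r ∈ J ω ∧ j * h ≤ r ∧ r < (j + 1) * h} : ℝ)

open Classical in
/-- The depths with a small subcell. -/
noncomputable def Bf (η : ℝ) (v : Fin (n + 1) → d.Om) : Finset ℕ :=
  (range (d.X - 16 * ns)).filter (fun s =>
    law d.Qr (d.GA b m (8 * ns + s + 1)) (d.GA b m (8 * ns + s + 1) v) <
      η * law d.Qr (d.GA b m (8 * ns + s)) (d.GA b m (8 * ns + s) v))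

open Classical in
/-- The mass of the partners of a base at the deep scales, with a form which is not atomic. -/
noncomputable def Af (i₀ a k'' k₁ : ℕ) (v : Fin (n + 1) → d.Om) (ω : d.Om) : ℝ :=
  ∑ i ∈ range (ns - i₀), ∑ s ∈ range (d.X - 16 * ns),
    (if s + i ∈ {j | i₀ + j ∈ Jf d J m ns v ω} ∧ ns - i₀ ≤ s + i ∧ s + i < d.X - 16 * ns then
      Ex (qk d (i₀ + i) ω) (fun t => Pr (rk b d m ns s v) {v' | hk d m a k'' k₁ v * Yk ns a s <
        |∑ e : Fin n, (((e : ℕ) : ℝ) + 1) * d.th (d.T ω) ^ (e : ℕ) * cp b d v v' e -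
          Bp d v (ch b d ns v (ω, t)) v'|}) else 0)

theorem Bp_add (v v' : Fin (n + 1) → d.Om) (ξ ζ : Fin k → ℝ) :
    Bp d v (ξ + ζ) v' = Bp d v ξ v' + Bp d v ζ v' := by
  unfold Bp
  rw [← Finset.sum_add_distrib]
  exact Finset.sum_congr rfl fun j _ => by rw [Pi.add_apply]; ring

theorem Bp_smul (v v' : Fin (n + 1) → d.Om) (x : ℝ) (ξ : Fin k → ℝ) :
    Bp d v (x • ξ) v' = x * Bp d v ξ v' := by
  unfold Bp
  rw [Finset.mul_sum]
  exact Finset.sum_congr rfl fun j _ => by rw [Pi.smul_apply, smul_eq_mul]; ring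

theorem Bp_le (v v' : Fin (n + 1) → d.Om) (ξ : Fin k → ℝ) {r : ℝ}
    (hr : ‖d.yR (d.L (v' 0)) - d.yR (d.L (v 0))‖ ≤ r) :
    |Bp d v ξ v'| ≤ ‖ξ‖ * (k * r) := by
  unfold Bp
  refine (Finset.abs_sum_le_sum_abs _ _).trans ?_
  have h1 : ∀ j ∈ (univ : Finset (Fin k)),
      |ξ j * (d.yR (d.L (v' 0)) j - d.yR (d.L (v 0)) j)| ≤ ‖ξ‖ * r := by
    intro j _
    rw [abs_mul]
    have h2 := norm_le_pi_norm ξ j
    have h3 := norm_le_pi_norm (d.yR (d.L (v' 0)) - d.yR (d.L (v 0))) j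
    rw [Real.norm_eq_abs] at h2 h3
    rw [Pi.sub_apply] at h3
    exact mul_le_mul h2 (h3.trans hr) (abs_nonneg _) (norm_nonneg _)
  refine (Finset.sum_le_sum h1).trans (le_of_eq ?_)
  rw [Finset.sum_const, card_univ, Fintype.card_fin, nsmul_eq_mul]
  ring

theorem rk_law {A : ℕ} {c : ℝ} (hOK : d.OK b A c) (s : ℕ) {v : Fin (n + 1) → d.Om}
    (hv : 0 < d.Qr v) : IsLaw (rk b d m ns s v) :=
  isLaw_cnd (Qr_law hOK) (d.GA b m (8 * ns + s)) hv

variable {b d m ns}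

open Classical in
/-- **One reference.** -/
theorem line_v {A h i₀ a k₀ k'' k₁ N₀ : ℕ} {c u η θ ν α δ θ₁ : ℝ} (hOK : d.OK b A c)
    (hS : Siz b d ns h m c) (hi₀ : 2 * i₀ ≤ ns)
    (hnest : ∀ s v v', d.GA b m (s + 1) v = d.GA b m (s + 1) v' → d.GA b m s v = d.GA b m s v')
    (hu : 0 < u) (hu1 : u ≤ 1) (hN₀ : 8 / u ≤ N₀)
    (M : ℕ → (Fin (n + 1) → d.Om) → ℝ) (hM0 : ∀ s v, 0 ≤ M s v)
    {v : Fin (n + 1) → d.Om} (hv : 0 < d.Qr v)
    (hM : ∀ s ∈ Finset.Ico (8 * ns) (d.X - 8 * ns), ∀ ξ : Fin k → ℝ, 0 < ‖ξ‖ →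
      Pr (cond d.Qr (d.GA b m s) (d.GA b m s v))
        {v' | |∑ j, ξ j * (d.yR (d.L (v' 0)) j - d.yR (d.L (v 0)) j)| <
          ‖ξ‖ * (2 : ℝ) ^ (-((s : ℤ) + a))} ≤ M s v)
    (hη : 0 < η) (hη1 : η ≤ 1) (hθ : 0 < θ) (hδ : 3 * δ < 1)
    (hc : 2 * θ / η + ν ≤ δ * ((u / 4) ^ 2 / 16))
    (hc2 : n * (2 / u * (α + (δ + (4 * N₀ ^ 2 + 1) * (α / θ)))) + θ₁ + ν < u / 4)
    (hN : ∑ s ∈ range (d.X - 16 * ns), M (8 * ns + s) v ≤ ν * ((d.X - 16 * ns : ℕ) : ℝ))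
    (hB : ((Bf b d m ns η v).card : ℝ) ≤ (u / 4) ^ 2 * ((d.X - 16 * ns : ℕ) : ℝ) / 16)
    (hG : Pr (pk d v) {ω | Jgd d J h u ω ∧ Af b d J m ns i₀ a k'' k₁ v ω ≤
      α * (((ns - i₀ : ℕ) : ℝ) * ((d.X - 16 * ns : ℕ) : ℝ))}ᶜ ≤ 1 / 4)
    (hnear : Ex (pk d v) (fun t => Pr (pk d v) {t' | |d.th (d.T t) - d.th (d.T t')| <
      (2 : ℝ) ^ (-(k₀ : ℤ))}) ≤ 1 / (16 * (n + 1))) :
    ∃ La : Fin n → Fin k → ℝ, ∀ (w : d.Om × d.Om) (j : ℕ) (h₁ : ℝ), Jgd d J h u w.1 →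
      j ≤ 2 * ns →
      ∑ s ∈ Finset.Ico (ns - i₀) (d.X - 16 * ns - (ns - i₀)),
        (if s + j ∈ Jf d J m ns v w.1 then Pr (rk b d m ns s v) {v' | h₁ * Yk ns a s <
          |∑ e : Fin n, (d.dt e w / d.ta w) * cp b d v v' e - Bp d v (ch b d ns v w) v'|}
          else 0) ≤ θ₁ * ((d.X - 16 * ns : ℕ) : ℝ) →
      ‖ch b d ns v w - ∑ e, (d.dt e w / d.ta w) • La e‖ ≤
        (n * (n * (2 / (2 : ℝ) ^ (-(k₀ : ℤ))) ^ n)) * (hk d m a k'' k₁ v +
          (14 * N₀ + 2) * hk d m a k'' k₁ v * (k * 2 ^ a)) + h₁ := by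
  classical
  have h1 := hS.h1
  have h2 := hS.hn
  have h3 := hS.nX
  have hm1 := hS.m1 v
  have hm2 := hS.m2 v
  set X' : ℕ := d.X - 16 * ns with hX'
  set n₁ : ℕ := ns - i₀ with hn₁
  have hpk : IsLaw (pk d v) := by
    have h4 := ((Qr_pos hOK).1 hv).1 0
    exact isLaw_cnd hOK.law d.L h4
  have hpos : ∀ ω, 0 < pk d v ω → 0 < d.P ω := fun ω hω =>
    ((cond_pos_iff hOK.law.nonneg d.L (d.L (v 0)) ω).1 hω).1
  have hYp : ∀ s, 0 < Yk ns a s := fun s => by unfold Yk; positivity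
  have hcellpos : ∀ s v', 0 < rk b d m ns s v v' →
      ‖d.yR (d.L (v' 0)) - d.yR (d.L (v 0))‖ ≤ 2 ^ a * Yk ns a s := by
    intro s v' hv'
    have h4 := ((cond_pos_iff (Qr_law hOK).nonneg _ _ v').1 hv').2
    have h5 := GA_yle b d (s := 8 * ns + s) h4
    rw [norm_sub_rev]
    refine h5.trans (le_of_eq ?_)
    unfold Yk
    rw [← zpow_natCast, ← zpow_add₀ (by norm_num)]
    congr 1
    push_cast
    ring
  obtain ⟨La, hLa⟩ := line_thm (T := d.Om) (D := Fin (n + 1) → d.Om) (E := Fin k → ℝ)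
    (fun ξ v' => Bp d v ξ v') (fun ξ ζ v' => Bp_add d v v' ξ ζ) (fun x ξ v' => Bp_smul d v v' x ξ)
    n k₀ n₁ X' N₀ (cp b d v) (fun t => d.th (d.T t)) (fun t => by
      have := hOK.hth (d.T t)
      rw [abs_of_nonneg this.1]
      exact this.2.le) (pk d v) hpk _ hG hnear (by omega) (by omega) u hu hu1 hN₀
    (fun ω => {j | i₀ + j ∈ Jf d J m ns v ω}) (by
      intro ω hω _ R₁ R₂ hR hR2
      have h4 := dens_shift (S := J ω) (X := d.X) hu.le h1 hω.1 (((8 * ns + i₀ : ℕ) : ℤ) + m v)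
        (by push_cast; omega) R₁ R₂ (by omega) (by push_cast; omega)
      refine h4.trans (le_of_eq ?_)
      congr 2
      refine Finset.filter_congr fun j _ => ?_
      unfold Jf
      simp only [Set.mem_ofPred_eq]
      rw [show (((8 * ns + i₀ : ℕ) : ℤ) + m v + (j : ℤ)) =
        (((8 * ns + (i₀ + j) : ℕ) : ℤ) + m v) by push_cast; ring])
    (fun i ω => qk d (i₀ + i) ω)
    (fun i _ ω hω => isLaw_cnd hOK.law (fun v => (d.L v, d.Ti (i₀ + i) v)) (hpos ω hω))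
    (fun s => rk b d m ns s v) (fun s _ => rk_law b d m ns hOK s hv)
    (fun ω t => ch b d ns v (ω, t)) (Yk ns a) hYp (fun s => by
      unfold Yk
      rw [← zpow_one_add₀ (by norm_num)]
      refine zpow_le_zpow_right₀ (by norm_num) ?_
      push_cast
      linarith) (hk d m a k'' k₁ v) (by unfold hk; positivity) (k * 2 ^ a) (by positivity)
    (fun s _ v' hv' ξ => by
      refine (Bp_le d v v' ξ (hcellpos s v' hv')).trans (le_of_eq ?_)
      ring) (Bf b d m ns η v) η hη hη1 (by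
      intro s hs hsB v'
      have h4 : η * law d.Qr (d.GA b m (8 * ns + s)) (d.GA b m (8 * ns + s) v) ≤
          law d.Qr (d.GA b m (8 * ns + s + 1)) (d.GA b m (8 * ns + s + 1) v) := by
        by_contra hcon
        exact hsB (mem_filter.2 ⟨mem_range.2 (by omega), not_le.1 hcon⟩)
      have hl0 : 0 < law d.Qr (d.GA b m (8 * ns + s)) (d.GA b m (8 * ns + s) v) :=
        law_pos (Qr_law hOK).nonneg _ hv
      have hl1 : 0 < law d.Qr (d.GA b m (8 * ns + s + 1)) (d.GA b m (8 * ns + s + 1) v) :=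
        law_pos (Qr_law hOK).nonneg _ hv
      show η * cond d.Qr (d.GA b m (8 * ns + s + 1)) (d.GA b m (8 * ns + s + 1) v) v' ≤
        cond d.Qr (d.GA b m (8 * ns + s)) (d.GA b m (8 * ns + s) v) v'
      unfold Pool.Agent.H49.Ent.cond
      by_cases h5 : d.GA b m (8 * ns + s + 1) v' = d.GA b m (8 * ns + s + 1) v
      · rw [if_pos h5, if_pos (hnest _ _ _ h5), mul_div_assoc', div_le_div_iff₀ hl1 hl0]
        have := mul_le_mul_of_nonneg_left h4 ((Qr_law hOK).nonneg v')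
        linarith
      · rw [if_neg h5, mul_zero]
        split_ifs
        · exact div_nonneg ((Qr_law hOK).nonneg v') hl0.le
        · exact le_rfl) hB (fun s => M (8 * ns + s) v) ν α θ δ θ₁ hθ hδ
    (fun ω hω _ => hω.2) (fun s _ => hM0 _ _) (by
      intro s hs ξ
      rcases (norm_nonneg ξ).eq_or_lt with h0 | h0
      · refine le_trans (le_of_eq ?_) (hM0 (8 * ns + s) v)
        rw [Pool.KAF.Pr_eq]
        refine Finset.sum_eq_zero fun v' _ => ?_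
        rw [if_neg]
        intro h5
        simp only [Set.mem_ofPred_eq, ← h0, zero_mul] at h5
        exact absurd h5 (not_lt.2 (abs_nonneg _))
      · exact hM (8 * ns + s) (mem_Ico.2 ⟨by omega, by omega⟩) ξ h0) hN hc hc2
  refine ⟨La, ?_⟩
  intro w j h₁ hw hj hsum
  refine hLa {s | s + j ∈ Jf d J m ns v w.1} ?_ (fun e => d.dt e w / d.ta w) ?_
    (ch b d ns v w) h₁ ?_
  · have h4 := dens_shift (S := J w.1) (X := d.X) hu.le h1 hw (((8 * ns + j : ℕ) : ℤ) + m v)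
      (by push_cast; omega) n₁ (X' - n₁) (by omega) (by
        have : ((X' - n₁ : ℕ) : ℤ) = (d.X : ℤ) - 16 * ns - n₁ := by omega
        rw [this]
        push_cast
        omega)
    have e1 : ((X' - n₁ : ℕ) : ℝ) - (n₁ : ℝ) = (X' : ℝ) - 2 * n₁ := by
      rw [Nat.cast_sub (by omega)]
      ring
    rw [e1] at h4
    refine h4.trans (le_of_eq ?_)
    congr 2
    refine Finset.filter_congr fun s _ => ?_
    unfold Jf
    simp only [Set.mem_ofPred_eq]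
    rw [show (((8 * ns + j : ℕ) : ℤ) + m v + (s : ℤ)) =
      (((8 * ns + (s + j) : ℕ) : ℤ) + m v) by push_cast; ring]
  · intro e
    have h4 := dt_le b d hOK e w
    rw [abs_div]
    rcases (abs_nonneg (d.ta w)).eq_or_lt with h0 | h0
    · rw [← h0, div_zero]
      positivity
    · rw [div_le_iff₀ h0]
      exact h4
  · exact hsum

end Pool.M5.A92
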