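import Pool.Agent.H7.SLP.H5L

/-!
# The row CRAD: the static box at a larger radius

The static box `sbx i₁ a P` contains the time with the side information, the tangential position to
`a` digits, the height of the own sheet over the corner of the cell and its shape over the cell, to
`P` digits. If the shape is known to `P + Y` digits and `K (a - a') ≤ Y` then the static box at the
larger radius `a' ≤ a` (same `P`) is known up to a bounded number of possibilities.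
-/

set_option autoImplicit false

namespace Pool.SLP.Crd

open Finset Real MvPolynomial
open Pool.Agent.H49.Ent Pool.Agent.H32.Dense Pool.STK Pool.KAF Pool.KA Pool.KSAT Pool.K2S
open Pool.PB Pool.SLO Pool.KAL

variable {m J : ℕ}

/-- The digits determine the shape on a large ball. -/
theorem shape_large (F : Fam m J) (i₁ : Fin m) (a P K : ℕ) (G : F.Ω → MvPolynomial (Fin m) ℝ)
    (s : ℕ) {R : ℝ} (hR : 1 ≤ R) {ω ω' : F.Ω} (hG : (G ω).totalDegree ≤ K)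
    (hG' : (G ω').totalDegree ≤ K) (hc : tdg i₁ a F.x ω = tdg i₁ a F.x ω')
    (e : Sc F i₁ a P K G s ω = Sc F i₁ a P K G s ω') (z : Fin m → ℝ)
    (hz : ∀ i, |z i - tco i₁ a F.x ω i| ≤ R / 2 ^ a) :
    |(gfn F i₁ G ω z - gfn F i₁ G ω (tco i₁ a F.x ω)) -
      (gfn F i₁ G ω' z - gfn F i₁ G ω' (tco i₁ a F.x ω'))| ≤
        ((mons m K).card * R ^ K) / 2 ^ (P + s) := by
  classical
  have hco : tco i₁ a F.x ω = tco i₁ a F.x ω' := tco_eq i₁ F.x hc
  have hR0 : 0 ≤ R := by linarith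
  set u : Fin m → ℝ := fun i => 2 ^ a * (z i - tco i₁ a F.x ω i) with hu
  have hu3 : ∀ i, |u i| ≤ R := by
    intro i
    have h0 : (0 : ℝ) < 2 ^ a := by positivity
    rw [hu]
    simp only
    rw [abs_mul, abs_of_pos h0]
    calc (2 : ℝ) ^ a * |z i - tco i₁ a F.x ω i| ≤ 2 ^ a * (R / 2 ^ a) :=
          mul_le_mul_of_nonneg_left (hz i) h0.le
      _ = R := by field_simp
  have key : ∀ ω₁ : F.Ω, (G ω₁).totalDegree ≤ K → tco i₁ a F.x ω = tco i₁ a F.x ω₁ →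
      gfn F i₁ G ω₁ z - gfn F i₁ G ω₁ (tco i₁ a F.x ω₁) =
        ∑ al ∈ (mons m K).filter (fun al => al ≠ 0), coeff al (cpl F i₁ a G ω₁) *
          ∏ i, u i ^ al i := by
    intro ω₁ h1 h2
    have hd : (cpl F i₁ a G ω₁).totalDegree ≤ K := (totalDegree_cpl_le F i₁ a G ω₁).trans h1
    rw [gfn_cpl F i₁ a G ω₁ z, gfn_cpl F i₁ a G ω₁ (tco i₁ a F.x ω₁)]
    have e1 : (fun i => 2 ^ a * (z i - tco i₁ a F.x ω₁ i)) = u := by
      rw [hu, h2]
    have e2 : (fun i => 2 ^ a * (tco i₁ a F.x ω₁ i - tco i₁ a F.x ω₁ i)) =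
        (fun _ : Fin m => (0 : ℝ)) := by
      funext i
      ring
    rw [e1, e2, eval_of_degree hd, eval_of_degree hd, ← Finset.sum_sub_distrib,
      Finset.sum_filter]
    refine Finset.sum_congr rfl fun al _ => ?_
    by_cases h3 : al = 0
    · subst h3
      simp
    · rw [if_pos h3]
      have h4 : ∃ i, al i ≠ 0 := by
        by_contra hcon
        refine h3 (Finsupp.ext fun i => ?_)
        by_contra h5
        exact hcon ⟨i, h5⟩
      obtain ⟨i, hi⟩ := h4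
      have h6 : ∏ j : Fin m, (0 : ℝ) ^ al j = 0 :=
        Finset.prod_eq_zero (Finset.mem_univ i) (zero_pow hi)
      rw [h6, mul_zero, sub_zero]
  rw [key ω hG rfl, key ω' hG' hco, ← Finset.sum_sub_distrib]
  refine (Finset.abs_sum_le_sum_abs _ _).trans ?_
  have hterm : ∀ al ∈ (mons m K).filter (fun al => al ≠ 0),
      |coeff al (cpl F i₁ a G ω) * ∏ i, u i ^ al i -
        coeff al (cpl F i₁ a G ω') * ∏ i, u i ^ al i| ≤ R ^ K / 2 ^ (P + s) := by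
    intro al hal
    rw [Finset.mem_filter] at hal
    have h1 := congrFun e al
    unfold Sc at h1
    rw [if_pos hal, if_pos hal] at h1
    unfold SLO.hz at h1
    have h2 := Pool.OCT.floor_eq_near h1
    have hpp : (0 : ℝ) < 2 ^ (P + s) := by positivity
    rw [← mul_sub, abs_mul, abs_of_pos hpp] at h2
    have h3 : |coeff al (cpl F i₁ a G ω) - coeff al (cpl F i₁ a G ω')| ≤ 1 / 2 ^ (P + s) := by
      rw [le_div_iff₀ hpp, mul_comm]
      exact h2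
    have h4 : |∏ i, u i ^ al i| ≤ R ^ K := by
      rw [Finset.abs_prod]
      have h5 : ∏ i, |u i ^ al i| ≤ ∏ i, R ^ al i := by
        refine Finset.prod_le_prod (fun i _ => abs_nonneg _) fun i _ => ?_
        rw [abs_pow]
        exact pow_le_pow_left₀ (abs_nonneg _) (hu3 i) _
      refine h5.trans ?_
      rw [Finset.prod_pow_eq_pow_sum]
      refine pow_le_pow_right₀ hR ?_
      have h6 := mem_mons.1 hal.1
      rw [Finsupp.sum_fintype _ _ (fun _ => rfl)] at h6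
      exact h6
    rw [← sub_mul, abs_mul]
    calc |coeff al (cpl F i₁ a G ω) - coeff al (cpl F i₁ a G ω')| * |∏ i, u i ^ al i| ≤
        1 / 2 ^ (P + s) * R ^ K := mul_le_mul h3 h4 (abs_nonneg _) (by positivity)
      _ = R ^ K / 2 ^ (P + s) := by ring
  refine (Finset.sum_le_sum hterm).trans ?_
  rw [Finset.sum_const, nsmul_eq_mul]
  have hcard : (((mons m K).filter (fun al => al ≠ 0)).card : ℝ) ≤ (mons m K).card := by
    exact_mod_cast Finset.card_filter_le _ _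
  calc (((mons m K).filter (fun al => al ≠ 0)).card : ℝ) * (R ^ K / 2 ^ (P + s)) ≤
      (mons m K).card * (R ^ K / 2 ^ (P + s)) :=
        mul_le_mul_of_nonneg_right hcard (by positivity)
    _ = _ := by ring

/-- The fine shape and the coarse height determine the sheet on the larger ball. -/
theorem ball_diff (F : Fam m J) (i₁ : Fin m) {a a' P Y K : ℕ}
    (G : F.Ω → MvPolynomial (Fin m) ℝ) (ha : a' ≤ a) (hY : K * (a - a') ≤ Y) {ω ω' : F.Ω}
    (hG : (G ω).totalDegree ≤ K) (hG' : (G ω').totalDegree ≤ K)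
    (hc : tdg i₁ a F.x ω = tdg i₁ a F.x ω')
    (hh : ⌊(2 : ℝ) ^ P * gfn F i₁ G ω (tco i₁ a F.x ω)⌋ =
      ⌊(2 : ℝ) ^ P * gfn F i₁ G ω' (tco i₁ a F.x ω')⌋)
    (e : Sc F i₁ a P K G Y ω = Sc F i₁ a P K G Y ω') (z : Fin m → ℝ)
    (hz : ∀ i, |z i - tco i₁ a F.x ω i| ≤ 5 / 2 ^ a') :
    |gfn F i₁ G ω z - gfn F i₁ G ω' z| ≤ ((mons m K).card * 5 ^ K + 1) / 2 ^ P := by
  have hR : (1 : ℝ) ≤ 5 * 2 ^ (a - a') := by
    have : (1 : ℝ) ≤ 2 ^ (a - a') := one_le_pow₀ (by norm_num)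
    linarith
  have h1 := shape_large F i₁ a P K G Y hR hG hG' hc e z (by
    intro i
    refine (hz i).trans (le_of_eq ?_)
    have e1 : (2 : ℝ) ^ a = 2 ^ (a - a') * 2 ^ a' := by
      rw [← pow_add, Nat.sub_add_cancel ha]
    rw [e1]
    field_simp)
  have h2 := Pool.OCT.floor_eq_near hh
  have hpp : (0 : ℝ) < 2 ^ P := by positivity
  rw [← mul_sub, abs_mul, abs_of_pos hpp] at h2
  have h3 : |gfn F i₁ G ω (tco i₁ a F.x ω) - gfn F i₁ G ω' (tco i₁ a F.x ω')| ≤ 1 / 2 ^ P := by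
    rw [le_div_iff₀ hpp, mul_comm]
    exact h2
  have h4 : ((mons m K).card * (5 * 2 ^ (a - a')) ^ K : ℝ) / 2 ^ (P + Y) ≤
      (mons m K).card * 5 ^ K / 2 ^ P := by
    rw [mul_pow, ← pow_mul, pow_add, div_le_div_iff₀ (by positivity) hpp]
    have h5 : (2 : ℝ) ^ ((a - a') * K) ≤ 2 ^ Y := pow_le_pow_right₀ (by norm_num) (by
      rw [mul_comm]
      exact hY)
    calc ((mons m K).card : ℝ) * (5 ^ K * 2 ^ ((a - a') * K)) * 2 ^ P =
        (mons m K).card * 5 ^ K * 2 ^ P * 2 ^ ((a - a') * K) := by ring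
      _ ≤ (mons m K).card * 5 ^ K * 2 ^ P * 2 ^ Y :=
          mul_le_mul_of_nonneg_left h5 (by positivity)
      _ = _ := by ring
  have h6 : gfn F i₁ G ω z - gfn F i₁ G ω' z =
      ((gfn F i₁ G ω z - gfn F i₁ G ω (tco i₁ a F.x ω)) -
      (gfn F i₁ G ω' z - gfn F i₁ G ω' (tco i₁ a F.x ω'))) +
      (gfn F i₁ G ω (tco i₁ a F.x ω) - gfn F i₁ G ω' (tco i₁ a F.x ω')) := by ring
  rw [h6]
  refine (abs_add_le _ _).trans ?_
  have h7 : ((mons m K).card * 5 ^ K + 1 : ℝ) / 2 ^ P =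
      (mons m K).card * 5 ^ K / 2 ^ P + 1 / 2 ^ P := by ring
  rw [h7]
  linarith

/-- **CRAD, two samples**: the coefficients on the larger cell and the height over its corner. -/
theorem two (m K : ℕ) : ∃ M : ℝ, 0 ≤ M ∧ ∀ {J : ℕ} (F : Fam m J) (i₁ : Fin m) {a a' P Y : ℕ}
    (G : F.Ω → MvPolynomial (Fin m) ℝ) {ω ω' : F.Ω}, a' ≤ a → K * (a - a') ≤ Y →
    (G ω).totalDegree ≤ K → (G ω').totalDegree ≤ K → tdg i₁ a F.x ω = tdg i₁ a F.x ω' →
    ⌊(2 : ℝ) ^ P * gfn F i₁ G ω (tco i₁ a F.x ω)⌋ =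
      ⌊(2 : ℝ) ^ P * gfn F i₁ G ω' (tco i₁ a F.x ω')⌋ →
    Sc F i₁ a P K G Y ω = Sc F i₁ a P K G Y ω' →
    tdg i₁ a' F.x ω = tdg i₁ a' F.x ω' ∧
    |gfn F i₁ G ω (tco i₁ a' F.x ω) - gfn F i₁ G ω' (tco i₁ a' F.x ω')| ≤ M / 2 ^ P ∧
    ∀ al, |coeff al (cpl F i₁ a' G ω) - coeff al (cpl F i₁ a' G ω')| ≤ M / 2 ^ P := by
  obtain ⟨C₁, hC₁, hcube⟩ := coef_cube m K
  refine ⟨C₁ * ((mons m K).card * 5 ^ K + 1), by positivity, ?_⟩
  intro J F i₁ a a' P Y G ω ω' ha hY hG hG' hc hh e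
  have hc' : tdg i₁ a' F.x ω = tdg i₁ a' F.x ω' := tdg_mono i₁ ha F.x hc
  have hco' : tco i₁ a' F.x ω = tco i₁ a' F.x ω' := tco_eq i₁ F.x hc'
  have hb := ball_diff F i₁ G ha hY hG hG' hc hh e
  have hM0 : (0 : ℝ) ≤ ((mons m K).card * 5 ^ K + 1) / 2 ^ P := by positivity
  have hpa : (0 : ℝ) < 2 ^ a' := by positivity
  have hle : (1 : ℝ) / 2 ^ a ≤ 1 / 2 ^ a' :=
    one_div_le_one_div_of_le hpa (pow_le_pow_right₀ (by norm_num) ha)
  have hd : ∀ i, |tco i₁ a' F.x ω i - tco i₁ a F.x ω i| ≤ 2 / 2 ^ a' := by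
    intro i
    have h1 := tps_tco i₁ a F.x ω i
    have h2 := tps_tco i₁ a' F.x ω i
    have e1 : (2 : ℝ) / 2 ^ a' = 1 / 2 ^ a' + 1 / 2 ^ a' := by ring
    rw [e1]
    rw [abs_le] at h1 h2 ⊢
    constructor <;> linarith [h1.1, h1.2, h2.1, h2.2]
  refine ⟨hc', ?_, ?_⟩
  · rw [← hco']
    refine (hb (tco i₁ a' F.x ω) (fun i => (hd i).trans ?_)).trans ?_
    · exact div_le_div_of_nonneg_right (by norm_num) hpa.le
    · refine div_le_div_of_nonneg_right ?_ (by positivity)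
      have : (0 : ℝ) ≤ (mons m K).card * 5 ^ K + 1 := by positivity
      nlinarith
  · intro al
    rw [← coeff_sub]
    have hdeg : (cpl F i₁ a' G ω - cpl F i₁ a' G ω').totalDegree ≤ K :=
      (totalDegree_sub _ _).trans (max_le ((totalDegree_cpl_le F i₁ a' G ω).trans hG)
        ((totalDegree_cpl_le F i₁ a' G ω').trans hG'))
    refine (abs_coeff_le _ al).trans ?_
    refine (hcube _ (((mons m K).card * 5 ^ K + 1) / 2 ^ P) (fun _ => 0) hdeg
      (fun i => by norm_num) ?_).trans (le_of_eq (by ring))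
    intro u hu
    rw [map_sub, eval_cpl, eval_cpl, ← hco']
    refine hb _ fun i => ?_
    have h1 := hd i
    have h2 := hu i
    have e1 : (5 : ℝ) / 2 ^ a' = 2 / 2 ^ a' + 3 / 2 ^ a' := by ring
    have e2 : |(1 : ℝ) / 2 ^ a' * u i| ≤ 3 / 2 ^ a' := by
      rw [abs_mul, abs_of_pos (by positivity : (0 : ℝ) < 1 / 2 ^ a'), abs_of_nonneg h2.1]
      have h3 : u i ≤ 3 := by linarith [h2.2]
      calc (1 : ℝ) / 2 ^ a' * u i ≤ 1 / 2 ^ a' * 3 :=
            mul_le_mul_of_nonneg_left h3 (by positivity)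
        _ = 3 / 2 ^ a' := by ring
    rw [e1]
    have e3 : tco i₁ a' F.x ω i + 1 / 2 ^ a' * u i - tco i₁ a F.x ω i =
        (tco i₁ a' F.x ω i - tco i₁ a F.x ω i) + 1 / 2 ^ a' * u i := by ring
    rw [e3]
    exact (abs_add_le _ _).trans (add_le_add h1 e2)

/-- **CRAD, one step.** -/
theorem crad_step (m K : ℕ) : ∃ C : ℝ, 0 ≤ C ∧ ∀ {J : ℕ} (F : Fam m J) (i₁ : Fin m)
    (q : F.Ω → ℝ) (G : F.Ω → MvPolynomial (Fin m) ℝ) (a a' P Y : ℕ), IsLaw q →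
    (∀ ω, 0 < q ω → (G ω).totalDegree ≤ K) → a' ≤ a → K * (a - a') ≤ Y →
    CH q (sbx i₁ a' P F.x (gfn F i₁ G) F.W (Sc F i₁ a' P K G) 0)
      (fun ω => (Sc F i₁ a P K G Y ω,
        sbx i₁ a P F.x (gfn F i₁ G) F.W (Sc F i₁ a P K G) 0 ω)) ≤ C := by
  classical
  obtain ⟨M, hM, h2⟩ := two m K
  obtain ⟨N, hN⟩ : ∃ N : ℕ, N = (mons m K).card := ⟨_, rfl⟩
  have e₀ : Fin N ≃ {x // x ∈ mons m K} := by
    rw [hN]
    exact (mons m K).equivFin.symm
  refine ⟨(N + 1 : ℕ) * Real.log (2 * (M + 1) + 1), by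
    have : 0 ≤ Real.log (2 * (M + 1) + 1) := Real.log_nonneg (by linarith)
    positivity, ?_⟩
  intro J F i₁ q G a a' P Y hq hG ha hY
  have hnn := hq.nonneg
  set X' : F.Ω → Fin (N + 1) → ℤ := fun ω => Fin.cons
    (⌊(2 : ℝ) ^ (P + 0) * gfn F i₁ G ω (tco i₁ a' F.x ω)⌋)
    (fun j => hz (P + 0) (cpl F i₁ a' G ω) (e₀ j).1) with hX'
  refine (CH_mono_left hnn (X' := X') ?_).trans ?_
  · intro ω ω' hω hω' hh
    have g1 : X' ω = X' ω' := (Prod.ext_iff.1 hh).1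
    have g2 := (Prod.ext_iff.1 (Prod.ext_iff.1 hh).2).2
    have g3 : F.W ω = F.W ω' := congrArg (fun x => x.1) g2
    have g4 : tdg i₁ a F.x ω = tdg i₁ a F.x ω' := congrArg (fun x => x.2.1) g2
    refine Prod.ext g3 (Prod.ext (tdg_mono i₁ ha F.x g4) (Prod.ext ?_ ?_))
    · show ⌊(2 : ℝ) ^ (P + 0) * gfn F i₁ G ω (tco i₁ a' F.x ω)⌋ =
        ⌊(2 : ℝ) ^ (P + 0) * gfn F i₁ G ω' (tco i₁ a' F.x ω')⌋
      have h3 := congrFun g1 0
      rw [hX'] at h3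
      simpa using h3
    · funext al
      show Sc F i₁ a' P K G 0 ω al = Sc F i₁ a' P K G 0 ω' al
      unfold Sc
      by_cases hal : al ∈ mons m K ∧ al ≠ 0
      · rw [if_pos hal, if_pos hal]
        have h3 := congrFun g1 (Fin.succ (e₀.symm ⟨al, hal.1⟩))
        rw [hX'] at h3
        simpa using h3
      · rw [if_neg hal, if_neg hal]
  · refine (CH_le_vec hnn hq.sum_one X' _ (fun _ => M + 1) ?_).trans ?_
    · intro ω ω' hω hω' hh k
      have g1 : Sc F i₁ a P K G Y ω = Sc F i₁ a P K G Y ω' := (Prod.ext_iff.1 hh).1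
      have g2 := (Prod.ext_iff.1 hh).2
      have g4 : tdg i₁ a F.x ω = tdg i₁ a F.x ω' := congrArg (fun x => x.2.1) g2
      have g5 : ⌊(2 : ℝ) ^ P * gfn F i₁ G ω (tco i₁ a F.x ω)⌋ =
          ⌊(2 : ℝ) ^ P * gfn F i₁ G ω' (tco i₁ a F.x ω')⌋ := congrArg (fun x => x.2.2.1) g2
      obtain ⟨-, h3, h4⟩ := h2 F i₁ G ha hY (hG ω hω) (hG ω' hω') g4 g5 g1
      have hpp : (0 : ℝ) < 2 ^ P := by positivity
      have hfl : ∀ x y : ℝ, |x - y| ≤ M / 2 ^ P →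
          |((⌊(2 : ℝ) ^ (P + 0) * x⌋ - ⌊(2 : ℝ) ^ (P + 0) * y⌋ : ℤ) : ℝ)| ≤ M + 1 := by
        intro x y hxy
        refine Pool.OCT.floor_diff (L := M) ?_
        rw [add_zero, ← mul_sub, abs_mul, abs_of_pos hpp]
        calc (2 : ℝ) ^ P * |x - y| ≤ 2 ^ P * (M / 2 ^ P) :=
              mul_le_mul_of_nonneg_left hxy hpp.le
          _ = M := by field_simp
      refine Fin.cases ?_ (fun j => ?_) k
      · exact hfl _ _ h3
      · exact hfl _ _ (h4 _)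
    · rw [Ex_const hq.sum_one]

/-- **CRAD**: the static box at a larger radius, same row. -/
theorem crad (m K : ℕ) : ∃ C : ℝ, 0 ≤ C ∧ ∀ {J : ℕ} (F : Fam m J) (i₁ : Fin m)
    (q : F.Ω → ℝ) (G : F.Ω → MvPolynomial (Fin m) ℝ) (P Y N : ℕ) (r : ℕ → ℕ), IsLaw q →
    (∀ ω, 0 < q ω → (G ω).totalDegree ≤ K) →
    (∀ j < N, r (j + 1) ≤ r j ∧ K * (r j - r (j + 1)) ≤ Y) →
    CH q (sbx i₁ (r N) P F.x (gfn F i₁ G) F.W (Sc F i₁ (r N) P K G) 0)
      (sbx i₁ (r 0) P F.x (gfn F i₁ G) F.W (Sc F i₁ (r 0) P K G) 0) ≤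
      ∑ j ∈ range N, (CH q (Sc F i₁ (r j) P K G Y)
        (sbx i₁ (r j) P F.x (gfn F i₁ G) F.W (Sc F i₁ (r j) P K G) 0) + C) := by
  classical
  obtain ⟨C, hC, hs⟩ := crad_step m K
  refine ⟨C, hC, ?_⟩
  intro J F i₁ q G P Y N r hq hG hr
  have hnn := hq.nonneg
  induction N with
  | zero =>
    rw [Finset.range_zero, Finset.sum_empty]
    exact (CH_eq_zero hnn fun ω ω' _ _ h => h).le
  | succ N ih =>
    rw [Finset.sum_range_succ]
    have h1 := ih fun j hj => hr j (by omega)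
    have h2 := hr N (by omega)
    have h3 := CH_le_add hnn
      (sbx i₁ (r (N + 1)) P F.x (gfn F i₁ G) F.W (Sc F i₁ (r (N + 1)) P K G) 0)
      (sbx i₁ (r N) P F.x (gfn F i₁ G) F.W (Sc F i₁ (r N) P K G) 0)
      (sbx i₁ (r 0) P F.x (gfn F i₁ G) F.W (Sc F i₁ (r 0) P K G) 0)
    have h4 : CH q (sbx i₁ (r (N + 1)) P F.x (gfn F i₁ G) F.W (Sc F i₁ (r (N + 1)) P K G) 0)
        (fun ω => (sbx i₁ (r N) P F.x (gfn F i₁ G) F.W (Sc F i₁ (r N) P K G) 0 ω,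
          sbx i₁ (r 0) P F.x (gfn F i₁ G) F.W (Sc F i₁ (r 0) P K G) 0 ω)) ≤
        CH q (sbx i₁ (r (N + 1)) P F.x (gfn F i₁ G) F.W (Sc F i₁ (r (N + 1)) P K G) 0)
        (sbx i₁ (r N) P F.x (gfn F i₁ G) F.W (Sc F i₁ (r N) P K G) 0) :=
      CH_mono_cond hnn fun ω ω' _ _ h => (Prod.ext_iff.1 h).1
    have h5 := CH_le_add hnn
      (sbx i₁ (r (N + 1)) P F.x (gfn F i₁ G) F.W (Sc F i₁ (r (N + 1)) P K G) 0)
      (Sc F i₁ (r N) P K G Y)
      (sbx i₁ (r N) P F.x (gfn F i₁ G) F.W (Sc F i₁ (r N) P K G) 0)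
    have h6 := hs F i₁ q G (r N) (r (N + 1)) P Y hq hG h2.1 h2.2
    linarith

end Pool.SLP.Crd
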