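import Pool.Agent.H20.OC.ALS

/-!
# L1: agreement of the atomic slopes at all scales, slopes in a normed space

Vector form of `Pool.OC.als_one` (helper20). At a fixed base the partners at the scale `i` have the
law `q i` and the slopes `χ i`, vectors of a normed space `E` (of linear forms); the copies in the
cell number `s` have the law `r s`, the differences `db` (numbers) and `B ξ d` (the value of the
form `ξ` at the difference `dy` of the copy `d`). The law of `dy` is spread in every direction. If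
the form `db - B χ` is atomic for typical `(i, s)` with `s + i` in the set `J` of nonfull rows, then
all slopes agree, at all but few scales.
-/

set_option autoImplicit false

namespace Pool.M5

open Finset Real
open Pool.Agent.H49.Ent Pool.Agent.H32.Dense Pool.STK Pool.KAF Pool.OC

section

variable {T T' D E : Type} [Fintype T] [Fintype T'] [Fintype D] [NormedAddCommGroup E]

/-- Two slopes which are both atomic in the same cell are near. -/
theorem pair_leV {q : T → ℝ} {q' : T' → ℝ} {r : D → ℝ} (hq : IsLaw q) (hq' : IsLaw q')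
    (hr : IsLaw r) (χ : T → E) (χ' : T' → E) (A : T → Set D) (A' : T' → Set D)
    (N : T → T' → Set D) (H b : ℝ) (hN : ∀ t t', H < ‖χ t - χ' t'‖ → Pr r (N t t') ≤ b)
    (hb : 0 ≤ b)
    (h : ∀ t t' d, d ∉ A t → d ∉ A' t' → d ∉ N t t' → ‖χ t - χ' t'‖ ≤ H) :
    Ex q (fun t => Pr q' {t' | H < ‖χ t - χ' t'‖}) ≤
      Ex q (fun t => Pr r (A t)) + Ex q' (fun t => Pr r (A' t)) + b := by
  classical
  have e0 : ∀ t t', (if H < ‖χ t - χ' t'‖ then (1 : ℝ) else 0) ≤
      Pr r (A t) + Pr r (A' t') + b := by
    intro t t'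
    have a1 := Pool.KAF.Pr_nonneg hr.nonneg (A t)
    have a2 := Pool.KAF.Pr_nonneg hr.nonneg (A' t')
    by_cases hd : H < ‖χ t - χ' t'‖
    · rw [if_pos hd]
      have h1 : (1 : ℝ) ≤ Pr r (A t) + Pr r (A' t') + Pr r (N t t') := by
        rw [Pool.KAF.Pr_eq, Pool.KAF.Pr_eq, Pool.KAF.Pr_eq, ← hr.sum_one,
          ← Finset.sum_add_distrib, ← Finset.sum_add_distrib]
        refine Finset.sum_le_sum fun d _ => ?_
        have hr0 := hr.nonneg d
        by_cases h1 : d ∈ A t
        · rw [if_pos h1]
          split_ifs <;> linarith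
        by_cases h2 : d ∈ A' t'
        · rw [if_pos h2]
          split_ifs <;> linarith
        by_cases h3 : d ∈ N t t'
        · rw [if_pos h3]
          split_ifs <;> linarith only
        exact absurd hd (not_lt.2 (h t t' d h1 h2 h3))
      have := hN t t' hd
      linarith
    · rw [if_neg hd]
      linarith
  have e1 : Ex q (fun t => Pr q' {t' | H < ‖χ t - χ' t'‖}) =
      ∑ t, q t * ∑ t', q' t' * (if H < ‖χ t - χ' t'‖ then (1 : ℝ) else 0) := by
    unfold Ex
    refine Finset.sum_congr rfl fun t _ => ?_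
    show q t * Pr q' {t' | H < ‖χ t - χ' t'‖} = _
    congr 1
    rw [Pool.KAF.Pr_eq]
    refine Finset.sum_congr rfl fun t' _ => ?_
    by_cases hd : H < ‖χ t - χ' t'‖
    · rw [if_pos (show t' ∈ {t' | H < ‖χ t - χ' t'‖} from hd), if_pos hd, mul_one]
    · rw [if_neg (show t' ∉ {t' | H < ‖χ t - χ' t'‖} from hd), if_neg hd, mul_zero]
  rw [e1]
  have e2 : ∑ t, q t * ∑ t', q' t' * (Pr r (A t) + Pr r (A' t') + b) =
      Ex q (fun t => Pr r (A t)) + Ex q' (fun t => Pr r (A' t)) + b := by
    have f1 : ∀ t, ∑ t', q' t' * (Pr r (A t) + Pr r (A' t') + b) =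
        Pr r (A t) + Ex q' (fun t => Pr r (A' t)) + b := by
      intro t
      unfold Ex
      simp only [mul_add, Finset.sum_add_distrib, ← Finset.sum_mul, hq'.sum_one, one_mul]
    rw [Finset.sum_congr rfl fun t _ => by rw [f1 t]]
    simp only [mul_add, Finset.sum_add_distrib, ← Finset.sum_mul, hq.sum_one, one_mul]
    rfl
  rw [← e2]
  refine Finset.sum_le_sum fun t _ => mul_le_mul_of_nonneg_left ?_ (hq.nonneg t)
  exact Finset.sum_le_sum fun t' _ => mul_le_mul_of_nonneg_left (e0 t t') (hq'.nonneg t')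

/-- A centre of the slopes. -/
theorem exists_centerV {q : T → ℝ} (hq : IsLaw q) (χ : T → E) (H δ : ℝ)
    (h : Ex q (fun t => Pr q {t' | H < ‖χ t - χ t'‖}) ≤ δ) :
    ∃ a, Pr q {t' | H < ‖χ t' - a‖} ≤ δ := by
  classical
  by_contra hcon
  push Not at hcon
  have h1 : δ < Ex q (fun t => Pr q {t' | H < ‖χ t - χ t'‖}) := by
    have h2 : Ex q (fun _ => δ) = δ := Ex_const hq.sum_one δ
    rw [← h2]
    unfold Ex
    have hex : ∃ t, 0 < q t := by
      by_contra hc
      push Not at hc
      have : ∑ t, q t ≤ 0 := Finset.sum_nonpos fun t _ => hc t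
      rw [hq.sum_one] at this
      linarith only [this]
    obtain ⟨t₀, ht₀⟩ := hex
    refine Finset.sum_lt_sum (fun t _ => ?_) ⟨t₀, mem_univ _, ?_⟩
    · refine mul_le_mul_of_nonneg_left ?_ (hq.nonneg t)
      have h3 := hcon (χ t)
      simp only [norm_sub_rev (χ t)]
      exact h3.le
    · refine mul_lt_mul_of_pos_left ?_ ht₀
      have h3 := hcon (χ t₀)
      simp only [norm_sub_rev (χ t₀)]
      exact h3
  linarith only [h, h1]

/-- Near slopes have near centres. -/
theorem center_closeV {q : T → ℝ} {q' : T' → ℝ} (hq : IsLaw q) (hq' : IsLaw q') (χ : T → E)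
    (χ' : T' → E) (a a' : E) (H H' δ : ℝ) (hδ : 3 * δ < 1)
    (h : Ex q (fun t => Pr q' {t' | H < ‖χ t - χ' t'‖}) ≤ δ)
    (h1 : Pr q {t | H' < ‖χ t - a‖} ≤ δ) (h2 : Pr q' {t | H' < ‖χ' t - a'‖} ≤ δ) :
    ‖a - a'‖ ≤ H + 2 * H' := by
  classical
  by_contra hcon
  push Not at hcon
  have e0 : (1 : ℝ) = ∑ t, ∑ t', q t * q' t' := by
    simp only [← Finset.mul_sum, hq'.sum_one, hq.sum_one, mul_one]
  have e1 : Ex q (fun t => Pr q' {t' | H < ‖χ t - χ' t'‖}) =
      ∑ t, ∑ t', q t * (q' t' * (if H < ‖χ t - χ' t'‖ then (1 : ℝ) else 0)) := by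
    unfold Ex
    refine Finset.sum_congr rfl fun t _ => ?_
    show q t * Pr q' {t' | H < ‖χ t - χ' t'‖} = _
    rw [Pool.KAF.Pr_eq, Finset.mul_sum]
    refine Finset.sum_congr rfl fun t' _ => ?_
    by_cases hd : H < ‖χ t - χ' t'‖
    · rw [if_pos (show t' ∈ {t' | H < ‖χ t - χ' t'‖} from hd), if_pos hd, mul_one]
    · rw [if_neg (show t' ∉ {t' | H < ‖χ t - χ' t'‖} from hd), if_neg hd, mul_zero,
        mul_zero, mul_zero]
  have e2 : Pr q {t | H' < ‖χ t - a‖} =
      ∑ t, ∑ t', q t * (q' t' * (if H' < ‖χ t - a‖ then (1 : ℝ) else 0)) := by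
    rw [Pool.KAF.Pr_eq]
    refine Finset.sum_congr rfl fun t _ => ?_
    rw [← Finset.mul_sum, ← Finset.sum_mul, hq'.sum_one, one_mul]
    by_cases hd : H' < ‖χ t - a‖
    · rw [if_pos (show t ∈ {t | H' < ‖χ t - a‖} from hd), if_pos hd, mul_one]
    · rw [if_neg (show t ∉ {t | H' < ‖χ t - a‖} from hd), if_neg hd, mul_zero]
  have e3 : Pr q' {t | H' < ‖χ' t - a'‖} =
      ∑ t, ∑ t', q t * (q' t' * (if H' < ‖χ' t' - a'‖ then (1 : ℝ) else 0)) := by
    rw [Pool.KAF.Pr_eq, Finset.sum_comm]
    refine Finset.sum_congr rfl fun t _ => ?_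
    rw [← Finset.sum_mul, hq.sum_one, one_mul]
    by_cases hd : H' < ‖χ' t - a'‖
    · rw [if_pos (show t ∈ {t | H' < ‖χ' t - a'‖} from hd), if_pos hd, mul_one]
    · rw [if_neg (show t ∉ {t | H' < ‖χ' t - a'‖} from hd), if_neg hd, mul_zero]
  exact by
   have h4 : (1 : ℝ) ≤ Ex q (fun t => Pr q' {t' | H < ‖χ t - χ' t'‖}) +
       Pr q {t | H' < ‖χ t - a‖} + Pr q' {t | H' < ‖χ' t - a'‖} := by
     rw [e1, e2, e3, ← Finset.sum_add_distrib, ← Finset.sum_add_distrib]
     refine e0.trans_le (Finset.sum_le_sum fun t _ => ?_)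
     rw [← Finset.sum_add_distrib, ← Finset.sum_add_distrib]
     refine Finset.sum_le_sum fun t' _ => ?_
     rw [← mul_add, ← mul_add, ← mul_add, ← mul_add]
     refine mul_le_mul_of_nonneg_left ?_ (hq.nonneg t)
     have h5 : (1 : ℝ) ≤ (if H < ‖χ t - χ' t'‖ then (1 : ℝ) else 0) +
         (if H' < ‖χ t - a‖ then (1 : ℝ) else 0) + (if H' < ‖χ' t' - a'‖ then (1 : ℝ) else 0) := by
       by_cases g1 : H < ‖χ t - χ' t'‖
       · rw [if_pos g1]
         split_ifs <;> norm_num
       by_cases g2 : H' < ‖χ t - a‖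
       · rw [if_pos g2]
         split_ifs <;> norm_num
       by_cases g3 : H' < ‖χ' t' - a'‖
       · rw [if_pos g3]
         split_ifs <;> norm_num
       exfalso
       rw [not_lt] at g1 g2 g3
       have g4 : ‖a - a'‖ ≤ ‖χ t - χ' t'‖ + ‖χ t - a‖ + ‖χ' t' - a'‖ := by
         have i3 : a - a' = (χ t - χ' t') + (-(χ t - a) + (χ' t' - a')) := by abel
         have i1 := norm_add_le (χ t - χ' t') (-(χ t - a) + (χ' t' - a'))
         have i2 := norm_add_le (-(χ t - a)) (χ' t' - a')
         rw [norm_neg] at i2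
         rw [← i3] at i1
         linarith only [hcon, g1, g2, g3, i1, i2]
       linarith only [hcon, g1, g2, g3, g4]
     have h6 := mul_le_mul_of_nonneg_left h5 (hq'.nonneg t')
     rw [mul_one] at h6
     exact h6
   linarith

end

/-- **Agreement at one base.** `B ξ d` is the value of the form `ξ` at the difference `dy` of the
copy `d`. -/
theorem als_oneV {T D E : Type} [Fintype T] [Fintype D] [NormedAddCommGroup E] (B' : E → D → ℝ)
    (hB' : ∀ a b d, B' (a - b) d = B' a d - B' b d) (n X N₀ : ℕ) (hX : 0 < X) (u : ℝ)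
    (hu : 0 < u) (hu1 : u ≤ 1) (hNu : 2 / u ≤ N₀) (hnX : 4 * n ≤ X)
    (J : Finset ℕ) (hJ' : ∀ j ∈ J, n ≤ j ∧ j < X) (hJu : u * X ≤ J.card)
    (q : ℕ → T → ℝ) (hq : ∀ i < n, IsLaw (q i)) (r : ℕ → D → ℝ) (hr : ∀ s < X, IsLaw (r s))
    (χ : ℕ → T → E) (db : D → ℝ) (Y : ℕ → ℝ) (hY : ∀ s, 0 < Y s)
    (hY2 : ∀ s, Y s ≤ 2 * Y (s + 1)) (h : ℝ) (hh : 0 ≤ h)
    (Bg : Finset ℕ) (η : ℝ) (hη : 0 < η) (hη1 : η ≤ 1)
    (hBg : ∀ s, s + 1 < X → s ∉ Bg → ∀ d, η * r (s + 1) d ≤ r s d)
    (hBgc : (Bg.card : ℝ) ≤ u ^ 2 * X / 16)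
    (b : ℕ → ℝ) (A N θ δ : ℝ) (hθ : 0 < θ) (hδ : 3 * δ < 1)
    (hA : ∑ i ∈ range n, ∑ s ∈ range X, (if s + i ∈ J then
      Ex (q i) (fun t => Pr (r s) {d | h * Y s < |db d - B' (χ i t) d|}) else 0) ≤ A)
    (hb0 : ∀ s < X, 0 ≤ b s)
    (hb : ∀ s < X, ∀ ξ : E, Pr (r s) {d | |B' ξ d| < ‖ξ‖ * Y s} ≤ b s)
    (hN : ∑ s ∈ range X, b s ≤ N)
    (hc : 2 * θ / η * X + N ≤ δ * (u ^ 2 / 16 * X)) :
    ∃ La : E, ∑ i ∈ range n, Pr (q i) {t | (14 * N₀ + 2) * h < ‖χ i t - La‖} ≤
      δ * n + (4 * N₀ ^ 2 + 1) * (A / (θ * X)) := by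
  classical
  have hJ : ∀ j ∈ J, j < X := fun j hj => (hJ' j hj).2
  have hXr : (0 : ℝ) < X := by exact_mod_cast hX
  have hu2 : u ^ 2 ≤ u := by nlinarith only [hu, hu1]
  have hN₀ : 1 ≤ N₀ := by
    by_contra hc'
    have : N₀ = 0 := by omega
    rw [this, Nat.cast_zero, div_le_iff₀ hu] at hNu
    linarith only [hNu]
  set a : ℕ → ℕ → ℝ := fun i s =>
    Ex (q i) (fun t => Pr (r s) {d | h * Y s < |db d - B' (χ i t) d|}) with ha
  have hq0 : ∀ i < n, ∀ t, 0 ≤ q i t := fun i hi => (hq i hi).nonneg
  have ha0 : ∀ i < n, ∀ s < X, 0 ≤ a i s := fun i hi s hs =>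
    Ex_nonneg (hq0 i hi) fun t _ => Pool.KAF.Pr_nonneg (hr s hs).nonneg _
  set c : ℕ → ℝ := fun i => ∑ s ∈ range X, (if s + i ∈ J then a i s else 0) with hcdef
  have hc0 : ∀ i < n, 0 ≤ c i := fun i hi => Finset.sum_nonneg fun s hs => by
    split_ifs
    · exact ha0 i hi s (mem_range.1 hs)
    · exact le_rfl
  have hN0 : 0 ≤ N := le_trans (Finset.sum_nonneg fun s hs => hb0 s (mem_range.1 hs)) hN
  have hθη : θ ≤ θ / η := by
    rw [le_div_iff₀ hη]
    nlinarith only [hη1, hθ]
  have hδ0 : 0 ≤ δ := by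
    have h1 : 0 < 2 * θ / η * X + N := by
      have : 0 < 2 * θ / η * X := by positivity
      linarith only [hN0, this]
    have h2 : 0 < u ^ 2 / 16 * X := by positivity
    by_contra hcon
    push Not at hcon
    have := mul_neg_of_neg_of_pos hcon h2
    linarith only [hc, h1, this]
  -- the bad scales
  exact by
   set B : Finset ℕ := (range n).filter (fun i => θ * X < c i) with hB
   have hBc : (B.card : ℝ) ≤ A / (θ * X) := by
     rw [le_div_iff₀ (by positivity)]
     have h1 : (B.card : ℝ) * (θ * X) ≤ ∑ i ∈ B, c i := by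
       rw [← nsmul_eq_mul, ← Finset.sum_const]
       exact Finset.sum_le_sum fun i hi => (mem_filter.1 hi).2.le
     have h2 : ∑ i ∈ B, c i ≤ ∑ i ∈ range n, c i :=
       Finset.sum_le_sum_of_subset_of_nonneg (filter_subset _ _) fun i hi _ =>
         hc0 i (mem_range.1 hi)
     linarith only [hA, h1, h2]
   have hgood : ∀ i < n, i ∉ B → c i ≤ θ * X := by
     intro i hi hiB
     by_contra hcon
     exact hiB (mem_filter.2 ⟨mem_range.2 hi, not_le.1 hcon⟩)
   -- sums over sets of depths
   have hsum : ∀ i < n, i ∉ B → ∀ (S : Finset ℕ) (k : ℕ), (∀ s ∈ S, s + k + i ∈ J) →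
       ∑ s ∈ S, a i (s + k) ≤ θ * X := by
     intro i hi hiB S k hS
     refine le_trans ?_ (hgood i hi hiB)
     have h1 : ∑ s ∈ S, a i (s + k) = ∑ s ∈ S.image (fun s => s + k),
         (if s + i ∈ J then a i s else 0) := by
       rw [Finset.sum_image fun x _ y _ hxy => Nat.add_right_cancel hxy]
       exact Finset.sum_congr rfl fun s hs => by rw [if_pos (hS s hs)]
     rw [h1]
     refine Finset.sum_le_sum_of_subset_of_nonneg ?_ ?_
     · intro x hx
       obtain ⟨s, hs, rfl⟩ := mem_image.1 hx
       have := hJ _ (hS s hs)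
       rw [mem_range]
       omega
     · intro s hs _
       split_ifs
       · exact ha0 i hi s (mem_range.1 hs)
       · exact le_rfl
   exact by
    have hsumb : ∀ (S : Finset ℕ) (k : ℕ), (∀ s ∈ S, s + k < X) → ∑ s ∈ S, b (s + k) ≤ N := by
      intro S k hS
      refine le_trans ?_ hN
      have h1 : ∑ s ∈ S, b (s + k) = ∑ s ∈ S.image (fun s => s + k), b s := by
        rw [Finset.sum_image fun x _ y _ hxy => Nat.add_right_cancel hxy]
      rw [h1]
      refine Finset.sum_le_sum_of_subset_of_nonneg ?_ ?_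
      · intro x hx
        obtain ⟨s, hs, rfl⟩ := mem_image.1 hx
        exact mem_range.2 (hS s hs)
      · intro s hs _
        exact hb0 s (mem_range.1 hs)
    -- pairs of scales in the same cells
    have hsame : ∀ i j, i ≤ j → j < n → i ∉ B → j ∉ B →
        u ^ 2 * X / 8 ≤ (J.filter (fun x => x + (j - i) ∈ J)).card →
        Ex (q i) (fun t => Pr (q j) {t' | 2 * h < ‖χ i t - χ j t'‖}) ≤ δ := by
      intro i j hij hj hiB hjB hcard
      set S : Finset ℕ := (range X).filter (fun s => s + i ∈ J ∧ s + j ∈ J) with hS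
      have hcS : (J.filter (fun x => x + (j - i) ∈ J)).card ≤ S.card := by
        have h1 : J.filter (fun x => x + (j - i) ∈ J) ⊆ S.image (fun s => s + i) := by
          intro x hx
          obtain ⟨hx1, hx2⟩ := mem_filter.1 hx
          obtain ⟨hx4, hx3⟩ := hJ' x hx1
          rw [mem_image]
          refine ⟨x - i, mem_filter.2 ⟨mem_range.2 (by omega), ?_, ?_⟩, by omega⟩
          · rwa [show x - i + i = x by omega]
          · rwa [show x - i + j = x + (j - i) by omega]
        exact (card_le_card h1).trans card_image_le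
      have hcS' : ((J.filter (fun x => x + (j - i) ∈ J)).card : ℝ) ≤ S.card := by
        exact_mod_cast hcS
      have hS1 : u ^ 2 / 16 * X ≤ S.card := by
        have : 0 ≤ u ^ 2 * X := by positivity
        linarith only [hcard, hcS']
      have e1 := hsum i (by omega) hiB S 0 fun s hs => (mem_filter.1 hs).2.1
      have e2 := hsum j hj hjB S 0 fun s hs => (mem_filter.1 hs).2.2
      have e3 := hsumb S 0 fun s hs => mem_range.1 (mem_filter.1 hs).1
      simp only [add_zero] at e1 e2 e3
      obtain ⟨s, hs, hle⟩ := exists_le_avg S (fun s => a i s + a j s + b s) (2 * θ / η * X + N)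
        (u ^ 2 / 16 * X) δ (by positivity) hS1 (by
          rw [Finset.sum_add_distrib, Finset.sum_add_distrib]
          have : θ * X ≤ θ / η * X := mul_le_mul_of_nonneg_right hθη hXr.le
          have e4 : 2 * θ / η * X = θ / η * X + θ / η * X := by ring
          linarith only [e1, e2, e3, this, e4]) hc hδ0
      have hsX : s < X := mem_range.1 (mem_filter.1 hs).1
      refine (pair_leV (hq i (by omega)) (hq j hj) (hr s hsX) (χ i) (χ j)
        (fun t => {d | h * Y s < |db d - B' (χ i t) d|})
        (fun t => {d | h * Y s < |db d - B' (χ j t) d|})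
        (fun t t' => {d | |B' (χ i t - χ j t') d| < ‖χ i t - χ j t'‖ * Y s})
        (2 * h) (b s) ?_ (hb0 s hsX) ?_).trans hle
      · intro t t' hlt
        exact hb s hsX _
      intro t t' d h1 h2 h3
      simp only [Set.mem_ofPred_eq, not_lt] at h1 h2 h3
      have h4 : |B' (χ i t - χ j t') d| ≤ 2 * h * Y s := by
        have : B' (χ i t - χ j t') d = (db d - B' (χ j t') d) - (db d - B' (χ i t) d) := by
          rw [hB']
          ring
        rw [this]
        have := abs_sub (db d - B' (χ j t') d) (db d - B' (χ i t) d)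
        linarith only [h1, h2, this]
      by_contra hcon
      push Not at hcon
      have h5 : 2 * h * Y s < ‖χ i t - χ j t'‖ * Y s := mul_lt_mul_of_pos_right hcon (hY s)
      linarith only [h3, h4, h5]
    -- neighbouring scales
    exact by
     have hnext : ∀ i, i + 1 < n → i ∉ B → i + 1 ∉ B →
         Ex (q i) (fun t => Pr (q (i + 1)) {t' | 3 * h < ‖χ i t - χ (i + 1) t'‖}) ≤ δ := by
       intro i hi hiB hiB'
       set S : Finset ℕ := (range X).filter (fun s => s + 1 + i ∈ J ∧ s ∉ Bg) with hS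
       have hcS : J.card ≤ Bg.card + S.card := by
         have h1 : J ⊆ Bg.image (fun s => s + 1 + i) ∪ S.image (fun s => s + 1 + i) := by
           intro x hx1
           obtain ⟨hx4, hx3⟩ := hJ' x hx1
           rw [mem_union, mem_image, mem_image]
           by_cases hxb : x - (i + 1) ∈ Bg
           · exact Or.inl ⟨x - (i + 1), hxb, by omega⟩
           · refine Or.inr ⟨x - (i + 1), mem_filter.2 ⟨mem_range.2 (by omega), ?_, hxb⟩, by omega⟩
             rwa [show x - (i + 1) + 1 + i = x by omega]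
         calc J.card ≤ (Bg.image (fun s => s + 1 + i) ∪ S.image (fun s => s + 1 + i)).card :=
               card_le_card h1
           _ ≤ (Bg.image (fun s => s + 1 + i)).card + (S.image (fun s => s + 1 + i)).card :=
               card_union_le _ _
           _ ≤ Bg.card + S.card := Nat.add_le_add card_image_le card_image_le
       have hcS' : (J.card : ℝ) ≤ Bg.card + S.card := by exact_mod_cast hcS
       have hu2X : u ^ 2 * X ≤ u * X := mul_le_mul_of_nonneg_right hu2 hXr.le
       have hS1 : u ^ 2 / 16 * X ≤ S.card := by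
         have : 0 ≤ u ^ 2 * X := by positivity
         linarith only [hJu, hBgc, hcS', hu2X]
       have hSX : ∀ s ∈ S, s + 1 < X := by
         intro s hs
         have := hJ _ (mem_filter.1 hs).2.1
         omega
       have e1 := hsum i (by omega) hiB S 1 fun s hs => (mem_filter.1 hs).2.1
       have e2 := hsum (i + 1) hi hiB' S 0 fun s hs => by
         have := (mem_filter.1 hs).2.1
         rwa [show s + 0 + (i + 1) = s + 1 + i by omega]
       have e3 := hsumb S 1 hSX
       simp only [add_zero] at e2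
       obtain ⟨s, hs, hle⟩ := exists_le_avg S (fun s => a i (s + 1) + a (i + 1) s / η + b (s + 1))
         (2 * θ / η * X + N) (u ^ 2 / 16 * X) δ (by positivity) hS1 (by
           rw [Finset.sum_add_distrib, Finset.sum_add_distrib, ← Finset.sum_div]
           have h1 : θ * X ≤ θ / η * X := mul_le_mul_of_nonneg_right hθη hXr.le
           have h2 : (∑ s ∈ S, a (i + 1) s) / η ≤ θ * X / η :=
             div_le_div_of_nonneg_right e2 hη.le
           have e4 : 2 * θ / η * X = θ / η * X + θ * X / η := by ring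
           linarith only [e1, e3, h1, h2, e4]) hc hδ0
       have hs1 : s + 1 < X := hSX s hs
       have hsX : s < X := by omega
       have hsB : s ∉ Bg := (mem_filter.1 hs).2.2
       -- atomic in the finer cell
       have hfine : Ex (q (i + 1)) (fun t => Pr (r (s + 1))
           {d | h * Y s < |db d - B' (χ (i + 1) t) d|}) ≤ a (i + 1) s / η := by
         rw [le_div_iff₀ hη, ha]
         simp only
         unfold Ex
         rw [Finset.sum_mul]
         refine Finset.sum_le_sum fun t _ => ?_
         rw [mul_assoc]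
         refine mul_le_mul_of_nonneg_left ?_ (hq0 (i + 1) hi t)
         beta_reduce
         rw [Pool.KAF.Pr_eq, Pool.KAF.Pr_eq, Finset.sum_mul]
         refine Finset.sum_le_sum fun d _ => ?_
         have := hBg s hs1 hsB d
         split_ifs
         · linarith only [this]
         · linarith only
       have hpl := pair_leV (hq i (by omega)) (hq (i + 1) hi) (hr (s + 1) hs1) (χ i) (χ (i + 1))
         (fun t => {d | h * Y (s + 1) < |db d - B' (χ i t) d|})
         (fun t => {d | h * Y s < |db d - B' (χ (i + 1) t) d|})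
         (fun t t' => {d | |B' (χ i t - χ (i + 1) t') d| < ‖χ i t - χ (i + 1) t'‖ * Y (s + 1)})
         (3 * h) (b (s + 1)) ?_ (hb0 (s + 1) hs1) ?_
       · have hle' : a i (s + 1) + a (i + 1) s / η + b (s + 1) ≤ δ := hle
         have : Ex (q i) (fun t => Pr (r (s + 1))
           {d | h * Y (s + 1) < |db d - B' (χ i t) d|}) = a i (s + 1) := rfl
         linarith only [hle, hfine, hpl]
       · intro t t' hlt
         exact hb (s + 1) hs1 _
       intro t t' d h1 h2 h3
       simp only [Set.mem_ofPred_eq, not_lt] at h1 h2 h3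
       have h4 : |B' (χ i t - χ (i + 1) t') d| ≤ h * Y s + h * Y (s + 1) := by
         have : B' (χ i t - χ (i + 1) t') d =
             (db d - B' (χ (i + 1) t') d) - (db d - B' (χ i t) d) := by
           rw [hB']
           ring
         rw [this]
         have := abs_sub (db d - B' (χ (i + 1) t') d) (db d - B' (χ i t) d)
         linarith only [h1, h2, this]
       have h6 : h * Y s ≤ h * (2 * Y (s + 1)) := mul_le_mul_of_nonneg_left (hY2 s) hh
       by_contra hcon
       push Not at hcon
       have h5 : 3 * h * Y (s + 1) < ‖χ i t - χ (i + 1) t'‖ * Y (s + 1) :=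
         mul_lt_mul_of_pos_right hcon (hY _)
       linarith only [h3, h4, h6, h5]
     -- the centres
     exact by
      have hcen : ∀ i, ∃ ce : E, i < n → i ∉ B → Pr (q i) {t | 2 * h < ‖χ i t - ce‖} ≤ δ := by
        intro i
        by_cases hi : i < n ∧ i ∉ B
        · have h1 := hsame i i le_rfl hi.1 hi.2 hi.2 (by
            have : J.filter (fun x => x + (i - i) ∈ J) = J := by
              refine Finset.filter_true_of_mem fun x hx => ?_
              rwa [Nat.sub_self, Nat.add_zero]
            rw [this]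
            have hu2X : u ^ 2 * X ≤ u * X := mul_le_mul_of_nonneg_right hu2 hXr.le
            have : 0 ≤ u ^ 2 * X := by positivity
            linarith only [hJu, hu2X])
          obtain ⟨ce, hce⟩ := exists_centerV (hq i hi.1) (χ i) (2 * h) δ h1
          exact ⟨ce, fun _ _ => hce⟩
        · exact ⟨0, fun h1 h2 => absurd ⟨h1, h2⟩ hi⟩
      choose ce hce using hcen
      -- the graph
      set Dd : ℕ → Prop := fun d => d = 1 ∨
        u ^ 2 * X / 4 ≤ (J.filter (fun x => x + d ∈ J)).card with hDd
      obtain ⟨x₀, hx1, hx2, hx3⟩ := scales n N₀ hN₀ B Dd (Or.inl rfl) (by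
        intro A' hA' hcard
        obtain ⟨a', ha', b', hb', hab, hD⟩ := overlap X n J hJ u hu hX hJu hnX A' hA' (by
            have : (N₀ : ℝ) ≤ A'.card := by exact_mod_cast hcard.le
            linarith only [hNu, this])
        exact ⟨a', ha', b', hb', hab, Or.inr hD⟩) (fun i j => ‖ce i - ce j‖) (7 * h) (by positivity)
        (fun i => by simp) (fun i j => norm_sub_rev _ _)
        (fun i j k => norm_sub_le_norm_sub_add_norm_sub _ _ _) (by
          intro i j hij hj hiB hjB hD
          have hci := hce i (by omega) hiB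
          have hcj := hce j hj hjB
          rcases hD with hD | hD
          · have hj' : j = i + 1 := by omega
            subst hj'
            have h1 := center_closeV (hq i (by omega)) (hq (i + 1) hj) (χ i) (χ (i + 1)) (ce i)
              (ce (i + 1)) (3 * h) (2 * h) δ hδ (hnext i hj hiB hjB) hci hcj
            linarith only [h1]
          · have h1 := center_closeV (hq i (by omega)) (hq j hj) (χ i) (χ j) (ce i)
              (ce j) (2 * h) (2 * h) δ hδ (hsame i j hij.le hj hiB hjB (by
                have : 0 ≤ u ^ 2 * X := by positivity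
                linarith only [hD])) hci hcj
            linarith only [hh, h1])
      -- the common slope
      exact by
       set G : Finset ℕ := (range n).filter (fun i => i ∉ B ∧ x₀ ≤ i) with hG
       have hsplit : ∀ La : E, (∀ i ∈ G, Pr (q i) {t | (14 * N₀ + 2) * h < ‖χ i t - La‖} ≤ δ) →
           ∑ i ∈ range n, Pr (q i) {t | (14 * N₀ + 2) * h < ‖χ i t - La‖} ≤
           δ * n + (4 * N₀ ^ 2 + 1) * (A / (θ * X)) := by
         intro La hLa
         have h1 : ∀ i ∈ range n, Pr (q i) {t | (14 * N₀ + 2) * h < ‖χ i t - La‖} ≤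
             δ + ((if i ∈ B then (1 : ℝ) else 0) + (if i < x₀ then (1 : ℝ) else 0)) := by
           intro i hi
           have hle1 := Pool.KAF.Pr_le_one (hq i (mem_range.1 hi))
             {t | (14 * N₀ + 2) * h < ‖χ i t - La‖}
           by_cases hiB : i ∈ B
           · rw [if_pos hiB]
             split_ifs <;> linarith only [hδ0, hle1]
           by_cases hix : i < x₀
           · rw [if_pos hix]
             split_ifs <;> linarith only [hδ0, hle1]
           rw [if_neg hiB, if_neg hix]
           have := hLa i (mem_filter.2 ⟨hi, hiB, not_lt.1 hix⟩)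
           linarith only [this]
         refine (Finset.sum_le_sum h1).trans ?_
         rw [Finset.sum_add_distrib, Finset.sum_add_distrib, Finset.sum_const, card_range,
           nsmul_eq_mul, ← Finset.sum_filter, ← Finset.sum_filter, Finset.sum_const, Finset.sum_const,
           nsmul_eq_mul, nsmul_eq_mul, mul_one, mul_one]
         have h2 : (((range n).filter (fun i => i ∈ B)).card : ℝ) ≤ B.card := by
           exact_mod_cast card_le_card fun i hi => (mem_filter.1 hi).2
         have h3 : (((range n).filter (fun i => i < x₀)).card : ℝ) ≤ x₀ := by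
           have : ((range n).filter (fun i => i < x₀)).card ≤ (range x₀).card :=
             card_le_card fun i hi => mem_range.2 (mem_filter.1 hi).2
           rw [card_range] at this
           exact_mod_cast this
         have h4 : (x₀ : ℝ) ≤ 4 * N₀ ^ 2 * B.card := by exact_mod_cast hx2
         have h5 : 4 * (N₀ : ℝ) ^ 2 * B.card ≤ 4 * N₀ ^ 2 * (A / (θ * X)) :=
           mul_le_mul_of_nonneg_left hBc (by positivity)
         have h6 : (4 * (N₀ : ℝ) ^ 2 + 1) * (A / (θ * X)) =
           4 * N₀ ^ 2 * (A / (θ * X)) + A / (θ * X) := by ring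
         rw [h6]
         linarith only [hBc, h2, h3, h4, h5]
       exact by
        by_cases hGe : G.Nonempty
        · obtain ⟨i₀, hi₀⟩ := hGe
          obtain ⟨g1, g2, g3⟩ := mem_filter.1 hi₀
          refine ⟨ce i₀, hsplit _ fun i hi => ?_⟩
          obtain ⟨f1, f2, f3⟩ := mem_filter.1 hi
          have h1 := hx3 i i₀ f3 g3 (mem_range.1 f1) (mem_range.1 g1) f2 g2
          refine le_trans (Pool.KAF.Pr_mono (hq0 i (mem_range.1 f1)) ?_) (hce i (mem_range.1 f1) f2)
          intro t _ ht
          simp only [Set.mem_ofPred_eq] at ht ⊢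
          have h2 : ‖χ i t - ce i₀‖ ≤ ‖χ i t - ce i‖ + ‖ce i - ce i₀‖ :=
            norm_sub_le_norm_sub_add_norm_sub _ _ _
          have h3 : ‖ce i - ce i₀‖ ≤ 2 * N₀ * (7 * h) := h1
          have h4 : (14 * (N₀ : ℝ) + 2) * h = 2 * N₀ * (7 * h) + 2 * h := by ring
          linarith only [h1, ht, h2]
        · refine ⟨0, hsplit _ fun i hi => ?_⟩
          exact absurd ⟨i, hi⟩ hGe

end Pool.M5
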