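import Pool.Agent.H92.M5.AGR

/-!
# L1: agreement of all slopes at one base

`singleV`: one more slope, at any level, which is atomic at most of its depths, agrees with the
common slope of the typical partners. `agr_base`: at one base there is a slope `La` such that every
partner which is atomic at most of its depths has a slope near `La`; the partners at the nominal
scale `i` have actual levels `lv`, only the mass at the level `i + 1` is used.
-/

set_option autoImplicit false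

namespace Pool.M5

open Finset Real
open Pool.Agent.H49.Ent Pool.Agent.H32.Dense Pool.STK Pool.KAF Pool.OC

/-- A slope which is atomic at most of its depths agrees with the common slope. -/
theorem singleV {T D E : Type} [Fintype T] [Fintype D] [NormedAddCommGroup E] (B' : E → D → ℝ)
    (hB' : ∀ a b d, B' (a - b) d = B' a d - B' b d) (n X : ℕ) (hn : 0 < n) (hX : 0 < X) (u : ℝ)
    (hu : 0 ≤ u) (J J₁ : Finset ℕ) (hJ₁ : ∀ s ∈ J₁, s < X)
    (hd : ∀ s ∈ J₁, u * n ≤ ((range n).filter (fun i => s + i ∈ J)).card)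
    (hJ₁c : u * X ≤ J₁.card)
    (q : ℕ → T → ℝ) (hq : ∀ i < n, IsLaw (q i)) (r : ℕ → D → ℝ) (hr : ∀ s < X, IsLaw (r s))
    (χ : ℕ → T → E) (db : D → ℝ) (Y : ℕ → ℝ) (hY : ∀ s, 0 < Y s) (h : ℝ)
    (b : ℕ → ℝ) (A N θ ε H : ℝ)
    (hA : ∑ i ∈ range n, ∑ s ∈ range X, (if s + i ∈ J then
      Ex (q i) (fun t => Pr (r s) {d | h * Y s < |db d - B' (χ i t) d|}) else 0) ≤ A)
    (hb0 : ∀ s < X, 0 ≤ b s)
    (hb : ∀ s < X, ∀ ξ : E, Pr (r s) {d | |B' ξ d| < ‖ξ‖ * Y s} ≤ b s)
    (hN : ∑ s ∈ range X, b s ≤ N) (χ₁ La : E)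
    (h₁ : ∑ s ∈ J₁, Pr (r s) {d | h * Y s < |db d - B' χ₁ d|} ≤ θ * X)
    (hLa : ∑ i ∈ range n, Pr (q i) {t | H < ‖χ i t - La‖} ≤ ε * n)
    (hc : θ + A / (n * X) + N / X + ε < u ^ 2) :
    ‖χ₁ - La‖ ≤ 2 * h + H := by
  classical
  have hXr : (0 : ℝ) < X := by exact_mod_cast hX
  have hnr : (0 : ℝ) < n := by exact_mod_cast hn
  set a₁ : ℕ → ℝ := fun s => Pr (r s) {d | h * Y s < |db d - B' χ₁ d|} with ha₁
  set a : ℕ → ℕ → ℝ := fun i s =>
    Ex (q i) (fun t => Pr (r s) {d | h * Y s < |db d - B' (χ i t) d|}) with ha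
  set f : ℕ → ℝ := fun i => Pr (q i) {t | H < ‖χ i t - La‖} with hf
  have hq0 : ∀ i < n, ∀ t, 0 ≤ q i t := fun i hi => (hq i hi).nonneg
  have ha0 : ∀ i < n, ∀ s < X, 0 ≤ a i s := fun i hi s hs =>
    Ex_nonneg (hq0 i hi) fun t _ => Pool.KAF.Pr_nonneg (hr s hs).nonneg _
  have ha₁0 : ∀ s < X, 0 ≤ a₁ s := fun s hs => Pool.KAF.Pr_nonneg (hr s hs).nonneg _
  have hf0 : ∀ i < n, 0 ≤ f i := fun i hi => Pool.KAF.Pr_nonneg (hq i hi).nonneg _
  -- the total over the pairs of a scale and a common depth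
  set S : Finset (ℕ × ℕ) := (J₁ ×ˢ range n).filter (fun x => x.1 + x.2 ∈ J) with hS
  have hScard : u ^ 2 * (n * X) ≤ S.card := by
    have h1 : (S.card : ℝ) = ∑ s ∈ J₁, (((range n).filter (fun i => s + i ∈ J)).card : ℝ) := by
      rw [hS, Finset.card_filter, Finset.sum_product]
      push_cast
      refine Finset.sum_congr rfl fun s _ => ?_
      rw [Finset.card_filter]
      push_cast
      rfl
    rw [h1]
    have h2 : ∑ s ∈ J₁, (u * n : ℝ) ≤
        ∑ s ∈ J₁, (((range n).filter (fun i => s + i ∈ J)).card : ℝ) :=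
      Finset.sum_le_sum hd
    rw [Finset.sum_const, nsmul_eq_mul] at h2
    have h3 : u * X * (u * n) ≤ J₁.card * (u * n) :=
      mul_le_mul_of_nonneg_right hJ₁c (by positivity)
    have h4 : u ^ 2 * (n * X) = u * X * (u * n) := by ring
    linarith
  have htot : ∑ x ∈ S, (a₁ x.1 + a x.2 x.1 + b x.1 + f x.2) ≤
      n * (θ * X) + A + n * N + X * (ε * n) := by
    rw [Finset.sum_add_distrib, Finset.sum_add_distrib, Finset.sum_add_distrib]
    have e1 : ∑ x ∈ S, a₁ x.1 ≤ n * (θ * X) := by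
      calc ∑ x ∈ S, a₁ x.1 ≤ ∑ x ∈ J₁ ×ˢ range n, a₁ x.1 :=
            Finset.sum_le_sum_of_subset_of_nonneg (filter_subset _ _) fun x hx _ =>
              ha₁0 _ (hJ₁ _ (mem_product.1 hx).1)
        _ = n * ∑ s ∈ J₁, a₁ s := by
            rw [Finset.sum_product, Finset.mul_sum]
            refine Finset.sum_congr rfl fun s _ => ?_
            simp only [Finset.sum_const, card_range, nsmul_eq_mul]
        _ ≤ _ := mul_le_mul_of_nonneg_left h₁ hnr.le
    have e2 : ∑ x ∈ S, a x.2 x.1 ≤ A := by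
      refine le_trans ?_ hA
      rw [hS, Finset.sum_filter, Finset.sum_product_right]
      refine Finset.sum_le_sum fun i hi => ?_
      refine Finset.sum_le_sum_of_subset_of_nonneg (fun s hs => mem_range.2 (hJ₁ s hs)) ?_
      intro s hs _
      split_ifs
      · exact ha0 i (mem_range.1 hi) s (mem_range.1 hs)
      · exact le_rfl
    have e3 : ∑ x ∈ S, b x.1 ≤ n * N := by
      calc ∑ x ∈ S, b x.1 ≤ ∑ x ∈ range X ×ˢ range n, b x.1 := by
            refine Finset.sum_le_sum_of_subset_of_nonneg (fun x hx => ?_) fun x hx _ =>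
              hb0 _ (mem_range.1 (mem_product.1 hx).1)
            have h1 := mem_product.1 (mem_filter.1 hx).1
            exact mem_product.2 ⟨mem_range.2 (hJ₁ _ h1.1), h1.2⟩
        _ = n * ∑ s ∈ range X, b s := by
            rw [Finset.sum_product, Finset.mul_sum]
            refine Finset.sum_congr rfl fun s _ => ?_
            simp only [Finset.sum_const, card_range, nsmul_eq_mul]
        _ ≤ _ := mul_le_mul_of_nonneg_left hN hnr.le
    have e4 : ∑ x ∈ S, f x.2 ≤ X * (ε * n) := by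
      calc ∑ x ∈ S, f x.2 ≤ ∑ x ∈ range X ×ˢ range n, f x.2 := by
            refine Finset.sum_le_sum_of_subset_of_nonneg (fun x hx => ?_) fun x hx _ =>
              hf0 _ (mem_range.1 (mem_product.1 hx).2)
            have h1 := mem_product.1 (mem_filter.1 hx).1
            exact mem_product.2 ⟨mem_range.2 (hJ₁ _ h1.1), h1.2⟩
        _ = X * ∑ i ∈ range n, f i := by
            rw [Finset.sum_product]
            simp only [Finset.sum_const, card_range, nsmul_eq_mul]
        _ ≤ _ := mul_le_mul_of_nonneg_left hLa hXr.le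
    linarith
  -- a pair with a small term
  obtain ⟨x, hx, hlt⟩ : ∃ x ∈ S, a₁ x.1 + a x.2 x.1 + b x.1 + f x.2 < 1 := by
    by_contra hcon
    push Not at hcon
    have h1 : (S.card : ℝ) ≤ ∑ x ∈ S, (a₁ x.1 + a x.2 x.1 + b x.1 + f x.2) := by
      rw [← mul_one (S.card : ℝ), ← nsmul_eq_mul, ← Finset.sum_const]
      exact Finset.sum_le_sum hcon
    have h2 : u ^ 2 * (n * X) ≤ n * (θ * X) + A + n * N + X * (ε * n) := by linarith
    have h3 : (θ + A / (n * X) + N / X + ε) * (n * X) < u ^ 2 * (n * X) :=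
      mul_lt_mul_of_pos_right hc (by positivity)
    have h4 : (θ + A / (n * X) + N / X + ε) * (n * X) =
        n * (θ * X) + A + n * N + X * (ε * n) := by
      field_simp
    linarith
  obtain ⟨hx1, hx2⟩ := mem_filter.1 hx
  have hsX : x.1 < X := hJ₁ _ (mem_product.1 hx1).1
  have hin : x.2 < n := mem_range.1 (mem_product.1 hx1).2
  -- a partner and a copy outside all exceptional sets
  have hkey : ∃ t : T, ∃ d : D, ¬ h * Y x.1 < |db d - B' χ₁ d| ∧
      ¬ h * Y x.1 < |db d - B' (χ x.2 t) d| ∧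
      ¬ |B' (χ₁ - χ x.2 t) d| < ‖χ₁ - χ x.2 t‖ * Y x.1 ∧ ¬ H < ‖χ x.2 t - La‖ := by
    by_contra hcon
    push Not at hcon
    have h1 : ∀ t, (1 : ℝ) ≤ a₁ x.1 + Pr (r x.1) {d | h * Y x.1 < |db d - B' (χ x.2 t) d|} +
        b x.1 + (if H < ‖χ x.2 t - La‖ then (1 : ℝ) else 0) := by
      intro t
      have g1 := ha₁0 _ hsX
      have g2 := Pool.KAF.Pr_nonneg (hr _ hsX).nonneg
        {d | h * Y x.1 < |db d - B' (χ x.2 t) d|}
      have g3 := hb0 _ hsX
      by_cases hH : H < ‖χ x.2 t - La‖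
      · rw [if_pos hH]
        linarith
      rw [if_neg hH, add_zero]
      have h2 : (1 : ℝ) ≤ a₁ x.1 + Pr (r x.1) {d | h * Y x.1 < |db d - B' (χ x.2 t) d|} +
          Pr (r x.1) {d | |B' (χ₁ - χ x.2 t) d| < ‖χ₁ - χ x.2 t‖ * Y x.1} := by
        rw [ha₁]
        simp only
        rw [Pool.KAF.Pr_eq, Pool.KAF.Pr_eq, Pool.KAF.Pr_eq, ← (hr _ hsX).sum_one,
          ← Finset.sum_add_distrib, ← Finset.sum_add_distrib]
        refine Finset.sum_le_sum fun d _ => ?_
        have hr0 := (hr _ hsX).nonneg d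
        by_cases h1 : d ∈ {d | h * Y x.1 < |db d - B' χ₁ d|}
        · rw [if_pos h1]
          split_ifs <;> linarith
        by_cases h2 : d ∈ {d | h * Y x.1 < |db d - B' (χ x.2 t) d|}
        · rw [if_pos h2]
          split_ifs <;> linarith
        by_cases h3 : d ∈ {d | |B' (χ₁ - χ x.2 t) d| < ‖χ₁ - χ x.2 t‖ * Y x.1}
        · rw [if_pos h3]
          split_ifs <;> linarith
        exact absurd (hcon t d (not_lt.1 h1) (not_lt.1 h2) (not_lt.1 h3)) hH
      have h3 := hb _ hsX (χ₁ - χ x.2 t)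
      linarith
    have h2 : (1 : ℝ) ≤ a₁ x.1 + a x.2 x.1 + b x.1 + f x.2 := by
      have hqx := hq _ hin
      have e1 : f x.2 = Ex (q x.2) (fun t => if H < ‖χ x.2 t - La‖ then (1 : ℝ) else 0) := by
        show Pr (q x.2) {t | H < ‖χ x.2 t - La‖} = _
        rw [Pool.KAF.Pr_eq]
        unfold Ex
        refine Finset.sum_congr rfl fun t _ => ?_
        by_cases hH : H < ‖χ x.2 t - La‖
        · rw [if_pos (show t ∈ {t | H < ‖χ x.2 t - La‖} from hH), if_pos hH, mul_one]
        · rw [if_neg (show t ∉ {t | H < ‖χ x.2 t - La‖} from hH), if_neg hH, mul_zero]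
      have e2 : a₁ x.1 + a x.2 x.1 + b x.1 + f x.2 = ∑ t, q x.2 t *
          (a₁ x.1 + Pr (r x.1) {d | h * Y x.1 < |db d - B' (χ x.2 t) d|} +
        b x.1 + (if H < ‖χ x.2 t - La‖ then (1 : ℝ) else 0)) := by
        rw [e1]
        simp only [mul_add, Finset.sum_add_distrib, ← Finset.sum_mul, hqx.sum_one, one_mul]
        rfl
      rw [e2, ← hqx.sum_one]
      refine Finset.sum_le_sum fun t _ => ?_
      have h3 := mul_le_mul_of_nonneg_left (h1 t) (hqx.nonneg t)
      rw [mul_one] at h3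
      exact h3
    linarith
  obtain ⟨t, d, k1, k2, k3, k4⟩ := hkey
  rw [not_lt] at k1 k2 k3 k4
  have k5 : |B' (χ₁ - χ x.2 t) d| ≤ 2 * h * Y x.1 := by
    have : B' (χ₁ - χ x.2 t) d = (db d - B' (χ x.2 t) d) - (db d - B' χ₁ d) := by
      rw [hB']
      ring
    rw [this]
    have := abs_sub (db d - B' (χ x.2 t) d) (db d - B' χ₁ d)
    linarith
  have k6 : ‖χ₁ - χ x.2 t‖ ≤ 2 * h := by
    have : ‖χ₁ - χ x.2 t‖ * Y x.1 ≤ 2 * h * Y x.1 := k3.trans k5
    exact le_of_mul_le_mul_right this (hY _)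
  have k7 := norm_sub_le_norm_sub_add_norm_sub χ₁ (χ x.2 t) La
  linarith

end Pool.M5
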